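import Pool.Agent.SpCl.A05Moment

/-!
# Module A06Weier: convergence of integrals of continuous functions
-/

open MeasureTheory Filter Topology Pool.Agent.H27Mahler

namespace Pool.Agent.SpCl

namespace A06WeierAux

variable {σ ι : Type} [Fintype σ] [Fintype ι] (a : ι → ℤ) (s : ι → (σ →₀ ℕ))

theorem norm_ev_le (t : Tor σ) : ‖ev t (pl a s)‖ ≤ ∑ i, |(a i : ℝ)| := by
  rw [ev_pl]
  refine (norm_sum_le _ _).trans (Finset.sum_le_sum fun i _ => ?_)
  rw [norm_mul, norm_mon, mul_one, Complex.norm_intCast]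

theorem cont (g : ℝ → ℝ) (hg : Continuous g) :
    Continuous fun t : Tor σ => g (‖ev t (pl a s)‖ ^ 2) :=
  hg.comp ((continuous_ev _).norm.pow 2)

theorem integrable_cont {f : Tor σ → ℝ} (hf : Continuous f) : Integrable f :=
  hf.integrable_of_hasCompactSupport (HasCompactSupport.of_compactSpace f)

theorem near (g : ℝ → ℝ) (hg : Continuous g) (q : Polynomial ℝ) {δ : ℝ}
    (hq : ∀ x ∈ Set.Icc (0 : ℝ) ((∑ i, |(a i : ℝ)|) ^ 2), |q.eval x - g x| < δ) :
    |(∫ t : Tor σ, q.eval (‖ev t (pl a s)‖ ^ 2)) - ∫ t : Tor σ, g (‖ev t (pl a s)‖ ^ 2)| ≤ δ := by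
  rw [← integral_sub (integrable_cont (cont a s (fun x => q.eval x) q.continuous))
    (integrable_cont (cont a s g hg))]
  have h := norm_integral_le_of_norm_le_const (μ := (volume : Measure (Tor σ)))
    (f := fun t => q.eval (‖ev t (pl a s)‖ ^ 2) - g (‖ev t (pl a s)‖ ^ 2)) (C := δ)
    (Filter.Eventually.of_forall fun t => by
      rw [Real.norm_eq_abs]
      refine (hq _ ⟨by positivity, ?_⟩).le
      exact pow_le_pow_left₀ (norm_nonneg _) (norm_ev_le a s t) 2)
  rw [Real.norm_eq_abs] at h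
  simpa using h

theorem poly_int (q : Polynomial ℝ) : ∫ t : Tor σ, q.eval (‖ev t (pl a s)‖ ^ 2) =
    ∑ j ∈ Finset.range (q.natDegree + 1),
      q.coeff j * ∫ t : Tor σ, (‖ev t (pl a s)‖ ^ 2) ^ j := by
  simp_rw [Polynomial.eval_eq_sum_range]
  rw [integral_finsetSum]
  · refine Finset.sum_congr rfl fun j _ => ?_
    rw [integral_const_mul]
  · intro j _
    exact integrable_cont (cont a s (fun x => q.coeff j * x ^ j) (by fun_prop))

end A06WeierAux

open A06WeierAux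

/-- PROOF. `B = ∑ |a i|`, so `0 ≤ ‖ev t (pl a s)‖^2 ≤ B^2` for all `s`. Given `δ > 0` take a real polynomial `q` with
`|q x - g x| ≤ δ` on `[0, B^2]` (`exists_polynomial_near_of_continuousOn`). `∫ q (‖ev t (pl a s)‖^2)` is a linear
combination of the moments `j ≤ natDegree q` of A05; by `hrel` (a finite conjunction, `Filter.eventually_all` for
`u v : Fin j → ι` and `j < natDegree q + 1`) it is eventually equal for `s n` and `s'`. So eventually the two
integrals of `g` differ by at most `2 δ` (probability measures). -/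
theorem tendsto_integral {α : Type} (l : Filter α) {ρ τ ι : Type} [Fintype ρ] [Fintype τ]
    [Fintype ι] (a : ι → ℤ) (s : α → ι → (ρ →₀ ℕ)) (s' : ι → (τ →₀ ℕ))
    (hrel : ∀ (j : ℕ) (u v : Fin j → ι), ∀ᶠ n in l,
      (∑ r, s n (u r) = ∑ r, s n (v r) ↔ ∑ r, s' (u r) = ∑ r, s' (v r)))
    (g : ℝ → ℝ) (hg : Continuous g) :
    Tendsto (fun n => ∫ t : Tor ρ, g (‖ev t (pl a (s n))‖ ^ 2)) l
      (𝓝 (∫ t : Tor τ, g (‖ev t (pl a s')‖ ^ 2))) := by
  have hmom : ∀ j : ℕ, ∀ᶠ n in l, ∫ t : Tor ρ, (‖ev t (pl a (s n))‖ ^ 2) ^ j =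
      ∫ t : Tor τ, (‖ev t (pl a s')‖ ^ 2) ^ j := by
    intro j
    have h1 : ∀ᶠ n in l, ∀ u v : Fin j → ι,
        (∑ r, s n (u r) = ∑ r, s n (v r) ↔ ∑ r, s' (u r) = ∑ r, s' (v r)) := by
      rw [Filter.eventually_all]
      intro u
      rw [Filter.eventually_all]
      exact hrel j u
    filter_upwards [h1] with n hn
    rw [moment, moment]
    refine Finset.sum_congr rfl fun u _ => Finset.sum_congr rfl fun v _ => ?_
    congr 1
    by_cases h : ∑ r, s' (u r) = ∑ r, s' (v r)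
    · rw [if_pos h, if_pos ((hn u v).2 h)]
    · rw [if_neg h, if_neg (fun h' => h ((hn u v).1 h'))]
  rw [Metric.tendsto_nhds]
  intro ε hε
  obtain ⟨q, hq⟩ := exists_polynomial_near_of_continuousOn 0 ((∑ i, |(a i : ℝ)|) ^ 2) g
    hg.continuousOn (ε / 3) (by positivity)
  have h2 : ∀ᶠ n in l, ∀ j ∈ Finset.range (q.natDegree + 1),
      ∫ t : Tor ρ, (‖ev t (pl a (s n))‖ ^ 2) ^ j = ∫ t : Tor τ, (‖ev t (pl a s')‖ ^ 2) ^ j := by
    rw [Filter.eventually_all_finset]
    exact fun j _ => hmom j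
  filter_upwards [h2] with n hn
  have h3 := near a (s n) g hg q hq
  have h4 := near a s' g hg q hq
  have h5 : ∫ t : Tor ρ, q.eval (‖ev t (pl a (s n))‖ ^ 2) =
      ∫ t : Tor τ, q.eval (‖ev t (pl a s')‖ ^ 2) := by
    rw [poly_int, poly_int]
    exact Finset.sum_congr rfl fun j hj => by rw [hn j hj]
  rw [h5] at h3
  rw [Real.dist_eq]
  rw [abs_le] at h3 h4
  rw [abs_lt]
  constructor <;> linarith [h3.1, h3.2, h4.1, h4.2]

end Pool.Agent.SpCl
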