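import Pool.Agent.SpCl.A04Tail
import Pool.Agent.SpCl.A06Weier

/-!
# Module A07Limit: the limit theorem
-/

open MeasureTheory Filter Topology Pool.Agent.H27Mahler

namespace Pool.Agent.SpCl

/-- limit theorem for the Mahler measures of polynomials with fixed coefficients and converging relations.

PROOF. For `ε > 0` let `g x = log (max (ε^2) x) / 2` (continuous), so `g (r^2) = log (max ε r)` for `r ≥ 0`.
With `K, β` of `log_tail (Fintype.card ι)` (`card_support_pl`, `pl_ne_zero`) and `mm_le_log_max`: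
`mm (pl a (s n)) ≤ I_n(ε) ≤ mm (pl a (s n)) + K ε^β` and the same for `s'`, where `I_n(ε) → I(ε)` by A06.
Given `η > 0` choose `ε` with `K ε^β < η/2` (`β > 0`); eventually `|I_n(ε) - I(ε)| < η/2`, so
`|mm (pl a (s n)) - mm (pl a s')| < 2 η`. -/
theorem tendsto_mm {α : Type} (l : Filter α) {ρ τ ι : Type} [Fintype ρ] [Fintype τ]
    [Fintype ι] [Nonempty ι] (a : ι → ℤ) (ha : ∀ i, a i ≠ 0) (s : α → ι → (ρ →₀ ℕ))
    (hs : ∀ n, Function.Injective (s n)) (s' : ι → (τ →₀ ℕ)) (hs' : Function.Injective s')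
    (hrel : ∀ (j : ℕ) (u v : Fin j → ι), ∀ᶠ n in l,
      (∑ r, s n (u r) = ∑ r, s n (v r) ↔ ∑ r, s' (u r) = ∑ r, s' (v r))) :
    Tendsto (fun n => mm (pl a (s n))) l (𝓝 (mm (pl a s'))) := by
  obtain ⟨K, β, hK, hβ, hKb⟩ := log_tail (Fintype.card ι)
  rw [Metric.tendsto_nhds]
  intro η hη
  obtain ⟨ε, hε, hKε⟩ : ∃ ε : ℝ, 0 < ε ∧ K * ε ^ β = η / 4 := by
    refine ⟨(η / 4 / K) ^ (1 / β), Real.rpow_pos_of_pos (by positivity) _, ?_⟩
    rw [← Real.rpow_mul (by positivity), one_div_mul_cancel hβ.ne', Real.rpow_one]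
    field_simp
  have hg : Continuous fun x : ℝ => Real.log (max (ε ^ 2) x) / 2 := by
    refine Continuous.div_const (Continuous.log (by fun_prop) fun x => ?_) 2
    exact (lt_of_lt_of_le (by positivity) (le_max_left _ _)).ne'
  have hgr : ∀ r : ℝ, 0 ≤ r → Real.log (max (ε ^ 2) (r ^ 2)) / 2 = Real.log (max ε r) := by
    intro r hr
    have h1 : max (ε ^ 2) (r ^ 2) = (max ε r) ^ 2 := by
      rcases le_total ε r with h | h
      · rw [max_eq_right h, max_eq_right (by gcongr)]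
      · rw [max_eq_left h, max_eq_left (by gcongr)]
    rw [h1, Real.log_pow]
    push_cast
    ring
  have hT := tendsto_integral l a s s' hrel _ hg
  simp only [hgr _ (norm_nonneg _)] at hT
  filter_upwards [Metric.tendsto_nhds.mp hT (η / 2) (by positivity)] with n hn
  have h1 := hKb ρ (pl a (s n)) (pl_ne_zero (hs n) ha) (card_support_pl (hs n) ha).le ε hε
  have h2 := mm_le_log_max (pl_ne_zero (hs n) ha) hε (F := pl a (s n))
  have h3 := hKb τ (pl a s') (pl_ne_zero hs' ha) (card_support_pl hs' ha).le ε hε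
  have h4 := mm_le_log_max (pl_ne_zero hs' ha) hε (F := pl a s')
  rw [hKε] at h1 h3
  rw [Real.dist_eq, abs_lt] at hn ⊢
  constructor <;> linarith [hn.1, hn.2]

end Pool.Agent.SpCl
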