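import Pool.Agent.SpCl.E01Bounded

/-!
# Module E02Final: the theorem in terms of `mm`
-/

open MvPolynomial MeasureTheory Pool.Agent.H27Mahler

namespace Pool.Agent.SpCl

/-- padding with one more variable -/
theorem yexp_rename_succ {k m : ℕ} (hm : 1 ≤ m) {F : MvPolynomial (Fin k) ℤ}
    (h : ∀ y, (yexp y F).card ≤ m) {n : ℕ} (f : Fin k → Fin n) (hf : Function.Injective f) :
    ∀ y, (yexp y (rename f F)).card ≤ m := by
  classical
  intro y
  by_cases hy : ∃ i, f i = y
  · obtain ⟨i, rfl⟩ := hy
    have : yexp (f i) (rename f F) = yexp i F := by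
      unfold yexp
      rw [support_rename_of_injective hf, Finset.image_image]
      refine Finset.image_congr fun s _ => ?_
      simp [Finsupp.mapDomain_apply hf]
    rw [this]
    exact h i
  · have : yexp y (rename f F) ⊆ {0} := by
      intro e he
      unfold yexp at he
      rw [support_rename_of_injective hf, Finset.image_image, Finset.mem_image] at he
      obtain ⟨s, _, rfl⟩ := he
      rw [Finset.mem_singleton]
      show (Finsupp.mapDomain f s) y = 0
      exact Finsupp.mapDomain_of_notMem_range _ _ (by simpa using hy)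
    exact (Finset.card_le_card this).trans (by simpa using hm)

/-- bounded complexity -/
theorem bounded_complexity (m : ℕ) (hm : 1 ≤ m) (T : ℝ) : ∃ N : ℕ, ∀ (k : ℕ)
    (F : MvPolynomial (Fin k) ℤ), F ≠ 0 → (∀ y, (yexp y F).card ≤ m) → mm F ≤ T →
    ∃ G : MvPolynomial (Fin N) ℤ, G ≠ 0 ∧ (∀ y, (yexp y G).card ≤ m) ∧ G.support.card ≤ N ∧
      (∀ s, |G.coeff s| ≤ N) ∧ mm G = mm F := by
  obtain ⟨K, hK⟩ := bounded_variables m hm T
  set B : ℕ := ⌈2 ^ (m ^ K) * Real.exp T⌉₊ with hB
  refine ⟨K + m ^ K + B, fun k F hF0 hF hT => ?_⟩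
  obtain ⟨G, hG0, hG, hGm⟩ := hK (Fin k) F hF0 hF hT
  have hcard := card_support_le_pow hG
  have hinj : Function.Injective (Fin.castLE (by omega : K ≤ K + m ^ K + B)) :=
    Fin.castLE_injective _
  refine ⟨rename (Fin.castLE (by omega : K ≤ K + m ^ K + B)) G, ?_, ?_, ?_, ?_, ?_⟩
  · rw [Ne, ← map_zero (rename (Fin.castLE (by omega : K ≤ K + m ^ K + B))),
      (rename_injective _ hinj).eq_iff]
    exact hG0
  · exact yexp_rename_succ hm hG _ hinj
  · classical
    rw [support_rename_of_injective hinj]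
    refine Finset.card_image_le.trans ?_
    omega
  · intro s
    by_cases hs : ∃ u, Finsupp.mapDomain (Fin.castLE (by omega : K ≤ K + m ^ K + B)) u = s
    · obtain ⟨u, rfl⟩ := hs
      rw [coeff_rename_mapDomain _ hinj]
      have h1 := abs_coeff_le (m ^ K) hG0 (hcard.trans (Nat.le_succ _)) u
      have h2 : Real.exp (mm G) ≤ Real.exp T := by rw [hGm]; exact Real.exp_le_exp.mpr hT
      have h3 : |((G.coeff u : ℤ) : ℝ)| ≤ (B : ℝ) := by
        refine h1.trans ((mul_le_mul_of_nonneg_left h2 (by positivity)).trans ?_)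
        rw [hB]
        exact Nat.le_ceil _
      have h4 : |G.coeff u| ≤ (B : ℤ) := by exact_mod_cast h3
      push_cast
      have : (0 : ℤ) ≤ (K : ℤ) + (m : ℤ) ^ K := by positivity
      linarith
    · have : coeff s (rename (Fin.castLE (by omega : K ≤ K + m ^ K + B)) G) = 0 := by
        refine coeff_rename_eq_zero _ _ _ fun u hu => ?_
        exact absurd ⟨u, hu⟩ hs
      rw [this, abs_zero]
      positivity
  · rw [mm_rename _ hinj, hGm]

end Pool.Agent.SpCl
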