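import Pool.Agent.SpCl.Defs

/-!
# Module A08Lat: quotients of `ℤ^ι` by saturated subgroups
-/

namespace Pool.Agent.SpCl

/-- PROOF. The quotient `(ι → ℤ) ⧸ Γ` is a finitely generated torsion free `ℤ`-module (torsion free by `hsat`), so it
is free (`Module.free_of_finite_type_torsion_free'`), with a finite basis `b : Module.Basis (Fin k) ℤ _`
(`Module.finBasis`). `φ = b.equivFun ∘ Γ.mkQ`. -/
theorem exists_quot {ι : Type} [Fintype ι] (Γ : Submodule ℤ (ι → ℤ))
    (hsat : ∀ (m : ℤ) (n : ι → ℤ), m ≠ 0 → m • n ∈ Γ → n ∈ Γ) :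
    ∃ (k : ℕ) (φ : (ι → ℤ) →ₗ[ℤ] (Fin k → ℤ)), Function.Surjective φ ∧ LinearMap.ker φ = Γ := by
  have htf : Module.IsTorsionFree ℤ ((ι → ℤ) ⧸ Γ) := by
    refine ⟨fun r hr => ?_⟩
    have hr0 : r ≠ 0 := hr.ne_zero
    intro x y hxy
    obtain ⟨a, rfl⟩ := Submodule.mkQ_surjective Γ x
    obtain ⟨b, rfl⟩ := Submodule.mkQ_surjective Γ y
    have h1 : r • (a - b) ∈ Γ := by
      have h2 : Γ.mkQ (r • (a - b)) = 0 := by
        rw [map_smul, map_sub, smul_sub]
        exact sub_eq_zero.2 hxy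
      rwa [Submodule.mkQ_apply, Submodule.Quotient.mk_eq_zero] at h2
    have h3 := hsat r (a - b) hr0 h1
    rw [Submodule.mkQ_apply, Submodule.mkQ_apply]
    exact (Submodule.Quotient.eq Γ).2 h3
  have hfree : Module.Free ℤ ((ι → ℤ) ⧸ Γ) := Module.free_of_finite_type_torsion_free'
  let b := Module.finBasis ℤ ((ι → ℤ) ⧸ Γ)
  refine ⟨_, b.equivFun.toLinearMap ∘ₗ Γ.mkQ, ?_, ?_⟩
  · exact b.equivFun.surjective.comp (Submodule.mkQ_surjective Γ)
  · rw [LinearEquiv.ker_comp, Submodule.ker_mkQ]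

/-- a functional killing `Γ = ker φ` factors through `φ`.

PROOF. `LinearMap.exists_extend`-like or: `(LinearMap.quotKerEquivOfSurjective φ hφ).symm` composed with
`(LinearMap.ker φ).liftQ f h`; `β l = g (Pi.single l 1)`, and `g x = ∑ l, x l * g (Pi.single l 1)`. -/
theorem exists_factor {ι : Type} [Fintype ι] [DecidableEq ι] {k : ℕ}
    (φ : (ι → ℤ) →ₗ[ℤ] (Fin k → ℤ)) (hφ : Function.Surjective φ) (f : ι → ℤ)
    (h : ∀ n : ι → ℤ, φ n = 0 → ∑ i, n i * f i = 0) :
    ∃ β : Fin k → ℤ, ∀ i, f i = ∑ l, β l * φ (Pi.single i 1) l := by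
  choose u hu using fun l : Fin k => hφ (Pi.single l 1)
  refine ⟨fun l => ∑ j, u l j * f j, fun i => ?_⟩
  have h1 : φ (∑ l, φ (Pi.single i 1) l • u l - Pi.single i 1) = 0 := by
    rw [map_sub, map_sum]
    simp only [map_smul, hu]
    rw [sub_eq_zero]
    ext j
    simp [Finset.sum_apply, Pi.single_apply]
  have h2 := h _ h1
  have h3 : ∑ j, (∑ l, φ (Pi.single i 1) l • u l - Pi.single i 1 : ι → ℤ) j * f j
      = ∑ l, (∑ j, u l j * f j) * φ (Pi.single i 1) l - f i := by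
    simp only [Pi.sub_apply, Finset.sum_apply, Pi.smul_apply, smul_eq_mul, sub_mul,
      Finset.sum_sub_distrib]
    congr 1
    · simp only [Finset.sum_mul]
      rw [Finset.sum_comm]
      refine Finset.sum_congr rfl fun l _ => Finset.sum_congr rfl fun j _ => ?_
      ring
    · simp [Pi.single_apply]
  show f i = ∑ l, (∑ j, u l j * f j) * φ (Pi.single i 1) l
  linarith

end Pool.Agent.SpCl
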