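import Pool.Agent.SpCl.Defs

/-!
# Module A01Circ: an integral on the circle
-/

open MeasureTheory Pool.Agent.H27Mahler
open scoped ENNReal

namespace Pool.Agent.SpCl

namespace A01CircAux

/-- the chord is at least the distance to the nearest end point -/
theorem chord {x : ℝ} (h0 : 0 < x) (h1 : x < 1) :
    min x (1 - x) ≤ ‖(AddCircle.toCircle (x : UnitAddCircle) : ℂ) - 1‖ := by
  have e1 : (AddCircle.toCircle (x : UnitAddCircle) : ℂ) =
      Complex.exp (Complex.I * ((2 * Real.pi * x : ℝ) : ℂ)) := by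
    rw [AddCircle.toCircle_apply_mk, Circle.coe_exp, mul_comm]
    norm_num
  rw [e1, Complex.norm_exp_I_mul_ofReal_sub_one]
  have e2 : 2 * Real.pi * x / 2 = Real.pi * x := by ring
  rw [e2, Real.norm_eq_abs]
  have hpi := Real.pi_pos
  have key : min x (1 - x) ≤ 2 * Real.sin (Real.pi * x) := by
    rcases le_total x (1 / 2) with h | h
    · have := Real.mul_le_sin (x := Real.pi * x) (by positivity) (by nlinarith)
      have e3 : 2 / Real.pi * (Real.pi * x) = 2 * x := by field_simp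
      rw [e3] at this
      refine le_trans (min_le_left _ _) (by linarith)
    · have := Real.mul_le_sin (x := Real.pi * (1 - x)) (by nlinarith) (by nlinarith)
      have e3 : 2 / Real.pi * (Real.pi * (1 - x)) = 2 * (1 - x) := by field_simp
      rw [e3] at this
      have e4 : Real.sin (Real.pi * (1 - x)) = Real.sin (Real.pi * x) := by
        have : Real.pi * (1 - x) = Real.pi - Real.pi * x := by ring
        rw [this, Real.sin_pi_sub]
      rw [e4] at this
      refine le_trans (min_le_right _ _) (by linarith)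
  exact le_trans key (le_abs_self _)

theorem bound {x : ℝ} (h0 : 0 < x) (h1 : x < 1) :
    (ENNReal.ofReal ‖(AddCircle.toCircle (x : UnitAddCircle) : ℂ) - 1‖) ^ (-(1 / 2 : ℝ)) ≤
      ENNReal.ofReal (x ^ (-(1 / 2 : ℝ)) + (1 - x) ^ (-(1 / 2 : ℝ))) := by
  have hm : 0 < min x (1 - x) := lt_min h0 (by linarith)
  have hc := chord h0 h1
  rw [ENNReal.ofReal_rpow_of_pos (lt_of_lt_of_le hm hc)]
  apply ENNReal.ofReal_le_ofReal
  refine le_trans (Real.rpow_le_rpow_of_nonpos hm hc (by norm_num)) ?_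
  have hx : 0 ≤ x ^ (-(1 / 2 : ℝ)) := Real.rpow_nonneg h0.le _
  have hx' : 0 ≤ (1 - x) ^ (-(1 / 2 : ℝ)) := Real.rpow_nonneg (by linarith) _
  rcases min_choice x (1 - x) with h | h <;> rw [h] <;> linarith

theorem integrable : IntegrableOn (fun x : ℝ => x ^ (-(1 / 2 : ℝ)) + (1 - x) ^ (-(1 / 2 : ℝ)))
    (Set.Ioc 0 1) := by
  have h1 : IntervalIntegrable (fun x : ℝ => x ^ (-(1 / 2 : ℝ))) volume 0 1 :=
    intervalIntegral.intervalIntegrable_rpow' (by norm_num)
  have h2 : IntervalIntegrable (fun x : ℝ => (1 - x) ^ (-(1 / 2 : ℝ))) volume 0 1 := by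
    have := h1.comp_sub_left 1
    simp only [sub_zero, sub_self] at this
    exact this.symm
  have h3 := h1.add h2
  rw [intervalIntegrable_iff_integrableOn_Ioc_of_le (by norm_num)] at h3
  exact h3

end A01CircAux

open A01CircAux in
/-- `∫ |e(x) - 1|^{-1/2} dx` is finite.

PROOF. `UnitAddCircle.lintegral_preimage` (or `AddCircle.lintegral_preimage`, period `1`): the integral is
`∫⁻ x in Set.Ioc 0 1, (ENNReal.ofReal ‖e(x) - 1‖)^(-1/2)`, `‖exp(2πix) - 1‖ = 2 |sin (π x)|`
(`Complex.norm_exp_I_mul_ofReal_sub_one` or similar). For `0 < x < 1`: `2 |sin (π x)| ≥ 4 * min x (1-x)`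
(`Real.mul_le_sin : 0 ≤ x → x ≤ π/2 → 2/π * x ≤ sin x`, and `sin (π x) = sin (π (1-x))`), so the integrand is at
most `ofReal ((4x)^(-1/2) + (4(1-x))^(-1/2))`, which is integrable on `(0,1)`
(`intervalIntegral.intervalIntegrable_rpow'` and the reflection `x ↦ 1 - x`); the point `x = 1` is a null set. -/
theorem lintegral_circle_lt_top : ∫⁻ x : UnitAddCircle,
    (ENNReal.ofReal ‖(AddCircle.toCircle x : ℂ) - 1‖) ^ (-(1 / 2 : ℝ)) < ⊤ := by
  rw [← UnitAddCircle.lintegral_preimage 0]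
  have e0 : Set.Ioc (0 : ℝ) (0 + 1) =ᵐ[volume] Set.Ioo (0 : ℝ) 1 := by
    rw [zero_add]; exact Ioo_ae_eq_Ioc.symm
  rw [setLIntegral_congr e0]
  refine lt_of_le_of_lt (setLIntegral_mono' measurableSet_Ioo
    (g := fun x : ℝ => ENNReal.ofReal (x ^ (-(1 / 2 : ℝ)) + (1 - x) ^ (-(1 / 2 : ℝ))))
    (fun x hx => bound hx.1 hx.2)) ?_
  rw [setLIntegral_congr Ioo_ae_eq_Ioc]
  exact integrable.lintegral_lt_top

end Pool.Agent.SpCl
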