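import Pool.Agent.SpCl.A01Circ

/-!
# Module A02Diff: negative moments of the difference of two monomials
-/

open MeasureTheory Pool.Agent.H27Mahler
open scoped ENNReal

namespace Pool.Agent.SpCl

namespace A02DiffAux

/-- the character `t ↦ ∑ i, (s i - s' i) • t i` -/
def chi {σ : Type*} [Fintype σ] (s s' : σ →₀ ℕ) : Tor σ →+ UnitAddCircle where
  toFun t := ∑ i, ((s i : ℤ) - (s' i : ℤ)) • t i
  map_zero' := by simp
  map_add' t u := by
    simp only [Pi.add_apply, smul_add, Finset.sum_add_distrib]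

theorem chi_apply {σ : Type*} [Fintype σ] (s s' : σ →₀ ℕ) (t : Tor σ) :
    chi s s' t = ∑ i, ((s i : ℤ) - (s' i : ℤ)) • t i := rfl

theorem continuous_chi {σ : Type*} [Fintype σ] (s s' : σ →₀ ℕ) : Continuous (chi s s') := by
  show Continuous fun t : Tor σ => ∑ i, ((s i : ℤ) - (s' i : ℤ)) • t i
  fun_prop

theorem chi_surjective {σ : Type*} [Fintype σ] {s s' : σ →₀ ℕ} (h : s ≠ s') :
    Function.Surjective (chi s s') := by
  classical
  intro x
  obtain ⟨i, hi⟩ : ∃ i, s i ≠ s' i := by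
    by_contra hcon
    push Not at hcon
    exact h (Finsupp.ext hcon)
  obtain ⟨r, hr⟩ := exists_zsmul_eq ((s i : ℤ) - (s' i : ℤ))
    (sub_ne_zero.mpr (by exact_mod_cast hi)) x
  refine ⟨Pi.single i r, ?_⟩
  rw [chi_apply, Finset.sum_eq_single i]
  · simpa using hr
  · intro j _ hj
    simp [Pi.single_apply, hj]
  · intro hcon
    exact absurd (Finset.mem_univ i) hcon

theorem mon_eq {σ : Type*} [Fintype σ] (s s' : σ →₀ ℕ) (t : Tor σ) :
    mon t s = mon t s' * (AddCircle.toCircle (chi s s' t) : ℂ) := by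
  classical
  have h1 : ∀ u : Finset σ, (∏ i ∈ u, (AddCircle.toCircle (t i) : ℂ) ^ (s i)) =
      (∏ i ∈ u, (AddCircle.toCircle (t i) : ℂ) ^ (s' i)) *
        (AddCircle.toCircle (∑ i ∈ u, ((s i : ℤ) - (s' i : ℤ)) • t i) : ℂ) := by
    intro u
    induction u using Finset.induction_on with
    | empty => simp
    | insert a u ha ih =>
      rw [Finset.prod_insert ha, Finset.prod_insert ha, Finset.sum_insert ha, ih,
        AddCircle.toCircle_add, Circle.coe_mul, AddCircle.toCircle_zsmul, Circle.coe_zpow,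
        zpow_sub₀ (Circle.coe_ne_zero _), zpow_natCast, zpow_natCast]
      have h0 : (AddCircle.toCircle (t a) : ℂ) ^ (s' a) ≠ 0 := pow_ne_zero _ (Circle.coe_ne_zero _)
      field_simp
  exact h1 Finset.univ

theorem norm_sub_eq {σ : Type*} [Fintype σ] (s s' : σ →₀ ℕ) (t : Tor σ) :
    ‖mon t s - mon t s'‖ = ‖(AddCircle.toCircle (chi s s' t) : ℂ) - 1‖ := by
  rw [mon_eq s s' t]
  have h2 : mon t s' * (AddCircle.toCircle (chi s s' t) : ℂ) - mon t s' =
      mon t s' * ((AddCircle.toCircle (chi s s' t) : ℂ) - 1) := by ring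
  rw [h2, norm_mul, norm_mon, one_mul]

theorem rpow_le (a : ℝ≥0∞) (β : ℝ) (h0 : 0 < β) (h1 : β ≤ 1 / 2) :
    a ^ (-β) ≤ 1 + a ^ (-(1 / 2 : ℝ)) := by
  rcases le_total 1 a with h | h
  · refine le_trans ?_ (le_add_right le_rfl)
    have := ENNReal.rpow_le_rpow_of_exponent_le h (show -β ≤ 0 by linarith)
    simpa using this
  · refine le_trans ?_ (le_add_left le_rfl)
    exact ENNReal.rpow_le_rpow_of_exponent_ge h (by linarith)

theorem lintegral_eq {σ : Type*} [Fintype σ] {s s' : σ →₀ ℕ} (h : s ≠ s') (β : ℝ) :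
    ∫⁻ t : Tor σ, (ENNReal.ofReal ‖mon t s - mon t s'‖) ^ (-β) =
      ∫⁻ x : UnitAddCircle, (ENNReal.ofReal ‖(AddCircle.toCircle x : ℂ) - 1‖) ^ (-β) := by
  have hmp : MeasurePreserving (chi s s') (volume : Measure (Tor σ))
      (volume : Measure UnitAddCircle) :=
    (chi s s').measurePreserving (continuous_chi s s') (chi_surjective h) (by simp)
  have hc := AddCircle.continuous_toCircle (T := (1:ℝ))
  have hm : Measurable fun x : UnitAddCircle =>
      (ENNReal.ofReal ‖(AddCircle.toCircle x : ℂ) - 1‖) ^ (-β) := by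
    have h3 : Measurable fun x : UnitAddCircle => ‖(AddCircle.toCircle x : ℂ) - 1‖ :=
      (by fun_prop : Continuous fun x : UnitAddCircle =>
        ‖(AddCircle.toCircle x : ℂ) - 1‖).measurable
    exact h3.ennreal_ofReal.pow_const _
  rw [← hmp.lintegral_comp hm]
  refine lintegral_congr fun t => ?_
  rw [norm_sub_eq]

end A02DiffAux

open A02DiffAux in
/-- There is a finite constant `J` with `∫ |z^s - z^{s'}|^{-β} ≤ J` for all tori, all `s ≠ s'` and all
`0 < β ≤ 1/2`.

PROOF. `J = 1 + (integral of A01)`. `mon t s = e(∑ s i • t i)` where `e = AddCircle.toCircle`, so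
`‖mon t s - mon t s'‖ = ‖e(f t) - 1‖` with the homomorphism `f t = ∑ i, ((s i : ℤ) - s' i) • t i` from `Tor σ` to
`UnitAddCircle` (divide by the unimodular number `mon t s'`). `f` is continuous and surjective (some coefficient
`n = s i - s' i ≠ 0`; `exists_zsmul_eq` of H27Mahler.Elim gives `n • r = x`, take `t = Pi.single i r`), so it preserves
the Haar measures: `f.measurePreserving hc hs (by simp)` as in H27Mahler.Torus `measurePreserving_of_surjective`.
Hence the integral is `∫⁻ x, (ofReal ‖e x - 1‖)^(-β)` over the circle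
(`MeasurePreserving.lintegral_comp`). Pointwise `a^(-β) ≤ 1 + a^(-1/2)` in `ℝ≥0∞` for `0 < β ≤ 1/2`: if `1 ≤ a` then
`a^(-β) ≤ 1`, if `a ≤ 1` then `a^(-β) ≤ a^(-1/2)` (`ENNReal.rpow_le_rpow_of_exponent_ge`). The measure of the circle
is `1`. -/
theorem exists_J : ∃ J : ℝ≥0∞, J ≠ ⊤ ∧ ∀ (σ : Type) [Fintype σ] (s s' : σ →₀ ℕ), s ≠ s' →
    ∀ β : ℝ, 0 < β → β ≤ 1 / 2 →
      ∫⁻ t : Tor σ, (ENNReal.ofReal ‖mon t s - mon t s'‖) ^ (-β) ≤ J := by
  refine ⟨1 + ∫⁻ x : UnitAddCircle,
    (ENNReal.ofReal ‖(AddCircle.toCircle x : ℂ) - 1‖) ^ (-(1 / 2 : ℝ)), ?_, ?_⟩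
  · exact ENNReal.add_ne_top.mpr ⟨ENNReal.one_ne_top, lintegral_circle_lt_top.ne⟩
  · intro σ _ s s' h β h0 h1
    rw [lintegral_eq h β]
    refine (lintegral_mono fun x => rpow_le _ β h0 h1).trans ?_
    rw [lintegral_add_left measurable_const, lintegral_const, measure_univ, one_mul]

end Pool.Agent.SpCl
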