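import Pool.Agent.SpCl.A02Diff

/-!
# Module A03Small: small values of sums of few monomials on a torus
-/

open MeasureTheory Pool.Agent.H27Mahler
open scoped ENNReal

namespace Pool.Agent.SpCl

/-- one step of the induction: `E = {‖f‖ ≤ y}`.

PROOF. `S`, `c`, `s0` as in `small_value`, `s1 ∈ S`, `s1 ≠ s0`, `f t = ∑ s ∈ S, c s * mon t s`,
`E = {t | ‖f t‖ ≤ y}` (closed, `continuous_mon`). For all `t, τ`:
`f (t + τ) - mon τ s1 * f t = ∑ s ∈ S.erase s1, c s * (mon τ s - mon τ s1) * mon t s` (`mon_add_pt`).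
Let `d τ = ‖mon τ s0 - mon τ s1‖`. If `d τ > 0` apply `h` to `S.erase s1`,
`c' s = c s * (mon τ s - mon τ s1) / d τ` (so `‖c' s0‖ = ‖c s0‖ ≥ 1`) and `y' = 2 y / d τ`: for `t ∈ E` with
`t + τ ∈ E` the new sum has norm at most `2 y / d τ`. Hence
`volume {t | t ∈ E ∧ t + τ ∈ E} ≤ ofReal (K * (2*y)^β) * (ofReal (d τ))^(-β)`, which is trivially true if `d τ = 0`
(the right side is `⊤`; `K * (2*y)^β > 0`). Integrate over `τ`: the left side becomes (Tonelli
`lintegral_lintegral_swap`, translation invariance `lintegral_add_left_eq_self`)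
`∫⁻ t, 1_E t * volume E = (volume E)^2`; the right side is `≤ ofReal (K * (2*y)^β) * J`. -/
theorem small_step {σ : Type} [Fintype σ] {J : ℝ≥0∞} {K β y : ℝ} (hK : 0 < K) (hβ : 0 < β)
    (hβ2 : β ≤ 1 / 2) (hy : 0 < y) (S : Finset (σ →₀ ℕ)) (c : (σ →₀ ℕ) → ℂ) (s0 s1 : σ →₀ ℕ)
    (hs0 : s0 ∈ S) (hs1 : s1 ∈ S) (hne : s1 ≠ s0) (hc : 1 ≤ ‖c s0‖)
    (hJ : ∫⁻ t : Tor σ, (ENNReal.ofReal ‖mon t s0 - mon t s1‖) ^ (-β) ≤ J)
    (h : ∀ (S' : Finset (σ →₀ ℕ)) (c' : (σ →₀ ℕ) → ℂ), S'.card + 1 ≤ S.card → s0 ∈ S' →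
      1 ≤ ‖c' s0‖ → ∀ y' : ℝ, 0 < y' →
      volume {t : Tor σ | ‖∑ s ∈ S', c' s * mon t s‖ ≤ y'} ≤ ENNReal.ofReal (K * y' ^ β)) :
    (volume {t : Tor σ | ‖∑ s ∈ S, c s * mon t s‖ ≤ y}) ^ 2 ≤
      ENNReal.ofReal (K * (2 * y) ^ β) * J := by
  set f : Tor σ → ℂ := fun t => ∑ s ∈ S, c s * mon t s with hf
  have hfc : Continuous f := by
    refine continuous_finsetSum _ fun s _ => ?_
    exact continuous_const.mul (continuous_mon s)
  set E : Set (Tor σ) := {t | ‖f t‖ ≤ y} with hE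
  have hEm : MeasurableSet E := (isClosed_le hfc.norm continuous_const).measurableSet
  have hcst : 0 < K * (2 * y) ^ β := mul_pos hK (Real.rpow_pos_of_pos (by linarith) _)
  have hdiff : ∀ t τ : Tor σ, f (t + τ) - mon τ s1 * f t
      = ∑ s ∈ S.erase s1, c s * (mon τ s - mon τ s1) * mon t s := by
    intro t τ
    simp only [hf]
    rw [Finset.mul_sum, ← Finset.sum_sub_distrib, ← Finset.add_sum_erase S _ hs1, mon_add_pt]
    have h0 : c s1 * (mon t s1 * mon τ s1) - mon τ s1 * (c s1 * mon t s1) = 0 := by ring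
    rw [h0, zero_add]
    refine Finset.sum_congr rfl fun s _ => ?_
    rw [mon_add_pt]
    ring
  have hpt : ∀ τ : Tor σ, volume {t : Tor σ | t ∈ E ∧ t + τ ∈ E} ≤
      ENNReal.ofReal (K * (2 * y) ^ β) * (ENNReal.ofReal ‖mon τ s0 - mon τ s1‖) ^ (-β) := by
    intro τ
    rcases (norm_nonneg (mon τ s0 - mon τ s1)).eq_or_lt with hd | hd
    · rw [← hd, ENNReal.ofReal_zero, ENNReal.zero_rpow_of_neg (by linarith), ENNReal.mul_top]
      · exact le_top
      · exact (ENNReal.ofReal_pos.2 hcst).ne'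
    · set d : ℝ := ‖mon τ s0 - mon τ s1‖ with hdd
      have hcard : (S.erase s1).card + 1 ≤ S.card := (Finset.card_erase_add_one hs1).le
      have h1 := h (S.erase s1) (fun s => c s * (mon τ s - mon τ s1) / (d : ℂ)) hcard
        (Finset.mem_erase.2 ⟨hne.symm, hs0⟩) (by
          rw [norm_div, norm_mul, Complex.norm_real, Real.norm_of_nonneg hd.le, ← hdd,
            mul_div_assoc, div_self hd.ne', mul_one]
          exact hc) (2 * y / d) (by positivity)
      refine (measure_mono ?_).trans (h1.trans (le_of_eq ?_))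
      · rintro t ⟨ht1, ht2⟩
        have h2 : ∑ s ∈ S.erase s1, c s * (mon τ s - mon τ s1) / (d : ℂ) * mon t s
            = (f (t + τ) - mon τ s1 * f t) / (d : ℂ) := by
          rw [hdiff, Finset.sum_div]
          exact Finset.sum_congr rfl fun s _ => by ring
        show ‖∑ s ∈ S.erase s1, c s * (mon τ s - mon τ s1) / (d : ℂ) * mon t s‖ ≤ 2 * y / d
        rw [h2, norm_div, Complex.norm_real, Real.norm_of_nonneg hd.le]
        refine div_le_div_of_nonneg_right ?_ hd.le
        have h3 : ‖f t‖ ≤ y := ht1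
        have h4 : ‖f (t + τ)‖ ≤ y := ht2
        calc ‖f (t + τ) - mon τ s1 * f t‖ ≤ ‖f (t + τ)‖ + ‖mon τ s1 * f t‖ := norm_sub_le _ _
          _ = ‖f (t + τ)‖ + ‖f t‖ := by rw [norm_mul, norm_mon, one_mul]
          _ ≤ 2 * y := by linarith
      · rw [ENNReal.ofReal_rpow_of_pos hd, ← ENNReal.ofReal_mul hcst.le]
        congr 1
        rw [Real.div_rpow (by linarith) hd.le, Real.rpow_neg hd.le]
        ring
  have hind : ∀ τ : Tor σ, volume {t : Tor σ | t ∈ E ∧ t + τ ∈ E}
      = ∫⁻ t : Tor σ, E.indicator 1 t * E.indicator 1 (t + τ) := by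
    intro τ
    have hm : MeasurableSet {t : Tor σ | t ∈ E ∧ t + τ ∈ E} :=
      hEm.inter ((measurable_id.add_const τ) hEm)
    rw [← lintegral_indicator_one hm]
    refine lintegral_congr fun t => ?_
    by_cases h1 : t ∈ E <;> by_cases h2 : t + τ ∈ E <;> simp [Set.indicator, h1, h2]
  have hswap : ∫⁻ τ : Tor σ, volume {t : Tor σ | t ∈ E ∧ t + τ ∈ E} = volume E ^ 2 := by
    simp_rw [hind]
    rw [lintegral_lintegral_swap]
    · have h1 : ∀ t : Tor σ, ∫⁻ τ : Tor σ, E.indicator 1 t * E.indicator 1 (t + τ)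
          = E.indicator 1 t * volume E := by
        intro t
        rw [lintegral_const_mul' _ _ (by
          by_cases ht : t ∈ E <;> simp [Set.indicator, ht])]
        congr 1
        rw [lintegral_add_left_eq_self (μ := (volume : Measure (Tor σ)))
          (fun τ => E.indicator (1 : Tor σ → ℝ≥0∞) τ) t, lintegral_indicator_one hEm]
      simp_rw [h1]
      rw [lintegral_mul_const _ (measurable_one.indicator hEm), lintegral_indicator_one hEm, sq]
    · refine Measurable.aemeasurable ?_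
      have h2 : Measurable fun p : Tor σ × Tor σ => p.2 + p.1 := by fun_prop
      exact ((measurable_one.indicator hEm).comp measurable_snd).mul
        ((measurable_one.indicator hEm).comp h2)
  rw [← hswap]
  refine (lintegral_mono hpt).trans ?_
  rw [lintegral_const_mul' _ _ ENNReal.ofReal_ne_top]
  exact mul_le_mul_right hJ _

/-- SMALL VALUE ESTIMATE, uniform in the torus, the exponents and the other coefficients.

PROOF. Induction on `N`. `N = 0` is vacuous (`s0 ∈ S`). Step `N → N + 1`: if `S = {s0}` then `‖f t‖ = ‖c s0‖ ≥ 1`,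
so the set is empty if `y < 1`, and for `y ≥ 1` the measure is at most `1 ≤ K * y^β` if `K ≥ 1`. Otherwise take
`s1 ∈ S`, `s1 ≠ s0`, and use `small_step` with the constants `K`, `β` of `N` and `J` of `exists_J`:
`volume E ≤ sqrt(K * (2y)^β * J) = K' * y^(β/2)`, `K' = sqrt (K * 2^β * J.toReal)`. Take the new constants
`max 1 K'`... with `β/2` (for sets with one element `K ≥ 1` suffices; make `K ≥ 1` part of the induction or take
`max`). From `a^2 ≤ b` in `ℝ≥0∞` deduce `a ≤ b^(1/2)`. -/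
theorem small_value (N : ℕ) : ∃ K β : ℝ, 0 < K ∧ 0 < β ∧ β ≤ 1 / 2 ∧
    ∀ (σ : Type) [Fintype σ] (S : Finset (σ →₀ ℕ)) (c : (σ →₀ ℕ) → ℂ) (s0 : σ →₀ ℕ),
      S.card ≤ N → s0 ∈ S → 1 ≤ ‖c s0‖ → ∀ y : ℝ, 0 < y →
      volume {t : Tor σ | ‖∑ s ∈ S, c s * mon t s‖ ≤ y} ≤ ENNReal.ofReal (K * y ^ β) := by
  have main : ∀ N : ℕ, ∃ K β : ℝ, 1 ≤ K ∧ 0 < β ∧ β ≤ 1 / 2 ∧
      ∀ (σ : Type) [Fintype σ] (S : Finset (σ →₀ ℕ)) (c : (σ →₀ ℕ) → ℂ) (s0 : σ →₀ ℕ),
        S.card ≤ N → s0 ∈ S → 1 ≤ ‖c s0‖ → ∀ y : ℝ, 0 < y →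
        volume {t : Tor σ | ‖∑ s ∈ S, c s * mon t s‖ ≤ y} ≤ ENNReal.ofReal (K * y ^ β) := by
    intro N
    induction N with
    | zero =>
      refine ⟨1, 1 / 2, le_rfl, by norm_num, le_rfl, ?_⟩
      intro σ _ S c s0 hS hs0
      have := Finset.card_pos.2 ⟨s0, hs0⟩
      omega
    | succ N ih =>
      obtain ⟨K, β, hK, hβ, hβ2, H⟩ := ih
      obtain ⟨J, hJt, hJ⟩ := exists_J
      set K' : ℝ := Real.sqrt (K * 2 ^ β * J.toReal) with hK'
      refine ⟨max 1 K', β / 2, le_max_left _ _, by linarith, by linarith, ?_⟩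
      intro σ _ S c s0 hS hs0 hc y hy
      by_cases hex : ∃ s1 ∈ S, s1 ≠ s0
      · obtain ⟨s1, hs1, hne⟩ := hex
        have h1 := small_step (y := y) (by linarith : 0 < K) hβ hβ2 hy S c s0 s1 hs0 hs1 hne hc
          (hJ σ s0 s1 hne.symm β hβ hβ2) (by
            intro S' c' hcard hs0' hc' y' hy'
            exact H σ S' c' s0 (by omega) hs0' hc' y' hy')
        set v := volume {t : Tor σ | ‖∑ s ∈ S, c s * mon t s‖ ≤ y} with hv
        have hvt : v ≠ ⊤ := measure_ne_top _ _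
        have hJr : J = ENNReal.ofReal J.toReal := (ENNReal.ofReal_toReal hJt).symm
        have hvr : v = ENNReal.ofReal v.toReal := (ENNReal.ofReal_toReal hvt).symm
        have hK0 : 0 ≤ K * (2 * y) ^ β := by positivity
        rw [hvr, hJr, ← ENNReal.ofReal_mul hK0, ← ENNReal.ofReal_pow ENNReal.toReal_nonneg,
          ENNReal.ofReal_le_ofReal_iff (mul_nonneg hK0 ENNReal.toReal_nonneg)] at h1
        rw [hvr]
        refine ENNReal.ofReal_le_ofReal ?_
        have hy2 : 0 ≤ y ^ (β / 2) := Real.rpow_nonneg hy.le _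
        have h2 : v.toReal ≤ K' * y ^ (β / 2) := by
          refine le_of_sq_le_sq ?_ (mul_nonneg (Real.sqrt_nonneg _) hy2)
          refine h1.trans (le_of_eq ?_)
          rw [mul_pow, hK', Real.sq_sqrt (by positivity), ← Real.rpow_natCast (y ^ (β / 2)) 2,
            ← Real.rpow_mul hy.le, Real.mul_rpow (by norm_num) hy.le]
          have : β / 2 * ((2 : ℕ) : ℝ) = β := by
            push_cast
            ring
          rw [this]
          ring
        exact h2.trans (mul_le_mul_of_nonneg_right (le_max_right _ _) hy2)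
      · push Not at hex
        have hSs : S = {s0} := by
          ext s
          rw [Finset.mem_singleton]
          exact ⟨fun hs => hex s hs, fun hs => hs ▸ hs0⟩
        have hval : ∀ t : Tor σ, ‖∑ s ∈ S, c s * mon t s‖ = ‖c s0‖ := by
          intro t
          rw [hSs, Finset.sum_singleton, norm_mul, norm_mon, mul_one]
        rcases lt_or_ge y 1 with hy1 | hy1
        · have : {t : Tor σ | ‖∑ s ∈ S, c s * mon t s‖ ≤ y} = ∅ := by
            ext t
            simp only [Set.mem_ofPred_eq, Set.mem_empty_iff_false, iff_false, not_le]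
            rw [hval]
            linarith
          rw [this]
          simp
        · have h3 : (1 : ℝ) ≤ max 1 K' * y ^ (β / 2) :=
            one_le_mul_of_one_le_of_one_le (le_max_left _ _)
              (Real.one_le_rpow hy1 (by linarith))
          calc volume {t : Tor σ | ‖∑ s ∈ S, c s * mon t s‖ ≤ y} ≤ 1 := prob_le_one
            _ = ENNReal.ofReal 1 := ENNReal.ofReal_one.symm
            _ ≤ _ := ENNReal.ofReal_le_ofReal h3
  obtain ⟨K, β, h1, h2⟩ := main N
  exact ⟨K, β, by linarith, h2⟩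

end Pool.Agent.SpCl
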