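import Pool.Agent.SpCl.A03Small

/-!
# Module A04Tail: the logarithmic tail
-/

open MeasureTheory Pool.Agent.H27Mahler
open scoped ENNReal

namespace Pool.Agent.SpCl

namespace A04TailAux

theorem integrable_log_max {σ : Type} [Fintype σ] (F : MvPolynomial σ ℤ) {ε : ℝ} (hε : 0 < ε) :
    Integrable fun t : Tor σ => Real.log (max ε ‖ev t F‖) := by
  obtain ⟨C, hC1, hC⟩ := exists_bound_ev F
  have hm : Measurable fun t : Tor σ => Real.log (max ε ‖ev t F‖) :=
    Real.measurable_log.comp (measurable_const.max (continuous_ev F).norm.measurable)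
  refine Integrable.of_bound hm.aestronglyMeasurable (max |Real.log ε| |Real.log (max ε C)|)
    (Filter.Eventually.of_forall fun t => ?_)
  rw [Real.norm_eq_abs]
  have h1 : Real.log ε ≤ Real.log (max ε ‖ev t F‖) := Real.log_le_log hε (le_max_left _ _)
  have h2 : Real.log (max ε ‖ev t F‖) ≤ Real.log (max ε C) :=
    Real.log_le_log (lt_of_lt_of_le hε (le_max_left _ _)) (max_le_max le_rfl (hC t))
  rcases le_total 0 (Real.log (max ε ‖ev t F‖)) with h | h
  · rw [abs_of_nonneg h]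
    exact le_trans (le_trans h2 (le_abs_self _)) (le_max_right _ _)
  · rw [abs_of_nonpos h]
    refine le_trans ?_ (le_max_left _ _)
    have := neg_abs_le (Real.log ε)
    linarith

/-- the excess `max 0 (log ε - log ‖F‖)` -/
noncomputable def ph {σ : Type} [Fintype σ] (F : MvPolynomial σ ℤ) (ε : ℝ) (t : Tor σ) : ℝ :=
  max 0 (Real.log ε - Real.log ‖ev t F‖)

theorem ph_nonneg {σ : Type} [Fintype σ] (F : MvPolynomial σ ℤ) (ε : ℝ) (t : Tor σ) :
    0 ≤ ph F ε t := le_max_left _ _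

theorem ph_nonneg_ae {σ : Type} [Fintype σ] (F : MvPolynomial σ ℤ) (ε : ℝ) :
    0 ≤ᵐ[volume] ph F ε := Filter.Eventually.of_forall fun t => ph_nonneg F ε t

theorem measurable_ph {σ : Type} [Fintype σ] (F : MvPolynomial σ ℤ) (ε : ℝ) :
    Measurable (ph F ε) :=
  measurable_const.max (measurable_const.sub (measurable_log_ev F))

theorem log_max_eq {σ : Type} [Fintype σ] {F : MvPolynomial σ ℤ} {ε : ℝ} (hε : 0 < ε)
    {t : Tor σ} (ht : ev t F ≠ 0) :
    Real.log (max ε ‖ev t F‖) = Real.log ‖ev t F‖ + ph F ε t := by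
  have hp : 0 < ‖ev t F‖ := norm_pos_iff.mpr ht
  unfold ph
  rcases le_total ε ‖ev t F‖ with h | h
  · have := Real.log_le_log hε h
    rw [max_eq_right h, max_eq_left (by linarith), add_zero]
  · have := Real.log_le_log hp h
    rw [max_eq_left h, max_eq_right (by linarith)]
    ring

theorem of_lt_ph {σ : Type} [Fintype σ] {F : MvPolynomial σ ℤ} {ε l : ℝ} (hε : 0 < ε)
    (hl : 0 < l) {t : Tor σ} (ht : l < ph F ε t) : ‖ev t F‖ ≤ ε * Real.exp (-l) := by
  unfold ph at ht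
  have h1 : l < Real.log ε - Real.log ‖ev t F‖ := by
    rcases lt_max_iff.mp ht with h | h
    · linarith
    · exact h
  rcases eq_or_ne (ev t F) 0 with h0 | h0
  · rw [h0, norm_zero]
    positivity
  · have hp : 0 < ‖ev t F‖ := norm_pos_iff.mpr h0
    have h2 : Real.log ‖ev t F‖ ≤ Real.log ε + -l := by linarith
    calc ‖ev t F‖ = Real.exp (Real.log ‖ev t F‖) := (Real.exp_log hp).symm
      _ ≤ Real.exp (Real.log ε + -l) := Real.exp_le_exp.mpr h2
      _ = ε * Real.exp (-l) := by rw [Real.exp_add, Real.exp_log hε]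

theorem lintegral_tail {A β : ℝ} (hA : 0 ≤ A) (hβ : 0 < β) :
    ∫⁻ l in Set.Ioi (0 : ℝ), ENNReal.ofReal (A * Real.exp (-β * l)) = ENNReal.ofReal (A / β) := by
  have hi : IntegrableOn (fun x : ℝ => A * Real.exp (-β * x)) (Set.Ioi 0) :=
    (integrableOn_exp_mul_Ioi (by linarith) 0).const_mul A
  rw [← ofReal_integral_eq_lintegral_ofReal hi
    (Filter.Eventually.of_forall fun x => mul_nonneg hA (Real.exp_pos _).le)]
  congr 1
  rw [integral_const_mul, integral_exp_mul_Ioi (by linarith) 0]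
  simp only [mul_zero, Real.exp_zero]
  rw [neg_div_neg_eq]
  ring

end A04TailAux

/-- uniform integrability of `log |F|` near the zeros.

PROOF. `K₀, β` from `small_value N`; `F = ∑ s ∈ F.support, coeff s F * mon t s` (`ev_eq_sum`), some coefficient has
absolute value `≥ 1` (`one_le_abs_coeff`), so `volume {‖ev t F‖ ≤ y} ≤ ofReal (K₀ y^β)` for `y > 0`.
Let `φ t = max 0 (log ε - log ‖ev t F‖)`; a.e. (`ae_ev_ne_zero`) `log (max ε ‖ev t F‖) = log ‖ev t F‖ + φ t`.
Layer cake (`lintegral_eq_lintegral_meas_lt` or `_le`): `∫⁻ ofReal (φ t) = ∫⁻ λ in Ioi 0, volume {λ < φ}`, and for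
`λ > 0` a.e. `λ < φ t` implies `‖ev t F‖ ≤ ε e^{-λ}`, so the measure is `≤ ofReal (K₀ ε^β e^{-βλ})`; the integral is at
most `K₀ ε^β / β` (`integral_exp_neg_Ioi` scaled, or `integral_exp_mul_Ioi`). Then
`∫ log (max ε ‖ev t F‖) = mm F + ∫ φ ≤ mm F + (K₀/β) ε^β` (`integrable_log_ev`). `K = K₀/β`. -/
theorem log_tail (N : ℕ) : ∃ K β : ℝ, 0 < K ∧ 0 < β ∧
    ∀ (σ : Type) [Fintype σ] (F : MvPolynomial σ ℤ), F ≠ 0 → F.support.card ≤ N →
      ∀ ε : ℝ, 0 < ε → ∫ t : Tor σ, Real.log (max ε ‖ev t F‖) ≤ mm F + K * ε ^ β := by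
  obtain ⟨K₀, β, hK, hβ, -, hsv⟩ := small_value N
  refine ⟨K₀ / β, β, div_pos hK hβ, hβ, ?_⟩
  intro σ _ F hF hN ε hε
  obtain ⟨s0, hs0⟩ := MvPolynomial.support_nonempty.mpr hF
  have hc : 1 ≤ ‖((F.coeff s0 : ℤ) : ℂ)‖ := by
    rw [Complex.norm_intCast]
    exact one_le_abs_coeff hs0
  have hmeas : ∀ y : ℝ, 0 < y →
      volume {t : Tor σ | ‖ev t F‖ ≤ y} ≤ ENNReal.ofReal (K₀ * y ^ β) := by
    intro y hy
    have h := hsv σ F.support (fun s => ((F.coeff s : ℤ) : ℂ)) s0 hN hs0 hc y hy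
    simpa only [ev_eq_sum] using h
  have hA : 0 ≤ K₀ * ε ^ β := mul_nonneg hK.le (Real.rpow_nonneg hε.le _)
  have hl : ∫⁻ t : Tor σ, ENNReal.ofReal (A04TailAux.ph F ε t) ≤
      ENNReal.ofReal (K₀ * ε ^ β / β) := by
    rw [lintegral_eq_lintegral_meas_lt volume
      (A04TailAux.ph_nonneg_ae F ε)
      (A04TailAux.measurable_ph F ε).aemeasurable, ← A04TailAux.lintegral_tail hA hβ]
    refine setLIntegral_mono' measurableSet_Ioi fun l hl => ?_
    have hl' : 0 < l := hl
    refine le_trans (measure_mono fun t ht => A04TailAux.of_lt_ph hε hl' ht) ?_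
    refine le_trans (hmeas _ (mul_pos hε (Real.exp_pos _))) (le_of_eq ?_)
    congr 1
    rw [Real.mul_rpow hε.le (Real.exp_pos _).le, ← Real.exp_mul, mul_assoc]
    congr 3
    ring
  have hi : Integrable (A04TailAux.ph F ε) := by
    refine ⟨(A04TailAux.measurable_ph F ε).aestronglyMeasurable, ?_⟩
    rw [hasFiniteIntegral_iff_ofReal (A04TailAux.ph_nonneg_ae F ε)]
    exact lt_of_le_of_lt hl ENNReal.ofReal_lt_top
  have hph : ∫ t : Tor σ, A04TailAux.ph F ε t ≤ K₀ / β * ε ^ β := by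
    rw [integral_eq_lintegral_of_nonneg_ae
      (A04TailAux.ph_nonneg_ae F ε)
      (A04TailAux.measurable_ph F ε).aestronglyMeasurable]
    refine le_trans (ENNReal.toReal_mono ENNReal.ofReal_ne_top hl) ?_
    rw [ENNReal.toReal_ofReal (div_nonneg hA hβ.le)]
    exact le_of_eq (by ring)
  have he : ∫ t : Tor σ, Real.log (max ε ‖ev t F‖) =
      ∫ t : Tor σ, (Real.log ‖ev t F‖ + A04TailAux.ph F ε t) := by
    refine integral_congr_ae ?_
    filter_upwards [ae_ev_ne_zero hF] with t ht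
    exact A04TailAux.log_max_eq hε ht
  rw [he, integral_add (integrable_log_ev hF) hi]
  unfold mm
  linarith

/-- the easy direction -/
theorem mm_le_log_max {σ : Type} [Fintype σ] {F : MvPolynomial σ ℤ} (hF : F ≠ 0) {ε : ℝ}
    (hε : 0 < ε) : mm F ≤ ∫ t : Tor σ, Real.log (max ε ‖ev t F‖) := by
  unfold mm
  refine integral_mono_ae (integrable_log_ev hF) (A04TailAux.integrable_log_max F hε) ?_
  filter_upwards [ae_ev_ne_zero hF] with t ht
  exact Real.log_le_log (norm_pos_iff.mpr ht) (le_max_right _ _)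

end Pool.Agent.SpCl
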