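import Pool.Agent.SpCl.Defs

/-!
# Module A05Moment: moments of a sum of monomials
-/

open MeasureTheory Pool.Agent.H27Mahler

namespace Pool.Agent.SpCl

namespace A05MomentAux

theorem mon_single {σ : Type*} [Fintype σ] [DecidableEq σ] (i : σ) (r : UnitAddCircle)
    (s : σ →₀ ℕ) : mon (Pi.single i r) s = (AddCircle.toCircle r : ℂ) ^ (s i) := by
  rw [mon, Finset.prod_eq_single i]
  · rw [Pi.single_eq_same]
  · intro j _ hj
    rw [Pi.single_eq_of_ne hj, AddCircle.toCircle_zero]
    simp
  · intro h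
    exact absurd (Finset.mem_univ i) h

theorem mon_conj_self {σ : Type*} [Fintype σ] (t : Tor σ) (s : σ →₀ ℕ) :
    mon t s * (starRingEnd ℂ) (mon t s) = 1 := by
  rw [Complex.mul_conj, Complex.normSq_eq_norm_sq, norm_mon]
  norm_num

theorem exists_r {m n : ℕ} (h : m ≠ n) : ∃ r : UnitAddCircle,
    (AddCircle.toCircle r : ℂ) ^ m * (starRingEnd ℂ) ((AddCircle.toCircle r : ℂ) ^ n) ≠ 1 := by
  have hd : ((m : ℝ) - n) ≠ 0 := by
    intro h0
    apply h
    have : (m : ℝ) = n := by linarith
    exact_mod_cast this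
  refine ⟨((1 / (2 * ((m : ℝ) - n)) : ℝ) : UnitAddCircle), ?_⟩
  rw [AddCircle.toCircle_apply_mk, Circle.coe_exp, map_pow, ← Complex.exp_conj,
    ← Complex.exp_nat_mul, ← Complex.exp_nat_mul, ← Complex.exp_add]
  have e1 : ((m : ℕ) : ℂ) * (((2 * Real.pi / 1 * (1 / (2 * ((m : ℝ) - n))) : ℝ) : ℂ) * Complex.I) +
      ((n : ℕ) : ℂ) * (starRingEnd ℂ)
        (((2 * Real.pi / 1 * (1 / (2 * ((m : ℝ) - n))) : ℝ) : ℂ) * Complex.I) =
      Real.pi * Complex.I := by
    rw [map_mul, Complex.conj_ofReal, Complex.conj_I]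
    have hd' : ((m : ℂ) - n) ≠ 0 := by exact_mod_cast hd
    push_cast
    field_simp
    ring
  rw [e1, Complex.exp_pi_mul_I]
  norm_num

theorem cont_mm {σ : Type*} [Fintype σ] (s s' : σ →₀ ℕ) :
    Continuous fun t : Tor σ => mon t s * (starRingEnd ℂ) (mon t s') :=
  (continuous_mon s).mul (Complex.continuous_conj.comp (continuous_mon s'))

theorem int_of_cont {σ : Type*} [Fintype σ] {f : Tor σ → ℂ} (hf : Continuous f) :
    Integrable f :=
  hf.integrable_of_hasCompactSupport (HasCompactSupport.of_compactSpace _)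

end A05MomentAux

open A05MomentAux

/-- orthogonality of the monomials.

PROOF. If `s = s'` the integrand is `1` (`norm_mon`). Otherwise choose `i` with `s i ≠ s' i` and use invariance
under the translation by `Pi.single i r` where `e((s i - s' i) r) ≠ 1` (for example `r = 1/(2 (s i - s' i))`):
`I = e(..) I`, so `I = 0` (`integral_add_right_eq_self`). (Or product of one-dimensional integrals.) -/
theorem integral_mon {σ : Type*} [Fintype σ] (s s' : σ →₀ ℕ) :
    ∫ t : Tor σ, mon t s * (starRingEnd ℂ) (mon t s') = if s = s' then 1 else 0 := by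
  classical
  split_ifs with h
  · subst h
    simp only [mon_conj_self]
    simp
  · obtain ⟨i, hi⟩ : ∃ i, s i ≠ s' i := by
      by_contra hcon
      push Not at hcon
      exact h (Finsupp.ext hcon)
    obtain ⟨r, hr⟩ := exists_r hi
    set I := ∫ t : Tor σ, mon t s * (starRingEnd ℂ) (mon t s') with hI
    have h1 : ∫ t : Tor σ, mon (t + Pi.single i r) s *
        (starRingEnd ℂ) (mon (t + Pi.single i r) s') = I :=
      integral_add_right_eq_self (fun t : Tor σ => mon t s * (starRingEnd ℂ) (mon t s')) _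
    have h2 : ∀ t : Tor σ, mon (t + Pi.single i r) s *
        (starRingEnd ℂ) (mon (t + Pi.single i r) s') =
        ((AddCircle.toCircle r : ℂ) ^ (s i) * (starRingEnd ℂ) ((AddCircle.toCircle r : ℂ) ^ (s' i)))
          * (mon t s * (starRingEnd ℂ) (mon t s')) := by
      intro t
      rw [mon_add_pt, mon_add_pt, mon_single, mon_single, map_mul]
      ring
    simp only [h2] at h1
    rw [integral_const_mul] at h1
    have h3 : ((AddCircle.toCircle r : ℂ) ^ (s i) *
        (starRingEnd ℂ) ((AddCircle.toCircle r : ℂ) ^ (s' i)) - 1) * I = 0 := by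
      rw [sub_mul, one_mul, h1, sub_self]
    rcases mul_eq_zero.1 h3 with h4 | h4
    · exact absurd (sub_eq_zero.1 h4) hr
    · exact h4

/-- the moments only depend on the relations between the exponents.

PROOF. `(∑ i, x i)^j = ∑ u : Fin j → ι, ∏ r, x (u r)` (`Finset.prod_univ_sum` for the constant family and
`Fintype.piFinset_univ`), `‖z‖^2 = (z * conj z).re`; so
`(‖ev t (pl a s)‖^2)^j = ∑ u, ∑ v, (∏ a) (∏ a) mon t (∑ r, s (u r)) conj (mon t (∑ r, s (v r)))` as complex numbers
(`mon_sum`); integrate with `integral_mon` (finite sums of continuous functions on a compact space) and take the real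
part / use `Complex.ofReal_injective`. -/
theorem moment {σ ι : Type*} [Fintype σ] [Fintype ι] (a : ι → ℤ) (s : ι → (σ →₀ ℕ)) (j : ℕ) :
    ∫ t : Tor σ, (‖ev t (pl a s)‖ ^ 2) ^ j = ∑ u : Fin j → ι, ∑ v : Fin j → ι,
      (∏ r, (a (u r) : ℝ)) * (∏ r, (a (v r) : ℝ)) *
        (open Classical in if ∑ r, s (u r) = ∑ r, s (v r) then (1 : ℝ) else 0) := by
  classical
  apply Complex.ofReal_injective
  refine (integral_ofReal (𝕜 := ℂ) (f := fun t : Tor σ => (‖ev t (pl a s)‖ ^ 2) ^ j)).symm.trans ?_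
  have h1 : ∀ t : Tor σ, (((‖ev t (pl a s)‖ ^ 2) ^ j : ℝ) : ℂ) =
      ∑ u : Fin j → ι, ∑ v : Fin j → ι, ((∏ r, (a (u r) : ℂ)) * (∏ r, (a (v r) : ℂ))) *
        (mon t (∑ r, s (u r)) * (starRingEnd ℂ) (mon t (∑ r, s (v r)))) := by
    intro t
    have e1 : (((‖ev t (pl a s)‖ ^ 2) ^ j : ℝ) : ℂ) =
        (ev t (pl a s)) ^ j * (starRingEnd ℂ) ((ev t (pl a s)) ^ j) := by
      rw [map_pow, ← mul_pow, Complex.mul_conj, Complex.normSq_eq_norm_sq, Complex.ofReal_pow]
    have e2 : (ev t (pl a s)) ^ j =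
        ∑ u : Fin j → ι, (∏ r, (a (u r) : ℂ)) * mon t (∑ r, s (u r)) := by
      rw [ev_pl, Fintype.sum_pow]
      refine Finset.sum_congr rfl fun u _ => ?_
      rw [Finset.prod_mul_distrib, mon_sum]
    rw [e1, e2, map_sum, Finset.sum_mul_sum]
    refine Finset.sum_congr rfl fun u _ => Finset.sum_congr rfl fun v _ => ?_
    rw [map_mul, map_prod]
    simp only [map_intCast]
    ring
  have h2 : (∫ t : Tor σ, (((‖ev t (pl a s)‖ ^ 2) ^ j : ℝ) : ℂ)) =
      ∫ t : Tor σ, ∑ u : Fin j → ι, ∑ v : Fin j → ι,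
        ((∏ r, (a (u r) : ℂ)) * (∏ r, (a (v r) : ℂ))) *
        (mon t (∑ r, s (u r)) * (starRingEnd ℂ) (mon t (∑ r, s (v r)))) :=
    integral_congr_ae (Filter.Eventually.of_forall h1)
  refine h2.trans ?_
  rw [integral_finsetSum]
  · push_cast
    refine Finset.sum_congr rfl fun u _ => ?_
    rw [integral_finsetSum]
    · refine Finset.sum_congr rfl fun v _ => ?_
      rw [integral_const_mul, integral_mon]
      congr 1
      split_ifs <;> simp
    · intro v _
      exact int_of_cont (continuous_const.mul (cont_mm _ _))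
  · intro u _
    exact int_of_cont (continuous_finsetSum _ fun v _ => continuous_const.mul (cont_mm _ _))

end Pool.Agent.SpCl
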