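import Pool.Agent.SpCl.A08Lat

/-!
# Module A09Ultra: the limit exponents along an ultrafilter
-/

open Filter Topology MvPolynomial Pool.Agent.H27Mahler

namespace Pool.Agent.SpCl

namespace A09UltraAux

/-- the functional `n ↦ ∑ n i f i` -/
def L {ι : Type} [Fintype ι] (f : ι → ℤ) : (ι → ℤ) →ₗ[ℤ] ℤ where
  toFun n := ∑ i, n i * f i
  map_add' a b := by simp [add_mul, Finset.sum_add_distrib]
  map_smul' c a := by simp [Finset.mul_sum, mul_assoc]

theorem L_apply {ι : Type} [Fintype ι] (f n : ι → ℤ) : L f n = ∑ i, n i * f i := rfl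

theorem L_single {ι : Type} [Fintype ι] [DecidableEq ι] (f : ι → ℤ) (i : ι) :
    L f (Pi.single i 1) = f i := by
  rw [L_apply, Finset.sum_eq_single i]
  · simp
  · intro b _ hb
    simp [Pi.single_eq_of_ne hb]
  · intro h; exact absurd (Finset.mem_univ i) h

/-- the vectors which are eventually relations -/
def Gam (l : Ultrafilter ℕ) {ι : Type} [Fintype ι] (f : ℕ → ι → ℤ) : Submodule ℤ (ι → ℤ) where
  carrier := {n | ∀ᶠ α in (l : Filter ℕ), L (f α) n = 0}
  add_mem' := by
    intro a b ha hb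
    change ∀ᶠ α in (l : Filter ℕ), L (f α) (a + b) = 0
    have ha' : ∀ᶠ α in (l : Filter ℕ), L (f α) a = 0 := ha
    have hb' : ∀ᶠ α in (l : Filter ℕ), L (f α) b = 0 := hb
    filter_upwards [ha', hb'] with α h1 h2
    rw [map_add, h1, h2, add_zero]
  zero_mem' := by
    change ∀ᶠ α in (l : Filter ℕ), L (f α) 0 = 0
    exact Filter.Eventually.of_forall fun α => map_zero _
  smul_mem' := by
    intro c a ha
    change ∀ᶠ α in (l : Filter ℕ), L (f α) (c • a) = 0
    have ha' : ∀ᶠ α in (l : Filter ℕ), L (f α) a = 0 := ha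
    filter_upwards [ha'] with α h1
    rw [map_smul, h1, smul_zero]

theorem mem_Gam {l : Ultrafilter ℕ} {ι : Type} [Fintype ι] {f : ℕ → ι → ℤ} {n : ι → ℤ} :
    n ∈ Gam l f ↔ ∀ᶠ α in (l : Filter ℕ), L (f α) n = 0 := Iff.rfl

theorem Gam_sat (l : Ultrafilter ℕ) {ι : Type} [Fintype ι] (f : ℕ → ι → ℤ) (m : ℤ) (n : ι → ℤ)
    (hm : m ≠ 0) (h : m • n ∈ Gam l f) : n ∈ Gam l f := by
  rw [mem_Gam] at h ⊢
  filter_upwards [h] with α h1
  rw [map_smul, smul_eq_mul] at h1
  exact (mul_eq_zero.1 h1).resolve_left hm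

theorem Gam_ev (l : Ultrafilter ℕ) {ι : Type} [Fintype ι] (f : ℕ → ι → ℤ) :
    ∀ᶠ α in (l : Filter ℕ), ∀ n ∈ Gam l f, L (f α) n = 0 := by
  obtain ⟨S, hS⟩ := IsNoetherian.noetherian (Gam l f)
  have h1 : ∀ᶠ α in (l : Filter ℕ), ∀ n ∈ S, L (f α) n = 0 := by
    rw [Filter.eventually_all_finset]
    intro n hn
    have : n ∈ Gam l f := by
      rw [← hS]
      exact Submodule.subset_span hn
    exact this
  filter_upwards [h1] with α hα n hn
  rw [← hS] at hn
  have h2 : Submodule.span ℤ (S : Set (ι → ℤ)) ≤ LinearMap.ker (L (f α)) := by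
    rw [Submodule.span_le]
    intro n hn
    exact LinearMap.mem_ker.2 (hα n hn)
  exact LinearMap.mem_ker.1 (h2 hn)

end A09UltraAux

open A09UltraAux

/-- The limit exponents. For every variable `y : Fin K` the subgroup
`Γ_y = {n | ∀ᶠ α in l, ∑ i, n i * s α i y = 0}` of `ι → ℤ` is saturated; let `φ_y` be as in `exists_quot`
(`k y` new variables for the old variable `y`), and `s' i ⟨y, x⟩ = φ_y (e_i) x + M` where the natural number `M` is
so large that all these integers are nonnegative.

CLAIMS AND PROOFS.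
(rel) For `u v : Fin j → ι` put `n = ∑ r, e_{u r} - ∑ r, e_{v r}`. Then `∑ r, s' (u r) = ∑ r, s' (v r)` iff
`φ_y n = 0` for all `y` (the constant `M` cancels: both sums have `j` terms) iff `n ∈ Γ_y` for all `y` iff
`∀ᶠ α, ∀ y, ∑ r, s α (u r) y = ∑ r, s α (v r) y` (finitely many `y`) iff `∀ᶠ α, ∑ r, s α (u r) = ∑ r, s α (v r)`.
If this holds, the two relations are both true eventually; if not, then (ultrafilter:
`Ultrafilter.eventually_not`) eventually the relation for `α` is false, and both are false.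
(inj) `s' i = s' i'` gives by (rel) with `j = 1` that `s α i = s α i'` for some `α` (`l.neBot`), so `i = i'`.
(card) `φ_y (e_i) = φ_y (e_{i'})` iff `∀ᶠ α, s α i y = s α i' y`. Eventually for all `i i'` (finite):
`(s α i y = s α i' y ↔ φ_y e_i = φ_y e_{i'})`. For such an `α` the map `i ↦ s' i ⟨y, x⟩` factors through
`i ↦ s α i y`, so it takes at most `m` values.
(fac) `Γ_y` is finitely generated (`IsNoetherian ℤ (ι → ℤ)`), so eventually `∑ i, n i * s α i y = 0` for all
`n ∈ Γ_y` (first for the generators, then for the span) and all `y`; apply `exists_factor`; then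
`s α i y = ∑ x, β ⟨y,x⟩ * φ_y (e_i) x = ∑ x, β ⟨y,x⟩ * (s' i ⟨y,x⟩ - M)`. -/
theorem exists_limit (l : Ultrafilter ℕ) {K : ℕ} {ι : Type} [Fintype ι]
    (s : ℕ → ι → (Fin K →₀ ℕ)) (hs : ∀ n, Function.Injective (s n)) :
    ∃ (k : Fin K → ℕ) (s' : ι → ((Σ y : Fin K, Fin (k y)) →₀ ℕ)) (M : ℕ),
      (∀ (j : ℕ) (u v : Fin j → ι), ∀ᶠ n in (l : Filter ℕ),
        (∑ r, s n (u r) = ∑ r, s n (v r) ↔ ∑ r, s' (u r) = ∑ r, s' (v r))) ∧
      Function.Injective s' ∧
      (∀ m : ℕ, (∀ n y, (Finset.univ.image (fun i => s n i y)).card ≤ m) →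
        ∀ x, (Finset.univ.image (fun i => s' i x)).card ≤ m) ∧
      (∀ᶠ n in (l : Filter ℕ), ∃ β : (Σ y : Fin K, Fin (k y)) → ℤ,
        ∀ i y, (s n i y : ℤ) = ∑ x : Fin (k y), β ⟨y, x⟩ * ((s' i ⟨y, x⟩ : ℤ) - M)) := by
  classical
  set f : Fin K → ℕ → ι → ℤ := fun y α i => (s α i y : ℤ) with hf
  choose k φ hφ hker using fun y : Fin K => exists_quot (Gam l (f y)) (Gam_sat l (f y))
  set M : ℕ := ∑ i : ι, ∑ y : Fin K, ∑ x : Fin (k y), (φ y (Pi.single i 1) x).natAbs with hM
  set s' : ι → ((Σ y : Fin K, Fin (k y)) →₀ ℕ) := fun i =>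
    Finsupp.equivFunOnFinite.symm fun z => (φ z.1 (Pi.single i 1) z.2 + M).toNat with hs'
  have hval : ∀ i y x, (s' i ⟨y, x⟩ : ℤ) = φ y (Pi.single i 1) x + M := by
    intro i y x
    have h1 : (φ y (Pi.single i 1) x).natAbs ≤ M := by
      rw [hM]
      refine le_trans ?_ (Finset.single_le_sum (f := fun i : ι => ∑ y : Fin K, ∑ x : Fin (k y),
        (φ y (Pi.single i 1) x).natAbs) (fun _ _ => Nat.zero_le _) (Finset.mem_univ i))
      refine le_trans ?_ (Finset.single_le_sum (f := fun y : Fin K => ∑ x : Fin (k y),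
        (φ y (Pi.single i 1) x).natAbs) (fun _ _ => Nat.zero_le _) (Finset.mem_univ y))
      exact Finset.single_le_sum (f := fun x : Fin (k y) =>
        (φ y (Pi.single i 1) x).natAbs) (fun _ _ => Nat.zero_le _) (Finset.mem_univ x)
    have h2 : 0 ≤ φ y (Pi.single i 1) x + M := by omega
    change (((φ y (Pi.single i 1) x + M).toNat : ℕ) : ℤ) = _
    exact Int.toNat_of_nonneg h2
  have hLu : ∀ (y : Fin K) (α : ℕ) (j : ℕ) (u : Fin j → ι),
      L (f y α) (∑ r, Pi.single (u r) 1) = ((∑ r, s α (u r)) y : ℤ) := by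
    intro y α j u
    rw [map_sum, Finsupp.finsetSum_apply]
    push_cast
    exact Finset.sum_congr rfl fun r _ => L_single _ _
  have hrel : ∀ (j : ℕ) (u v : Fin j → ι), (∑ r, s' (u r) = ∑ r, s' (v r)) ↔
      ∀ᶠ n in (l : Filter ℕ), ∑ r, s n (u r) = ∑ r, s n (v r) := by
    intro j u v
    have h1 : (∑ r, s' (u r) = ∑ r, s' (v r)) ↔
        ∀ y, φ y (∑ r, Pi.single (u r) 1 - ∑ r, Pi.single (v r) 1) = 0 := by
      have hs : ∀ (w : Fin j → ι) (y : Fin K) (x : Fin (k y)),
          (((∑ r, s' (w r)) ⟨y, x⟩ : ℕ) : ℤ) =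
            φ y (∑ r, Pi.single (w r) 1) x + j * M := by
        intro w y x
        rw [Finsupp.finsetSum_apply, map_sum, Finset.sum_apply]
        push_cast
        rw [Finset.sum_congr rfl fun r _ => hval (w r) y x, Finset.sum_add_distrib]
        simp
      constructor
      · intro h y
        rw [map_sub, sub_eq_zero]
        funext x
        have h2 := hs u y x
        rw [h, hs v y x] at h2
        linarith
      · intro h
        ext ⟨y, x⟩
        have h2 := h y
        rw [map_sub, sub_eq_zero] at h2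
        have h3 := hs u y x
        rw [h2, ← hs v y x] at h3
        exact_mod_cast h3
    rw [h1]
    have h2 : ∀ y, φ y (∑ r, Pi.single (u r) 1 - ∑ r, Pi.single (v r) 1) = 0 ↔
        ∀ᶠ n in (l : Filter ℕ), (∑ r, s n (u r)) y = (∑ r, s n (v r)) y := by
      intro y
      rw [← LinearMap.mem_ker, hker y, mem_Gam]
      refine Filter.eventually_congr (Filter.Eventually.of_forall fun α => ?_)
      rw [map_sub, hLu, hLu, sub_eq_zero, Nat.cast_inj]
    rw [forall_congr' h2, ← Filter.eventually_all]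
    refine Filter.eventually_congr (Filter.Eventually.of_forall fun α => ?_)
    exact Finsupp.ext_iff.symm
  refine ⟨k, s', M, ?_, ?_, ?_, ?_⟩
  · intro j u v
    by_cases h : ∑ r, s' (u r) = ∑ r, s' (v r)
    · filter_upwards [(hrel j u v).1 h] with α hα
      exact iff_of_true hα h
    · have h2 : ∀ᶠ n in (l : Filter ℕ), ¬ (∑ r, s n (u r) = ∑ r, s n (v r)) := by
        rw [Ultrafilter.eventually_not]
        exact fun h3 => h ((hrel j u v).2 h3)
      filter_upwards [h2] with α hα
      exact iff_of_false hα h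
  · intro i i' h
    have h1 := (hrel 1 (fun _ => i) (fun _ => i')).1 (by simpa using h)
    obtain ⟨α, hα⟩ := h1.exists
    exact hs α (by simpa using hα)
  · rintro m hm ⟨y, x⟩
    have h1 : ∀ᶠ α in (l : Filter ℕ), ∀ i i', s α i y = s α i' y → s' i ⟨y, x⟩ = s' i' ⟨y, x⟩ := by
      rw [Filter.eventually_all]
      intro i
      rw [Filter.eventually_all]
      intro i'
      by_cases h : Pi.single i 1 - Pi.single i' 1 ∈ Gam l (f y)
      · refine Filter.Eventually.of_forall fun α _ => ?_
        rw [← hker y, LinearMap.mem_ker, map_sub, sub_eq_zero] at h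
        have h2 := hval i y x
        rw [h, ← hval i' y x] at h2
        exact_mod_cast h2
      · rw [mem_Gam, ← Ultrafilter.eventually_not] at h
        filter_upwards [h] with α hα h2
        exfalso
        apply hα
        rw [map_sub, L_single, L_single]
        simp only [hf, h2, sub_self]
    obtain ⟨α, hα⟩ := h1.exists
    have hfac : Function.FactorsThrough (fun i => s' i ⟨y, x⟩) (fun i => s α i y) :=
      fun i i' h => hα i i' h
    refine le_trans ?_ (hm α y)
    have h2 : Finset.univ.image (fun i => s' i ⟨y, x⟩) =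
        (Finset.univ.image (fun i => s α i y)).image
          (Function.extend (fun i => s α i y) (fun i => s' i ⟨y, x⟩) 0) := by
      rw [Finset.image_image]
      refine Finset.image_congr fun i _ => ?_
      exact (hfac.extend_apply 0 i).symm
    rw [h2]
    exact Finset.card_image_le
  · have h1 : ∀ᶠ α in (l : Filter ℕ), ∀ y : Fin K, ∀ n ∈ Gam l (f y), L (f y α) n = 0 :=
      Filter.eventually_all.2 fun y => Gam_ev l (f y)
    filter_upwards [h1] with α hα
    have h2 : ∀ y : Fin K, ∃ β : Fin (k y) → ℤ,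
        ∀ i, f y α i = ∑ x, β x * φ y (Pi.single i 1) x := by
      intro y
      refine exists_factor (φ y) (hφ y) (f y α) fun n hn => ?_
      refine hα y n ?_
      rw [← hker y]
      exact LinearMap.mem_ker.2 hn
    choose β hβ using h2
    refine ⟨fun z => β z.1 z.2, fun i y => ?_⟩
    have h3 := hβ y i
    simp only [hf] at h3
    rw [h3]
    refine Finset.sum_congr rfl fun x _ => ?_
    rw [hval, add_sub_cancel_right]

end Pool.Agent.SpCl
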