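import Pool.Agent.SpCl.Defs

/-!
# Module A10Kron: polynomials of measure one divide `F(z^p)`
-/

open MvPolynomial Pool.Agent.H27Mahler

namespace Pool.Agent.SpCl

namespace A10KronAux

/-- the irreducible factors -/
theorem irred_dvd {σ : Type} [Fintype σ] {P : MvPolynomial σ ℤ} (hP : Irreducible P)
    (h : mm P = 0) : ∃ q : ℕ, ∀ p : ℕ, p.Prime → q ≤ p → P ∣ expand p P := by
  classical
  by_cases hdeg : ∃ y : σ, 1 < (yexp y P).card
  · obtain ⟨y, hy⟩ := hdeg
    set m := (yexp y P).card with hm
    refine ⟨m * 2 ^ m + 1, fun p hp hpq => ?_⟩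
    by_contra hdvd
    set f : σ ≃ Option {b : σ // b ≠ y} := (Equiv.optionSubtypeNe y).symm with hf
    have hfy : f y = none := by simp [hf]
    set G := rename f P with hG
    have hGm : mm G = 0 := by rw [hG, mm_rename f f.injective P, h]
    have hGi : Irreducible G := (MulEquiv.irreducible_iff (renameEquiv ℤ f)).mpr hP
    have hyG : yexp none G = yexp y P := by rw [← hfy, hG, yexp_rename]
    have hndvd : ¬ G ∣ expand p G := by
      intro h1
      apply hdvd
      rw [hG, ← rename_expand] at h1
      exact (map_dvd_iff (renameEquiv ℤ f)).mp h1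
    have hdeg : (optionEquivLeft ℤ {b : σ // b ≠ y} G).natDegree ≠ 0 := by
      intro h0
      have h3 : (optionEquivLeft ℤ _ G).support ⊆ {0} := by
        intro i hi
        have := Polynomial.le_natDegree_of_mem_supp i hi
        rw [Finset.mem_singleton]; omega
      rw [support_optionEquivLeft] at h3
      have h4 := Finset.card_le_card h3
      rw [Finset.card_singleton] at h4
      have h5 : (yexp none G).card = (G.support.image (fun s => s none)).card := rfl
      rw [← h5, hyG] at h4
      omega
    have h3 := mm_ge_of_not_dvd hp m hGi hdeg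
      (by rw [support_optionEquivLeft]; exact (by rw [← hyG] at hm; exact hm.ge)) hndvd
    rw [hGm, mul_zero, zero_add] at h3
    have hm0 : 0 < m := by omega
    have h4 : (p : ℝ) ≤ (m : ℝ) * 2 ^ m := by
      have hpos : (0 : ℝ) < (m : ℝ) * 2 ^ m := by positivity
      exact (Real.log_le_log_iff (by exact_mod_cast hp.pos) hpos).mp h3
    have h5 : p ≤ m * 2 ^ m := by exact_mod_cast h4
    omega
  · push Not at hdeg
    refine ⟨0, fun p hp _ => ?_⟩
    -- all the variables have one exponent: `P` is a monomial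
    obtain ⟨s, hs⟩ := MvPolynomial.support_nonempty.mpr hP.ne_zero
    have hall : ∀ t ∈ P.support, t = s := by
      intro t ht
      ext y
      have h1 := hdeg y
      rw [Finset.card_le_one] at h1
      exact h1 _ (Finset.mem_image_of_mem _ ht) _ (Finset.mem_image_of_mem _ hs)
    have hPm : P = monomial s (P.coeff s) := by
      ext t
      rw [coeff_monomial]
      split_ifs with hst
      · rw [hst]
      · by_contra h0
        exact hst (hall t (mem_support_iff.mpr h0)).symm
    rw [hPm, expand_monomial, monomial_dvd_monomial]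
    refine ⟨Or.inr ?_, dvd_rfl⟩
    intro y
    have := hp.one_lt
    simp only [Finsupp.smul_apply, smul_eq_mul]
    nlinarith [Nat.zero_le (s y)]

theorem all_dvd {σ : Type} [Fintype σ] (F : MvPolynomial σ ℤ) :
    F ≠ 0 → mm F = 0 → ∃ q : ℕ, ∀ p : ℕ, p.Prime → q ≤ p → F ∣ expand p F := by
  classical
  refine WfDvdMonoid.induction_on_irreducible (motive := fun F : MvPolynomial σ ℤ =>
    F ≠ 0 → mm F = 0 → ∃ q : ℕ, ∀ p : ℕ, p.Prime → q ≤ p → F ∣ expand p F) F ?_ ?_ ?_
  · intro h; exact absurd rfl h
  · intro u hu _ _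
    exact ⟨0, fun p _ _ => hu.dvd⟩
  · intro a i ha hi ih _ hm
    have hmul := mm_mul hi.ne_zero ha
    have hni := mm_nonneg i
    have hna := mm_nonneg a
    obtain ⟨q1, hq1⟩ := ih ha (by linarith)
    obtain ⟨q2, hq2⟩ := irred_dvd hi (by linarith)
    refine ⟨max q1 q2, fun p hp hpq => ?_⟩
    rw [map_mul]
    exact mul_dvd_mul (hq2 p hp ((le_max_right _ _).trans hpq))
      (hq1 p hp ((le_max_left _ _).trans hpq))

end A10KronAux

theorem exists_prime_dvd_expand {σ : Type} [Fintype σ] {F : MvPolynomial σ ℤ} (hF : F ≠ 0)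
    (h : mm F = 0) : ∃ p : ℕ, p.Prime ∧ F ∣ expand p F := by
  obtain ⟨q, hq⟩ := A10KronAux.all_dvd F hF h
  obtain ⟨p, hp1, hp2⟩ := Nat.exists_infinite_primes q
  exact ⟨p, hp2, hq p hp2 hp1⟩

end Pool.Agent.SpCl
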