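import Pool.Agent.SpCl.Defs

/-!
# Module A11Mono: `mm_of_dvd_expand` with a monomial factor
-/

open MvPolynomial Pool.Agent.H27Mahler

namespace Pool.Agent.SpCl

/-- splitting off the monomial content.

PROOF. Strong induction on `F.totalDegree`: if no `X i` divides `F` take `u = 0`. Otherwise `F = X i * F₁`, with
smaller total degree (`totalDegree_mul_of_isDomain`), `mm F₁ = mm F` (`mm_mul`, `mm_X`). -/
theorem exists_monomial_split {σ : Type} [Fintype σ] {F : MvPolynomial σ ℤ} (hF : F ≠ 0) :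
    ∃ (u : σ →₀ ℕ) (F' : MvPolynomial σ ℤ), F = monomial u 1 * F' ∧ F' ≠ 0 ∧ mm F' = mm F ∧
      ∀ i, ¬ (X i ∣ F') := by
  classical
  induction h : F.totalDegree using Nat.strong_induction_on generalizing F with
  | _ n ih =>
    by_cases hX : ∃ i, X i ∣ F
    · obtain ⟨i, F1, rfl⟩ := hX
      have hF1 : F1 ≠ 0 := right_ne_zero_of_mul hF
      have hXi : (X i : MvPolynomial σ ℤ) ≠ 0 := X_ne_zero i
      have hdeg : (X i * F1).totalDegree = 1 + F1.totalDegree := by
        rw [totalDegree_mul_of_isDomain hXi hF1, totalDegree_X]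
      obtain ⟨u, F', h1, h2, h3, h4⟩ := ih F1.totalDegree (by omega) hF1 rfl
      refine ⟨Finsupp.single i 1 + u, F', ?_, h2, ?_, h4⟩
      · have h5 : (monomial (Finsupp.single i 1 + u) 1 : MvPolynomial σ ℤ) =
            X i * monomial u 1 := by
          rw [X, monomial_mul, mul_one]
        rw [h5, mul_assoc, ← h1]
      · rw [h3, mm_mul hXi hF1, mm_X, zero_add]
    · push Not at hX
      exact ⟨0, F, by rw [monomial_zero', C_1, one_mul], hF, rfl, hX⟩

/-- PROOF. `F = X^u F'` as above. From `F ∣ X^w * expand p F = X^(w + p u) * expand p F'` get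
`F' ∣ X^(w+pu) * expand p F'`. `F'` and `X^(..)` are relatively prime: a common irreducible (prime) factor divides
a monomial `X^e = ∏ (X i)^(e i)`, so it is associated to some `X i` (`X i` is prime, `MvPolynomial.prime_X` or
`MvPolynomial.X_prime`), but `X i ∤ F'`. So `F' ∣ expand p F'` (`IsRelPrime.dvd_of_dvd_mul_left`) and
`mm_of_dvd_expand` applies to `F'`. -/
theorem mm_of_dvd_monomial_expand {σ : Type} [Fintype σ] {p : ℕ} (hp : 1 < p)
    {F : MvPolynomial σ ℤ} (hF : F ≠ 0) (w : σ →₀ ℕ) (h : F ∣ monomial w 1 * expand p F) :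
    mm F = 0 ∨ Real.log 2 ≤ mm F := by
  obtain ⟨u, F', h1, h2, h3, h4⟩ := exists_monomial_split hF
  have h5 : F' ∣ monomial (w + p • u) 1 * expand p F' := by
    have h6 : F' ∣ F := by rw [h1]; exact Dvd.intro_left _ rfl
    have h7 := h6.trans h
    rw [h1, map_mul, expand_monomial, ← mul_assoc, monomial_mul, mul_one] at h7
    exact h7
  have h8 : IsRelPrime F' (monomial (w + p • u) (1 : ℤ)) := by
    rw [monomial_eq, C_1, one_mul, Finsupp.prod]
    refine IsRelPrime.prod_right fun i _ => IsRelPrime.pow_right ?_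
    exact ((X_prime (R := ℤ) (i := i)).irreducible.isRelPrime_iff_not_dvd.mpr (h4 i)).symm
  have h9 : F' ∣ expand p F' := h8.dvd_of_dvd_mul_left h5
  rw [← h3]
  exact mm_of_dvd_expand hp h2 h9

end Pool.Agent.SpCl
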