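import Pool.Agent.SpCl.Defs

/-!
# Module A12Spec: monomial specialisations
-/

open MvPolynomial Pool.Agent.H27Mahler

namespace Pool.Agent.SpCl

namespace A12SpecAux

/-- Laurent polynomials -/
abbrev LP (σ : Type) : Type := AddMonoidAlgebra ℤ (σ → ℤ)

variable {σ τ ι : Type}

/-- the ring homomorphism of an additive map of exponents -/
noncomputable def LL (f : (τ →₀ ℕ) →+ (σ → ℤ)) : MvPolynomial τ ℤ →+* LP σ :=
  AddMonoidAlgebra.mapDomainRingHom ℤ f

theorem LL_monomial (f : (τ →₀ ℕ) →+ (σ → ℤ)) (d : τ →₀ ℕ) (c : ℤ) :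
    LL f (monomial d c) = AddMonoidAlgebra.single (f d) c :=
  AddMonoidAlgebra.mapDomain_single

theorem LL_injective {f : (τ →₀ ℕ) →+ (σ → ℤ)} (hf : Function.Injective f) :
    Function.Injective (LL f) :=
  AddMonoidAlgebra.mapDomain_injective hf

theorem LL_pl [Fintype ι] (f : (τ →₀ ℕ) →+ (σ → ℤ)) (a : ι → ℤ) (s : ι → (τ →₀ ℕ)) :
    LL f (pl a s) = ∑ i, AddMonoidAlgebra.single (f (s i)) (a i) := by
  unfold pl
  rw [map_sum]
  exact Finset.sum_congr rfl fun i _ => LL_monomial f _ _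

theorem LL_expand [Fintype ι] (f : (τ →₀ ℕ) →+ (σ → ℤ)) (a : ι → ℤ) (s : ι → (τ →₀ ℕ)) (p : ℕ) :
    LL f (expand p (pl a s)) = ∑ i, AddMonoidAlgebra.single (p • f (s i)) (a i) := by
  unfold pl
  rw [map_sum, map_sum]
  refine Finset.sum_congr rfl fun i _ => ?_
  rw [expand_monomial, LL_monomial, map_nsmul]

theorem single_mul_sum [Fintype ι] (w : σ → ℤ) (v : ι → σ → ℤ) (a : ι → ℤ) :
    (AddMonoidAlgebra.single w 1 : LP σ) * ∑ i, AddMonoidAlgebra.single (v i) (a i) =
      ∑ i, AddMonoidAlgebra.single (w + v i) (a i) := by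
  rw [Finset.mul_sum]
  refine Finset.sum_congr rfl fun i _ => ?_
  rw [AddMonoidAlgebra.single_mul_single, one_mul]

theorem single_mul_single_one (w v : σ → ℤ) :
    (AddMonoidAlgebra.single w 1 : LP σ) * AddMonoidAlgebra.single v 1 =
      AddMonoidAlgebra.single (w + v) 1 := by
  rw [AddMonoidAlgebra.single_mul_single, one_mul]

/-- the exponents of the specialisation -/
def fB [Fintype τ] (β : τ → σ → ℤ) : (τ →₀ ℕ) →+ (σ → ℤ) where
  toFun := fun d y => ∑ x, (d x : ℤ) * β x y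
  map_zero' := by
    funext y
    simp
  map_add' := by
    intro d e
    funext y
    simp [add_mul, Finset.sum_add_distrib]

/-- the inclusion of the exponents -/
def fI : (σ →₀ ℕ) →+ (σ → ℤ) where
  toFun := fun d y => (d y : ℤ)
  map_zero' := by
    funext y
    simp
  map_add' := by
    intro d e
    funext y
    simp

theorem fI_injective : Function.Injective (fI : (σ →₀ ℕ) →+ (σ → ℤ)) := by
  intro d e h
  ext y
  have := congrFun h y
  have h2 : (d y : ℤ) = (e y : ℤ) := this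
  exact_mod_cast h2

theorem exists_shift [Fintype σ] (L : LP σ) : ∃ N : ℤ, ∀ w : σ → ℤ, (∀ y, N ≤ w y) →
    ∃ Q : MvPolynomial σ ℤ, LL fI Q = AddMonoidAlgebra.single w 1 * L := by
  induction L using AddMonoidAlgebra.induction_linear with
  | zero => exact ⟨0, fun w _ => ⟨0, by rw [map_zero, mul_zero]⟩⟩
  | add x y hx hy =>
    obtain ⟨N, hN⟩ := hx
    obtain ⟨N', hN'⟩ := hy
    refine ⟨max N N', fun w hw => ?_⟩
    obtain ⟨Q, hQ⟩ := hN w fun z => (le_max_left _ _).trans (hw z)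
    obtain ⟨Q', hQ'⟩ := hN' w fun z => (le_max_right _ _).trans (hw z)
    exact ⟨Q + Q', by rw [map_add, hQ, hQ', mul_add]⟩
  | single v c =>
    refine ⟨∑ y, |v y|, fun w hw => ?_⟩
    refine ⟨monomial (Finsupp.equivFunOnFinite.symm fun y => (w y + v y).toNat) c, ?_⟩
    rw [LL_monomial, AddMonoidAlgebra.single_mul_single, one_mul]
    congr 1
    funext y
    show (((w y + v y).toNat : ℕ) : ℤ) = w y + v y
    apply Int.toNat_of_nonneg
    have h1 : |v y| ≤ ∑ y, |v y| :=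
      Finset.single_le_sum (f := fun y => |v y|) (fun _ _ => abs_nonneg _) (Finset.mem_univ y)
    have h2 := hw y
    have h3 := neg_abs_le (v y)
    linarith

end A12SpecAux

open A12SpecAux in
/-- If `G = ∑ a_i x^{s'_i}` divides `G(x^p)` and `F = ∑ a_i z^{s_i}` is, up to a monomial, the specialisation
`x_j ↦ z^{β_j}` (`β_j ∈ ℤ^σ`) of `G`, then `F` divides `z^w F(z^p)` for some `w`.

PROOF. Let `𝓛 = AddMonoidAlgebra ℤ (σ → ℤ)` (Laurent polynomials), `T v = single v 1`.
`Φ : MvPolynomial τ ℤ →+* 𝓛`, `X x ↦ T (β x)` (`aeval`), `Ψ : MvPolynomial σ ℤ →+* 𝓛`, `X y ↦ T (Pi.single y 1)`;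
`Φ (monomial d c) = c T(∑ x, d x • β x)`, `Ψ (monomial d c) = c T(↑d)`, `Ψ` is injective (`↑ : (σ →₀ ℕ) → (σ → ℤ)` is
injective). By `hw`: `T(w0) * Ψ F = Φ G` and `T(p w0) * Ψ (expand p F) = Φ (expand p G)`. From `G * Q = expand p G`:
`T(w0) * Ψ F * Φ Q = T(p w0) * Ψ (expand p F)`. Choose `w : σ →₀ ℕ` so large that
`T(w + w0 - p w0) * Φ Q = Ψ Q'` for some `Q'` (finitely many exponents). Then `Ψ (F * Q') = Ψ (monomial w 1 * expand p F)`.
ALTERNATIVE without Laurent polynomials: define `Q'` by the exponents and check the identity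
`F * Q' = monomial w 1 * expand p F` at all points of the torus: a polynomial with `ev t P = 0` for all `t` is `0`
(`ae_ev_ne_zero`). -/
theorem dvd_of_specialisation {σ τ ι : Type} [Fintype σ] [Fintype τ] [Fintype ι] (a : ι → ℤ)
    (s : ι → (σ →₀ ℕ)) (s' : ι → (τ →₀ ℕ)) (β : τ → σ → ℤ) (w0 : σ → ℤ)
    (hw : ∀ i y, (s i y : ℤ) + w0 y = ∑ x, (s' i x : ℤ) * β x y) (p : ℕ)
    (h : pl a s' ∣ expand p (pl a s')) :
    ∃ w : σ →₀ ℕ, pl a s ∣ monomial w 1 * expand p (pl a s) := by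
  classical
  obtain ⟨Q, hQ⟩ := h
  have hw' : ∀ i, w0 + fI (s i) = fB β (s' i) := by
    intro i
    funext y
    show w0 y + (s i y : ℤ) = ∑ x, (s' i x : ℤ) * β x y
    rw [← hw i y, add_comm]
  have e1 : AddMonoidAlgebra.single w0 1 * LL fI (pl a s) = LL (fB β) (pl a s') := by
    rw [LL_pl, LL_pl, single_mul_sum]
    exact Finset.sum_congr rfl fun i _ => by rw [hw' i]
  have e2 : AddMonoidAlgebra.single (p • w0) 1 * LL fI (expand p (pl a s)) =
      LL (fB β) (expand p (pl a s')) := by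
    rw [LL_expand, LL_expand, single_mul_sum]
    exact Finset.sum_congr rfl fun i _ => by rw [← hw' i, smul_add]
  have e3 : AddMonoidAlgebra.single (p • w0) 1 * LL fI (expand p (pl a s)) =
      AddMonoidAlgebra.single w0 1 * LL fI (pl a s) * LL (fB β) Q := by
    rw [e2, hQ, map_mul, e1]
  obtain ⟨N, hN⟩ := exists_shift (LL (fB β) Q)
  let n : ℕ := (|N| + ∑ y, |w0 y - p * w0 y|).toNat
  have hn : |N| + ∑ y, |w0 y - p * w0 y| ≤ (n : ℤ) := Int.self_le_toNat _
  let w : σ →₀ ℕ := Finsupp.equivFunOnFinite.symm fun _ => n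
  have hwy : ∀ y, w y = n := fun y => rfl
  obtain ⟨Q', hQ'⟩ := hN (fI w + (w0 - p • w0)) (by
    intro y
    show N ≤ (w y : ℤ) + (w0 y - (p • w0) y)
    have e4 : (p • w0) y = p * w0 y := by simp
    rw [e4, hwy y]
    have h1 : |w0 y - p * w0 y| ≤ ∑ y, |w0 y - p * w0 y| :=
      Finset.single_le_sum (f := fun y => |w0 y - p * w0 y|) (fun _ _ => abs_nonneg _)
        (Finset.mem_univ y)
    have h3 := neg_abs_le (w0 y - p * w0 y)
    have h4 := le_abs_self N
    linarith)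
  refine ⟨w, Q', ?_⟩
  apply LL_injective fI_injective
  rw [map_mul, map_mul, LL_monomial, hQ']
  have e5 : (AddMonoidAlgebra.single (fI w) 1 : LP σ) =
      AddMonoidAlgebra.single (fI w - p • w0) 1 * AddMonoidAlgebra.single (p • w0) 1 := by
    rw [single_mul_single_one, sub_add_cancel]
  have e6 : (AddMonoidAlgebra.single (fI w + (w0 - p • w0)) 1 : LP σ) =
      AddMonoidAlgebra.single (fI w - p • w0) 1 * AddMonoidAlgebra.single w0 1 := by
    rw [single_mul_single_one]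
    congr 1
    abel
  rw [e5, e6, mul_assoc, e3]
  ring

end Pool.Agent.SpCl
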