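import Pool.Agent.SpCl.Defs

/-!
# Module A13Coef: coefficients of a polynomial with few monomials
-/

open Finsupp (weight)
open MvPolynomial MeasureTheory Pool.Agent.H27Mahler

namespace Pool.Agent.SpCl

namespace A13CoefAux

theorem log_le {σ : Type} [Fintype σ] (N : ℕ) {F : MvPolynomial σ ℤ} (hF : F ≠ 0)
    (hN : F.support.card ≤ N + 1) {s : σ →₀ ℕ} (hs : s ∈ F.support) :
    Real.log |((F.coeff s : ℤ) : ℝ)| ≤ N * Real.log 2 + mm F := by
  classical
  obtain ⟨lam, hinj⟩ := exists_int_injective F.support
  set a := minw lam F with ha'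
  have ha : ∀ s ∈ F.support, a ≤ weight lam s := fun s hs => minw_le hs
  have hI := integrable_slice hF lam a ha
  have h1 : ∫ t : Tor σ, (N * Real.log 2 + ∫ τ : UnitAddCircle,
      Real.log ‖(slice lam a F t).eval (AddCircle.toCircle τ : ℂ)‖) =
      N * Real.log 2 + mm F := by
    rw [integral_add (integrable_const _) hI, ← mm_eq_slice hF lam a ha]
    simp
  have h2 : ∫ _ : Tor σ, Real.log |((F.coeff s : ℤ) : ℝ)| = Real.log |((F.coeff s : ℤ) : ℝ)| := by
    simp
  rw [← h1, ← h2]
  refine integral_mono (integrable_const _) ((integrable_const _).add hI) fun t => ?_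
  have hn : a + ((weight lam s - a).toNat : ℤ) = weight lam s := by
    have := ha s hs
    omega
  have h3 : ‖(slice lam a F t).coeff (weight lam s - a).toNat‖ = |((F.coeff s : ℤ) : ℝ)| := by
    rw [coeff_slice lam a F ha, hn, norm_ev_whc_of_injective hinj hs]
  have h4 := one_le_abs_coeff hs
  have hcard : (slice lam a F t).support.card ≤ N + 1 := by
    refine (card_support_slice_le lam a ha t).trans ?_
    exact (Finset.card_image_le).trans hN
  have h5 := coeff_le_two_pow N (slice lam a F t) hcard (weight lam s - a).toNat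
  have hne : slice lam a F t ≠ 0 := by
    intro h
    rw [h, Polynomial.coeff_zero, norm_zero] at h3
    linarith
  have hM := Polynomial.mahlerMeasure_pos_of_ne_zero hne
  show Real.log |((F.coeff s : ℤ) : ℝ)| ≤ N * Real.log 2 + ∫ τ : UnitAddCircle,
      Real.log ‖(slice lam a F t).eval (AddCircle.toCircle τ : ℂ)‖
  rw [integral_log_norm_eval, Polynomial.logMahlerMeasure_eq_log_MahlerMeasure]
  rw [h3] at h5
  calc Real.log |((F.coeff s : ℤ) : ℝ)|
      ≤ Real.log (2 ^ N * (slice lam a F t).mahlerMeasure) :=
        Real.log_le_log (by linarith) h5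
    _ = _ := by rw [Real.log_mul (by positivity) hM.ne', Real.log_pow]

end A13CoefAux

/-- (Dobrowolski-Smyth type bound)

PROOF. Like `log_abs_coeff_le` of H27Mahler.Gain: `lam` injective on the support (`exists_int_injective`),
`a = minw lam F`; the slice `slice lam a F t` has at most `N + 1` terms (`card_support_slice_le`,
`Finset.card_image_le` for `wts`), its coefficient at `weight lam s - a` has norm `|coeff s F|`
(`norm_ev_whc_of_injective`), so `|coeff s F| ≤ 2^N * mahlerMeasure` (`coeff_le_two_pow`); take logarithms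
(`mahlerMeasure > 0`, `logMahlerMeasure_eq_log_MahlerMeasure`, `integral_log_norm_eval`) and integrate over `t`
(`mm_eq_slice`, `integrable_slice`). -/
theorem abs_coeff_le {σ : Type} [Fintype σ] (N : ℕ) {F : MvPolynomial σ ℤ} (hF : F ≠ 0)
    (hN : F.support.card ≤ N + 1) (s : σ →₀ ℕ) :
    |((F.coeff s : ℤ) : ℝ)| ≤ 2 ^ N * Real.exp (mm F) := by
  by_cases hs : s ∈ F.support
  · have h1 := A13CoefAux.log_le N hF hN hs
    have h2 := one_le_abs_coeff hs
    have h3 : |((F.coeff s : ℤ) : ℝ)| ≤ Real.exp (N * Real.log 2 + mm F) :=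
      (Real.log_le_iff_le_exp (by linarith)).1 h1
    rw [Real.exp_add, mul_comm (N : ℝ) (Real.log 2), Real.exp_mul,
      Real.exp_log (by norm_num : (0 : ℝ) < 2), Real.rpow_natCast] at h3
    exact h3
  · rw [notMem_support_iff.mp hs]
    simp only [Int.cast_zero, abs_zero]
    positivity

end Pool.Agent.SpCl
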