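import Pool.Agent.SpCl.A07Limit
import Pool.Agent.SpCl.A09Ultra
import Pool.Agent.SpCl.A10Kron
import Pool.Agent.SpCl.A11Mono
import Pool.Agent.SpCl.A12Spec
import Pool.Agent.SpCl.A13Coef

/-!
# Module A14UL: ultralimits of polynomials with few monomials
-/

open MvPolynomial MeasureTheory Filter Topology Pool.Agent.H27Mahler

namespace Pool.Agent.SpCl

namespace A14ULAux

/-- the finite set of coefficient data -/
abbrev Dat (N : ℕ) (B : ℤ) : Type := Σ c : Fin (N + 1), (Fin c → Finset.Icc (-B) B)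

theorem exists_dat {K N : ℕ} {T : ℝ} {B : ℤ} (hB : 2 ^ N * Real.exp T ≤ (B : ℝ))
    (F : MvPolynomial (Fin K) ℤ) (hF : F ≠ 0) (hN : F.support.card ≤ N) (hT : mm F ≤ T) :
    ∃ (d : Dat N B) (s : Fin d.1 → (Fin K →₀ ℕ)), Function.Injective s ∧
      (∀ i, (d.2 i : ℤ) ≠ 0) ∧ F = pl (fun i => (d.2 i : ℤ)) s := by
  obtain ⟨a, s, hs, ha, hFs⟩ := exists_pl F
  have hab : ∀ i, a i ∈ Finset.Icc (-B) B := by
    intro i
    have h1 := abs_coeff_le N hF (hN.trans (Nat.le_succ N)) (s i)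
    have h2 : coeff (s i) F = a i := by
      conv_lhs => rw [hFs]
      exact coeff_pl hs i
    rw [h2] at h1
    have h3 : |((a i : ℤ) : ℝ)| ≤ (B : ℝ) :=
      h1.trans ((mul_le_mul_of_nonneg_left (Real.exp_le_exp.2 hT) (by positivity)).trans hB)
    rw [Finset.mem_Icc, ← abs_le]
    exact_mod_cast h3
  exact ⟨⟨⟨F.support.card, Nat.lt_succ_of_le hN⟩, fun i => ⟨a i, hab i⟩⟩, s, hs, ha, hFs⟩

end A14ULAux

open A14ULAux

/-- ultralimits.

PROOF. For every `n` write `F n = pl (a n) (s n)` with index type `Fin (F n).support.card` (`exists_pl`). The pairs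
(number `c = (F n).support.card ∈ [1, N]`, coefficient vector in `[-B, B]^c`, `B = ⌈2^N exp T⌉` by `abs_coeff_le`)
take finitely many values, so they are constant on a set of the ultrafilter (`Ultrafilter.eventually_exists_mem_iff`
or: the map to a finite set has an `l`-constant value): there are `c ≥ 1` and `a : Fin c → ℤ` with
`∀ᶠ n in l, ∃ s injective, F n = pl a s` (and `a i ≠ 0`). Choose `s : ℕ → Fin c → (Fin K →₀ ℕ)` with `s n` injective
for ALL `n` and `F n = pl a (s n)` for `n` in a set of `l`; for the other `n` take the `s` of one fixed good index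
`n₀` (so that all hypotheses hold for all `n`, including the bound `m` for the number of exponents: `yexp_pl`).
Apply `exists_limit` and put `G = pl a s'`. `G ≠ 0` by `pl_ne_zero`, (yexp) by `yexp_pl`, convergence by
`tendsto_mm` (and `Tendsto.congr'`). If `mm G = 0`, `exists_prime_dvd_expand` gives `p`, eventually `F n = pl a (s n)`
and (fac) hold, so `dvd_of_specialisation` (with `β' ⟨y,x⟩ y' = if y = y' then β ⟨y,x⟩ else 0`,
`w0 y = M * ∑ x, β ⟨y,x⟩`) and `mm_of_dvd_monomial_expand` give the last claim. -/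
theorem ultra_limit (l : Ultrafilter ℕ) {K N : ℕ} {T : ℝ} (F : ℕ → MvPolynomial (Fin K) ℤ)
    (hF : ∀ n, F n ≠ 0) (hN : ∀ n, (F n).support.card ≤ N) (hT : ∀ n, mm (F n) ≤ T) :
    ∃ (τ : Type) (_ : Fintype τ) (G : MvPolynomial τ ℤ), G ≠ 0 ∧
      (∀ m : ℕ, (∀ n y, (yexp y (F n)).card ≤ m) → ∀ x, (yexp x G).card ≤ m) ∧
      Tendsto (fun n => mm (F n)) (l : Filter ℕ) (𝓝 (mm G)) ∧
      (mm G = 0 → ∀ᶠ n in (l : Filter ℕ), mm (F n) = 0 ∨ Real.log 2 ≤ mm (F n)) := by
  classical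
  have hB : 2 ^ N * Real.exp T ≤ ((⌈2 ^ N * Real.exp T⌉ : ℤ) : ℝ) := Int.le_ceil _
  generalize ⌈2 ^ N * Real.exp T⌉ = B at hB
  have hD0 : ∀ n, ∃ d : Dat N B, ∃ (s : Fin d.1 → (Fin K →₀ ℕ)), Function.Injective s ∧
      (∀ i, (d.2 i : ℤ) ≠ 0) ∧ F n = pl (fun i => (d.2 i : ℤ)) s :=
    fun n => exists_dat hB (F n) (hF n) (hN n) (hT n)
  choose D hD using hD0
  obtain ⟨d, hd⟩ := Ultrafilter.eq_pure_of_finite (l.map D)
  have hA : {n | D n = d} ∈ (l : Filter ℕ) := by
    have h1 : ({d} : Set (Dat N B)) ∈ (l.map D) := by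
      rw [hd]
      exact Ultrafilter.mem_pure.2 rfl
    exact h1
  have hP : ∀ n, D n = d → ∃ (s : Fin d.1 → (Fin K →₀ ℕ)), Function.Injective s ∧
      (∀ i, (d.2 i : ℤ) ≠ 0) ∧ F n = pl (fun i => (d.2 i : ℤ)) s := by
    intro n hn
    rw [← hn]
    exact hD n
  obtain ⟨n0, hn0⟩ := l.nonempty_of_mem hA
  obtain ⟨s0, hs0, ha, hF0⟩ := hP n0 hn0
  obtain ⟨a, haeq⟩ : ∃ a : Fin d.1 → ℤ, a = fun i => (d.2 i : ℤ) := ⟨_, rfl⟩
  have ha' : ∀ i, a i ≠ 0 := by
    intro i
    rw [haeq]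
    exact ha i
  have hne : Nonempty (Fin d.1) := by
    by_contra hcon
    rw [not_nonempty_iff] at hcon
    apply hF n0
    rw [hF0, pl, Finset.univ_eq_empty, Finset.sum_empty]
  have hs1 : ∀ n, ∃ s : Fin d.1 → (Fin K →₀ ℕ), Function.Injective s ∧
      (∃ n', F n' = pl a s) ∧ (D n = d → F n = pl a s) := by
    intro n
    by_cases hn : D n = d
    · obtain ⟨s, hs, -, hFs⟩ := hP n hn
      rw [← haeq] at hFs
      exact ⟨s, hs, ⟨n, hFs⟩, fun _ => hFs⟩
    · rw [← haeq] at hF0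
      exact ⟨s0, hs0, ⟨n0, hF0⟩, fun h => absurd h hn⟩
  choose s hs hs2 hs3 using hs1
  obtain ⟨k, s', M, hrel, hinj, hcard, hfac⟩ := exists_limit l s hs
  have hG : pl a s' ≠ 0 := pl_ne_zero hinj ha'
  refine ⟨(Σ y : Fin K, Fin (k y)), inferInstance, pl a s', hG, ?_, ?_, ?_⟩
  · intro m hm x
    rw [yexp_pl hinj ha']
    refine hcard m (fun n y => ?_) x
    obtain ⟨n', hn'⟩ := hs2 n
    have h1 := hm n' y
    rw [hn', yexp_pl (hs n) ha'] at h1
    exact h1
  · refine (tendsto_mm (l : Filter ℕ) a ha' s hs s' hinj hrel).congr' ?_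
    filter_upwards [hA] with n hn
    rw [hs3 n hn]
  · intro h0
    obtain ⟨p, hp, hdvd⟩ := exists_prime_dvd_expand hG h0
    filter_upwards [hA, hfac] with n hn hβ0
    obtain ⟨β, hβ⟩ := hβ0
    have h1 : ∃ w : Fin K →₀ ℕ, pl a (s n) ∣ monomial w 1 * expand p (pl a (s n)) := by
      refine dvd_of_specialisation a (s n) s' (fun x y => if x.1 = y then β x else 0)
        (fun y => M * ∑ x : Fin (k y), β ⟨y, x⟩) (fun i y => ?_) p hdvd
      rw [hβ i y, Fintype.sum_sigma, Finset.sum_eq_single y]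
      · simp only [if_true]
        rw [Finset.mul_sum, ← Finset.sum_add_distrib]
        exact Finset.sum_congr rfl fun x _ => by ring
      · intro y' _ hy'
        refine Finset.sum_eq_zero fun x _ => ?_
        rw [if_neg hy', mul_zero]
      · exact fun h => absurd (Finset.mem_univ y) h
    obtain ⟨w, hw⟩ := h1
    have h2 := mm_of_dvd_monomial_expand hp.one_lt (hs3 n hn ▸ hF n) w hw
    rw [hs3 n hn]
    exact h2

end Pool.Agent.SpCl
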