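import Pool.Agent.SpCl.B04Ess

/-!
# Module B05Red: reduction of the number of variables
-/

open Finsupp (weight)
open MvPolynomial MeasureTheory Pool.Agent.H27Mahler

namespace Pool.Agent.SpCl

/-- PROOF. `mem_support_elimVar`: the support of `elimVar j F` is contained in the image of `F.support` under the
restriction. -/
theorem card_support_elimVar_le {σ : Type} [Fintype σ] [DecidableEq σ] (j : σ)
    (F : MvPolynomial σ ℤ) : (elimVar j F).support.card ≤ F.support.card := by
  classical
  refine le_trans (Finset.card_le_card (t := F.support.image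
    (fun s => s.subtypeDomain (fun i => i ≠ j))) ?_) Finset.card_image_le
  intro s' hs'
  obtain ⟨s, hs, rfl⟩ := mem_support_elimVar hs'
  exact Finset.mem_image.2 ⟨s, hs, rfl⟩

theorem card_yexp_elimVar_le {σ : Type} [Fintype σ] [DecidableEq σ] (j : σ)
    (F : MvPolynomial σ ℤ) (i : {i : σ // i ≠ j}) : (yexp i (elimVar j F)).card ≤ (yexp (i : σ) F).card := by
  classical
  refine Finset.card_le_card ?_
  intro e he
  unfold yexp at he ⊢
  obtain ⟨s', hs', rfl⟩ := Finset.mem_image.1 he
  obtain ⟨s, hs, rfl⟩ := mem_support_elimVar hs'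
  exact Finset.mem_image.2 ⟨s, hs, rfl⟩

/-- PROOF. The linear map `x ↦ (weight x s - weight x s₀)_{s ∈ support}` (`wlin`) from `σ → ℝ` to
`F.support → ℝ` has kernel `HS F` (`s₀` a fixed element of the support). -/
theorem card_le_of_HS_eq_bot {σ : Type} [Fintype σ] {F : MvPolynomial σ ℤ} (hF : F ≠ 0)
    (h : HS F = ⊥) : Fintype.card σ ≤ F.support.card := by
  classical
  obtain ⟨s0, hs0⟩ := support_nonempty.mpr hF
  set Φ : (σ → ℝ) →ₗ[ℝ] (F.support → ℝ) :=
    LinearMap.pi (fun s : F.support => wlin (s : σ →₀ ℕ) - wlin s0) with hΦ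
  have hinj : Function.Injective Φ := by
    rw [← LinearMap.ker_eq_bot, LinearMap.ker_eq_bot']
    intro x hx
    have hx' : ∀ s ∈ F.support, weight x s = weight x s0 := by
      intro s hs
      have h1 := congrFun hx ⟨s, hs⟩
      have h2 : weight x s - weight x s0 = 0 := h1
      linarith
    have hm : x ∈ HS F := by
      intro s hs s' hs'
      rw [hx' s hs, hx' s' hs']
    rw [h, Submodule.mem_bot] at hm
    exact hm
  have h1 := LinearMap.finrank_le_finrank_of_injective hinj
  rw [Module.finrank_pi, Module.finrank_pi, Fintype.card_coe] at h1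
  exact h1

/-- PROOF. Induction on `Fintype.card σ` (for all types). If `HS F ≠ ⊥` take `x ≠ 0` in it and the integer direction
`lam`, `lam j ≠ 0` of `exists_int_HS`; `elimVar j F` is nonzero (`elimVar_ne_zero`), has the same measure
(`mm_elimVar`), one variable less, and not more monomials or exponents. -/
theorem exists_full_rank {σ : Type} [Fintype σ] {F : MvPolynomial σ ℤ} (hF : F ≠ 0) :
    ∃ (τ : Type) (_ : Fintype τ) (G : MvPolynomial τ ℤ), G ≠ 0 ∧ HS G = ⊥ ∧ mm G = mm F ∧
      G.support.card ≤ F.support.card ∧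
      (∀ m, (∀ y, (yexp y F).card ≤ m) → ∀ y, (yexp y G).card ≤ m) := by
  classical
  obtain ⟨n, hn⟩ : ∃ n, n = Fintype.card σ := ⟨_, rfl⟩
  induction n generalizing σ with
  | zero =>
    by_cases hb : HS F = ⊥
    · exact ⟨σ, inferInstance, F, hF, hb, rfl, le_rfl, fun m h => h⟩
    · obtain ⟨x, hx, hx0⟩ := Submodule.exists_mem_ne_zero_of_ne_bot hb
      obtain ⟨lam, j, hj, hhom⟩ := exists_int_HS hx hx0
      have : IsEmpty σ := Fintype.card_eq_zero_iff.mp hn.symm
      exact (IsEmpty.false j).elim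
  | succ n ih =>
    by_cases hb : HS F = ⊥
    · exact ⟨σ, inferInstance, F, hF, hb, rfl, le_rfl, fun m h => h⟩
    · obtain ⟨x, hx, hx0⟩ := Submodule.exists_mem_ne_zero_of_ne_bot hb
      obtain ⟨lam, j, hj, hhom⟩ := exists_int_HS hx hx0
      obtain ⟨τ, iτ, G, h1, h2, h3, h4, h5⟩ := ih (σ := {i : σ // i ≠ j}) (F := elimVar j F)
        (elimVar_ne_zero hj hF hhom)
        (by rw [Fintype.card_subtype_compl, Fintype.card_subtype_eq, ← hn]; rfl)
      refine ⟨τ, iτ, G, h1, h2, h3.trans (mm_elimVar hj hhom),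
        h4.trans (card_support_elimVar_le j F), fun m hm => h5 m fun y => ?_⟩
      exact (card_yexp_elimVar_le j F y).trans (hm y)

/-- PROOF. `exists_full_rank`, `card_le_of_HS_eq_bot`, and `rename` by an embedding `τ ↪ Fin N`
(`support_rename_of_injective`, `mm_rename`). -/
theorem reduce_fin {σ : Type} [Fintype σ] {F : MvPolynomial σ ℤ} (hF : F ≠ 0) {N : ℕ}
    (hN : F.support.card ≤ N) : ∃ G : MvPolynomial (Fin N) ℤ, G ≠ 0 ∧ G.support.card ≤ N ∧
      mm G = mm F := by
  classical
  obtain ⟨τ, iτ, G, h1, h2, h3, h4, -⟩ := exists_full_rank hF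
  have hc : Fintype.card τ ≤ N := (card_le_of_HS_eq_bot h1 h2).trans (h4.trans hN)
  have : Nonempty (τ ↪ Fin N) := by
    rw [Function.Embedding.nonempty_iff_card_le, Fintype.card_fin]
    exact hc
  obtain ⟨f⟩ := this
  refine ⟨rename f G, ?_, ?_, (mm_rename f f.injective G).trans h3⟩
  · rw [Ne, ← map_zero (rename f), (rename_injective _ f.injective).eq_iff]
    exact h1
  · rw [support_rename_of_injective f.injective]
    exact Finset.card_image_le.trans (h4.trans hN)

/-- FULL ESSENTIAL RANK.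

PROOF. Strong induction on `Fintype.card σ` (for all types `σ`). Let `F'` be as in `exists_ess_support`. If
`HS F' = ⊥` take `G = F'` (`yexp_mono`). Otherwise `elimVar j F'` as in `exists_full_rank` has one variable less: apply
the induction hypothesis to it. -/
theorem exists_ess {σ : Type} [Fintype σ] {F : MvPolynomial σ ℤ} (hF : F ≠ 0) {m : ℕ}
    (hm : ∀ y, (yexp y F).card ≤ m) :
    ∃ (τ : Type) (_ : Fintype τ) (G : MvPolynomial τ ℤ), G ≠ 0 ∧ mm G = mm F ∧
      (∀ y, (yexp y G).card ≤ m) ∧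
      ∀ x : τ → ℝ, (∀ P, Irreducible P → P ∣ G → mm P ≠ 0 → x ∈ HS P) → x = 0 := by
  classical
  obtain ⟨n, hn⟩ : ∃ n, n = Fintype.card σ := ⟨_, rfl⟩
  induction n generalizing σ with
  | zero =>
    obtain ⟨F', h1, h2, h3, h4⟩ := exists_ess_support hF
    refine ⟨σ, inferInstance, F', h1, h3, fun y => (yexp_mono h2 y).trans (hm y), fun x _ => ?_⟩
    have : IsEmpty σ := Fintype.card_eq_zero_iff.mp hn.symm
    exact Subsingleton.elim _ _
  | succ n ih =>
    obtain ⟨F', h1, h2, h3, h4⟩ := exists_ess_support hF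
    by_cases hb : HS F' = ⊥
    · refine ⟨σ, inferInstance, F', h1, h3, fun y => (yexp_mono h2 y).trans (hm y),
        fun x hx => ?_⟩
      have := h4 x hx
      rw [hb, Submodule.mem_bot] at this
      exact this
    · obtain ⟨x, hx, hx0⟩ := Submodule.exists_mem_ne_zero_of_ne_bot hb
      obtain ⟨lam, j, hj, hhom⟩ := exists_int_HS hx hx0
      obtain ⟨τ, iτ, G, k1, k2, k3, k4⟩ := ih (σ := {i : σ // i ≠ j}) (F := elimVar j F')
        (elimVar_ne_zero hj h1 hhom)
        (fun y => (card_yexp_elimVar_le j F' y).trans ((yexp_mono h2 _).trans (hm _)))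
        (by rw [Fintype.card_subtype_compl, Fintype.card_subtype_eq, ← hn]; rfl)
      exact ⟨τ, iτ, G, k1, k2.trans ((mm_elimVar hj hhom).trans h3), k3, k4⟩

end Pool.Agent.SpCl
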