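import Pool.Agent.SpCl.A14UL
import Pool.Agent.SpCl.B05Red

/-!
# Module A15Gap: the gap for polynomials with at most `N` monomials
-/

open MvPolynomial MeasureTheory Filter Topology Pool.Agent.H27Mahler

namespace Pool.Agent.SpCl

/-- PROOF. By contradiction: for every `n` there is `F n` with at most `N` monomials (in a type `σ n`) and
`0 < mm (F n) < 1/(n+1)` (`mm_nonneg`). By `reduce_fin` (B05) we may assume `F n : MvPolynomial (Fin N) ℤ`. Apply
`ultra_limit` with `l = hyperfilter ℕ` and `T = 1`: `mm (F n) → 0` (since `1/(n+1) → 0` along the hyperfilter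
`≤ cofinite = atTop`), so `mm G = 0` (uniqueness of limits), hence eventually `mm (F n) = 0` or `≥ log 2`; but
`0 < mm (F n) < 1/(n+1) < log 2` eventually: contradiction (`l.neBot`). -/
theorem gap (N : ℕ) : ∃ c : ℝ, 0 < c ∧ ∀ (σ : Type) [Fintype σ] (F : MvPolynomial σ ℤ), F ≠ 0 →
    F.support.card ≤ N → mm F = 0 ∨ c ≤ mm F := by
  by_contra hcon
  have hex : ∀ n : ℕ, ∃ G : MvPolynomial (Fin N) ℤ, G ≠ 0 ∧ G.support.card ≤ N ∧ mm G ≠ 0 ∧
      mm G < 1 / ((n : ℝ) + 1) := by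
    intro n
    by_contra hn
    apply hcon
    refine ⟨1 / ((n : ℝ) + 1), by positivity, ?_⟩
    intro σ _ F hF hN
    by_contra h1
    apply hn
    obtain ⟨G, hG, hGN, hGm⟩ := reduce_fin hF hN
    refine ⟨G, hG, hGN, ?_, ?_⟩
    · rw [hGm]
      exact fun h => h1 (Or.inl h)
    · rw [hGm]
      by_contra h2
      exact h1 (Or.inr (not_lt.1 h2))
  choose F hF hN hne hlt using hex
  have hT : ∀ n, mm (F n) ≤ 1 := by
    intro n
    refine (hlt n).le.trans ?_
    rw [div_le_one (by positivity)]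
    have : (0 : ℝ) ≤ (n : ℝ) := Nat.cast_nonneg n
    linarith
  obtain ⟨τ, _, G, -, -, hlim, hzero⟩ := ultra_limit (hyperfilter ℕ) F hF hN hT
  have hinv : Tendsto (fun n : ℕ => 1 / ((n : ℝ) + 1)) (hyperfilter ℕ : Filter ℕ) (𝓝 0) :=
    tendsto_one_div_add_atTop_nhds_zero_nat.mono_left Nat.hyperfilter_le_atTop
  have hlim0 : Tendsto (fun n => mm (F n)) (hyperfilter ℕ : Filter ℕ) (𝓝 0) :=
    squeeze_zero (fun n => mm_nonneg (F n)) (fun n => (hlt n).le) hinv
  have hG0 : mm G = 0 := tendsto_nhds_unique hlim hlim0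
  have h1 := hzero hG0
  have h2 : ∀ᶠ n : ℕ in (hyperfilter ℕ : Filter ℕ), 1 / ((n : ℝ) + 1) < Real.log 2 :=
    hinv.eventually (gt_mem_nhds (Real.log_pos one_lt_two))
  obtain ⟨n, h3, h4⟩ := (h1.and h2).exists
  rcases h3 with h3 | h3
  · exact hne n h3
  · exact absurd (hlt n) (not_lt.2 (h4.le.trans h3))

end Pool.Agent.SpCl
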