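import Pool.Agent.SpCl.Defs

/-!
# Module B01HS: homogeneity directions of divisors, faces
-/

open Finsupp (weight)
open MvPolynomial MeasureTheory Pool.Agent.H27Mahler

namespace Pool.Agent.SpCl

variable {σ : Type} [Fintype σ]

namespace B01HSAux

theorem weight_neg_dir (x : σ → ℝ) (s : σ →₀ ℕ) : weight (-x) s = - weight x s := by
  have h := weight_smul_dir x (-1) s
  rw [neg_one_smul] at h
  rw [h]
  ring

theorem LL_self {A : MvPolynomial σ ℤ} (hA : A ≠ 0) : LL A A = Real.log 2 + 2 * mm A := by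
  have h1 : ∫ _ : Tor σ, Real.log 2 = Real.log 2 := by simp
  rw [LL, mm, ← integral_const_mul]
  rw [← h1]
  rw [← integral_add (integrable_const _) ((integrable_log_ev hA).const_mul 2)]
  refine integral_congr_ae ?_
  filter_upwards [ae_ev_ne_zero hA] with t ht
  have h0 : 0 < ‖ev t A‖ := norm_pos_iff.mpr ht
  have h3 : 2 * Real.log ‖ev t A‖ = Real.log (‖ev t A‖ ^ 2) := by rw [Real.log_pow]; norm_num
  rw [h3, ← Real.log_mul (by norm_num) (by positivity), two_mul]

theorem weight_single [DecidableEq σ] (i : σ) (s : σ →₀ ℕ) :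
    weight (Pi.single i (1 : ℝ) : σ → ℝ) s = (s i : ℝ) := by
  rw [weight_eq_sum, Finset.sum_eq_single i]
  · simp
  · intro j _ hj
    simp [Pi.single_eq_of_ne hj]
  · intro h
    exact absurd (Finset.mem_univ i) h

end B01HSAux

open B01HSAux

/-- PROOF. `F = P * Q`, `x ∈ HS F`. `minw x F = minw x P + minw x Q` and the same for `-x` (`minw_mul`);
`minw x F = - minw (-x) F` since all weights of `F` are equal; `minw x P ≤ - minw (-x) P` (smallest and largest
weight, `weight_smul_dir` with `-1`) and the same for `Q`; so `minw x P = - minw (-x) P`: all weights of `P` are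
equal. -/
theorem HS_le_of_dvd {P F : MvPolynomial σ ℤ} (hF : F ≠ 0) (h : P ∣ F) : HS F ≤ HS P := by
  obtain ⟨Q, rfl⟩ := h
  have hP : P ≠ 0 := left_ne_zero_of_mul hF
  have hQ : Q ≠ 0 := right_ne_zero_of_mul hF
  intro x hx
  rw [mem_HS] at hx ⊢
  obtain ⟨s0, hs0, e0⟩ := exists_minw_eq x hF
  obtain ⟨s1, hs1, e1⟩ := exists_minw_eq (-x) hF
  have h1 := hx s0 hs0 s1 hs1
  rw [weight_neg_dir] at e1
  rw [minw_mul x hP hQ] at e0
  rw [minw_mul (-x) hP hQ] at e1
  have hQle : minw x Q ≤ - minw (-x) Q := by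
    obtain ⟨s, hs, e⟩ := exists_minw_eq x hQ
    have h2 := minw_le (x := -x) hs
    rw [weight_neg_dir] at h2
    rw [e]
    linarith
  have hall : ∀ s ∈ P.support, weight x s = minw x P := by
    intro s hs
    have h2 := minw_le (x := x) hs
    have h3 := minw_le (x := -x) hs
    rw [weight_neg_dir] at h3
    linarith
  intro s hs s' hs'
  rw [hall s hs, hall s' hs']

/-- PROOF. `HS_mul_ge` is in H27Mahler.Nonrecip: `HS A ⊓ HS B ≤ HS (A * B)`; and `HS_le_of_dvd`. -/
theorem HS_mul {A B : MvPolynomial σ ℤ} (hA : A ≠ 0) (hB : B ≠ 0) :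
    HS (A * B) = HS A ⊓ HS B :=
  le_antisymm (le_inf (HS_le_of_dvd (mul_ne_zero hA hB) (Dvd.intro B rfl))
    (HS_le_of_dvd (mul_ne_zero hA hB) (Dvd.intro_left A rfl))) (HS_mul_ge A B)

/-- PROOF. `LL_face_le x hF hF : LL (face x F) (face x F) ≤ LL F F` and `LL A A = log 2 + 2 mm A` for `A ≠ 0`
(`‖a‖^2 + ‖a‖^2 = 2 ‖a‖^2`, a.e. nonzero). -/
theorem mm_face_le (x : σ → ℝ) {F : MvPolynomial σ ℤ} (hF : F ≠ 0) : mm (face x F) ≤ mm F := by
  have h1 := LL_face_le x hF hF
  rw [LL_self hF, LL_self (face_ne_zero x hF)] at h1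
  linarith

/-- PROOF. The same with `LL_face_le_int`. -/
theorem mm_face_le_int (x : σ → ℤ) {F : MvPolynomial σ ℤ} (hF : F ≠ 0) :
    mm (face x F) ≤ mm F := by
  have h1 := LL_face_le_int x hF hF
  rw [LL_self hF, LL_self (face_ne_zero x hF)] at h1
  linarith

/-- the variable `i` occurs in all monomials of `P` with the same exponent -/
theorem single_mem_HS_iff [DecidableEq σ] {P : MvPolynomial σ ℤ} {i : σ} :
    Pi.single i (1 : ℝ) ∈ HS P ↔ ∀ s ∈ P.support, ∀ s' ∈ P.support, s i = s' i := by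
  rw [mem_HS]
  refine forall₂_congr fun s _ => forall₂_congr fun s' _ => ?_
  rw [weight_single, weight_single]
  exact Nat.cast_inj

/-- PROOF. If `degreeOf i P = 0` all exponents of `i` are `0`. -/
theorem single_mem_HS_of_degreeOf [DecidableEq σ] {P : MvPolynomial σ ℤ} {i : σ}
    (h : P.degreeOf i = 0) : Pi.single i (1 : ℝ) ∈ HS P := by
  rw [single_mem_HS_iff]
  have h1 : ∀ s ∈ P.support, s i = 0 := by
    intro s hs
    have h2 := monomial_le_degreeOf i hs
    omega
  intro s hs s' hs'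
  rw [h1 s hs, h1 s' hs']

/-- PROOF. By `single_mem_HS_iff` all monomials are equal if all `single i 1` are in `HS P`; and `HS P = ⊤` iff all
`single i 1 ∈ HS P` (they span). -/
theorem HS_eq_top_of_vars_empty [DecidableEq σ] {P : MvPolynomial σ ℤ}
    (h : ∀ i, P.degreeOf i = 0) : HS P = ⊤ := by
  rw [eq_top_iff]
  intro x _
  rw [mem_HS]
  have h1 : ∀ s ∈ P.support, s = 0 := by
    intro s hs
    ext i
    have h2 := monomial_le_degreeOf i hs
    have h3 := h i
    rw [Finsupp.zero_apply]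
    omega
  intro s hs s' hs'
  rw [h1 s hs, h1 s' hs']

theorem yexp_mono {F F' : MvPolynomial σ ℤ} (h : F'.support ⊆ F.support) (y : σ) :
    (yexp y F').card ≤ (yexp y F).card :=
  Finset.card_le_card (Finset.image_subset_image h)

theorem support_face_subset {Γ : Type*} [AddCommGroup Γ] [LinearOrder Γ] [IsOrderedAddMonoid Γ]
    (x : σ → Γ) (F : MvPolynomial σ ℤ) : (face x F).support ⊆ F.support :=
  fun _ hs => (mem_support_face.mp hs).1

end Pool.Agent.SpCl
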