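import Pool.Agent.SpCl.B01HS

/-!
# Module B02Yexp: the exponents of a variable in a product
-/

open Finsupp (weight)
open MvPolynomial MeasureTheory Pool.Agent.H27Mahler

namespace Pool.Agent.SpCl

variable {σ : Type} [Fintype σ] [DecidableEq σ]

/-- PROOF. Let `r` be the common exponent of `y` in `A` (`single_mem_HS_iff`). For `e ∈ yexp y B` the component
`B_e` (`weightedHomogeneousComponent (Pi.single y (1:ℤ)) e B`) is nonzero, and `A * B_e` is the component of `A * B`
of degree `r + e` (`whc_mul_homog` in H27Mahler.Gain) and is nonzero, so `r + e ∈ yexp y (A * B)`; `e ↦ r + e` is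
injective. (`weight_single_dir`: the weight in the direction `Pi.single y 1` is `s y`.) -/
theorem card_yexp_le_mul {A B : MvPolynomial σ ℤ} (hA : A ≠ 0) (hB : B ≠ 0) {y : σ}
    (h : Pi.single y (1 : ℝ) ∈ HS A) : (yexp y B).card ≤ (yexp y (A * B)).card := by
  classical
  obtain ⟨s₀, hs₀⟩ := MvPolynomial.support_nonempty.mpr hA
  set r : ℤ := (s₀ y : ℤ) with hr
  have hhom : IsWeightedHomogeneous (Pi.single y (1 : ℤ)) A r := by
    intro d hd
    rw [weight_single_dir, hr, single_mem_HS_iff.mp h d (mem_support_iff.mpr hd) s₀ hs₀]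
  have key : ∀ e ∈ yexp y B, s₀ y + e ∈ yexp y (A * B) := by
    intro e he
    obtain ⟨s, hs, rfl⟩ := Finset.mem_image.mp he
    have hBe : weightedHomogeneousComponent (Pi.single y (1 : ℤ)) (s y : ℤ) B ≠ 0 := by
      intro h0
      have h1 := congrArg (coeff s) h0
      rw [coeff_weightedHomogeneousComponent, weight_single_dir, if_pos rfl, coeff_zero] at h1
      exact (mem_support_iff.mp hs) h1
    have h2 := whc_mul_homog (B := B) (c := (s y : ℤ)) hhom
    have h3 : weightedHomogeneousComponent (Pi.single y (1 : ℤ)) (r + (s y : ℤ)) (A * B) ≠ 0 := by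
      rw [h2]
      exact mul_ne_zero hA hBe
    obtain ⟨d, hd⟩ := MvPolynomial.support_nonempty.mpr h3
    rw [mem_support_iff, coeff_weightedHomogeneousComponent] at hd
    have h4 : weight (Pi.single y (1 : ℤ)) d = r + (s y : ℤ) := by
      by_contra hne
      rw [if_neg hne] at hd
      exact hd rfl
    rw [if_pos h4] at hd
    rw [weight_single_dir, hr] at h4
    refine Finset.mem_image.mpr ⟨d, mem_support_iff.mpr hd, ?_⟩
    exact_mod_cast h4
  exact Finset.card_le_card_of_injOn (fun e => s₀ y + e) (fun e he => key e he)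
    (fun a _ b _ hab => Nat.add_left_cancel hab)

/-- PROOF. The map `s ↦ (i ↦ s i)`, `i ∈ I`, from `H.support` to `∏_{i ∈ I} yexp i H` (`Finset.pi`) is injective, since
the exponents of the variables outside `I` are the same in all monomials (`single_mem_HS_iff`). -/
theorem card_support_le {H : MvPolynomial σ ℤ} (I : Finset σ) {m : ℕ}
    (h1 : ∀ i, i ∉ I → Pi.single i (1 : ℝ) ∈ HS H) (h2 : ∀ i ∈ I, (yexp i H).card ≤ m) :
    H.support.card ≤ m ^ I.card := by
  classical
  have hle : H.support.card ≤ (I.pi (fun i => yexp i H)).card := by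
    refine Finset.card_le_card_of_injOn (fun s i _ => s i) ?_ ?_
    · intro s hs
      rw [Finset.mem_coe, Finset.mem_pi]
      intro i _
      exact Finset.mem_image.mpr ⟨s, hs, rfl⟩
    · intro s hs s' hs' hss
      ext i
      by_cases hi : i ∈ I
      · exact congrFun (congrFun hss i) hi
      · exact single_mem_HS_iff.mp (h1 i hi) s hs s' hs'
  refine hle.trans ?_
  rw [Finset.card_pi]
  exact Finset.prod_le_pow_card _ _ _ h2

/-- PROOF. If all exponents of `y` were equal then (degree `≠ 0`) all would be nonzero, so `X y ∣ P` and `P` is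
associated to `X y` (see the proof of `mm_irreducible_of_X_dvd` in H27Mahler.Final), so `P` has one monomial and
`HS P = ⊤`. -/
theorem exists_zero_exponent {P : MvPolynomial σ ℤ} (hP : Irreducible P) {y : σ}
    (h0 : HS P ≠ ⊤) : ∃ s ∈ P.support, s y = 0 := by
  classical
  by_contra hcon
  push Not at hcon
  apply h0
  have hdvd : X y ∣ P := by
    rw [X_dvd_iff_modMonomial_eq_zero]
    ext d
    by_cases hd : Finsupp.single y 1 ≤ d
    · rw [coeff_modMonomial_of_le _ hd, coeff_zero]
    · rw [coeff_modMonomial_of_not_le _ hd, coeff_zero]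
      by_contra hne
      apply hd
      rw [Finsupp.single_le_iff]
      exact Nat.one_le_iff_ne_zero.mpr (hcon d (mem_support_iff.mpr hne))
  obtain ⟨G, hG⟩ := hdvd
  have hXu : ¬ IsUnit (X y : MvPolynomial σ ℤ) := by
    intro hu
    obtain ⟨v, hv⟩ := hu.exists_right_inv
    have := congrArg (MvPolynomial.eval (0 : σ → ℤ)) hv
    simp at this
  have hGu : IsUnit G := (hP.isUnit_or_isUnit hG).resolve_left hXu
  obtain ⟨u, hu, rfl⟩ := MvPolynomial.isUnit_iff_eq_C_of_isReduced.mp hGu
  have hsup : ∀ s ∈ P.support, s = Finsupp.single y 1 := by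
    intro s hs
    rw [hG, mul_comm, mem_support_iff, coeff_C_mul, coeff_X'] at hs
    by_contra hne
    rw [if_neg (fun h => hne h.symm), mul_zero] at hs
    exact hs rfl
  rw [eq_top_iff]
  intro x _
  intro s hs s' hs'
  rw [hsup s hs, hsup s' hs']

end Pool.Agent.SpCl
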