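import Pool.Agent.SpCl.B02Yexp

/-!
# Module B03Alpha: the factors containing one variable
-/

open Finsupp (weight)
open MvPolynomial MeasureTheory Pool.Agent.H27Mahler

namespace Pool.Agent.SpCl

namespace B03AlphaAux

variable {σ : Type} [Fintype σ] [DecidableEq σ]

theorem zero_exp_iff {B : MvPolynomial σ ℤ} (hB : B ≠ 0) (y : σ) :
    (∃ s ∈ B.support, s y = 0) ↔ minw (Pi.single y (1 : ℤ)) B = 0 := by
  constructor
  · rintro ⟨s, hs, h⟩
    refine le_antisymm ?_ ?_
    · have := minw_le (x := Pi.single y (1 : ℤ)) hs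
      rw [weight_single_dir, h] at this
      simpa using this
    · obtain ⟨s', hs', h'⟩ := exists_minw_eq (Pi.single y (1 : ℤ)) hB
      rw [h', weight_single_dir]
      exact Int.natCast_nonneg _
  · intro h
    obtain ⟨s', hs', h'⟩ := exists_minw_eq (Pi.single y (1 : ℤ)) hB
    refine ⟨s', hs', ?_⟩
    rw [h, weight_single_dir] at h'
    exact_mod_cast h'.symm

theorem zero_exp_mul {A B : MvPolynomial σ ℤ} {y : σ} (hA : ∃ s ∈ A.support, s y = 0)
    (hB : ∃ s ∈ B.support, s y = 0) : ∃ s ∈ (A * B).support, s y = 0 := by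
  have hA0 : A ≠ 0 := by
    rintro rfl
    obtain ⟨s, hs, -⟩ := hA
    simp at hs
  have hB0 : B ≠ 0 := by
    rintro rfl
    obtain ⟨s, hs, -⟩ := hB
    simp at hs
  rw [zero_exp_iff (mul_ne_zero hA0 hB0), minw_mul _ hA0 hB0, (zero_exp_iff hA0 y).mp hA,
    (zero_exp_iff hB0 y).mp hB, add_zero]

theorem degreeOf_of_dvd {P Q : MvPolynomial σ ℤ} (hQ : Q ≠ 0) (h : P ∣ Q) (y : σ)
    (h0 : Q.degreeOf y = 0) : P.degreeOf y = 0 := by
  obtain ⟨R, rfl⟩ := h
  have hP : P ≠ 0 := left_ne_zero_of_mul hQ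
  have hR : R ≠ 0 := right_ne_zero_of_mul hQ
  rw [degreeOf_mul_eq hP hR] at h0
  omega

theorem degreeOf_unit {P : MvPolynomial σ ℤ} (h : IsUnit P) (y : σ) : P.degreeOf y = 0 := by
  have h1 : P ∣ 1 := h.dvd
  exact degreeOf_of_dvd one_ne_zero h1 y (by rw [← C_1, degreeOf_C])

end B03AlphaAux

open B03AlphaAux

variable {σ : Type} [Fintype σ] [DecidableEq σ]

/-- PROOF. `WfDvdMonoid.induction_on_irreducible`. Unit: `A = F`, `B = 1`. `F = i * F'` with `F' = A * B`: if
`i.degreeOf y ≠ 0` and `HS i ≠ ⊤` put `i` into `B` (`exists_zero_exponent`: the product of two polynomials with a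
monomial without `y` has one: set `X y = 0`, or `minw` in the direction `Pi.single y 1` is additive and zero),
otherwise into `A` (`single_mem_HS_of_degreeOf`, `HS_mul`). An irreducible divisor of `B` is associated to one of its
irreducible factors (`Prime.dvd_or_dvd`), `degreeOf` is the same for associated polynomials. -/
theorem exists_split {F : MvPolynomial σ ℤ} (hF : F ≠ 0) (y : σ) :
    ∃ A B : MvPolynomial σ ℤ, F = A * B ∧ Pi.single y (1 : ℝ) ∈ HS A ∧ (∃ s ∈ B.support, s y = 0) ∧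
      (∀ P, Irreducible P → P ∣ B → P.degreeOf y ≠ 0) ∧
      (∀ P, Irreducible P → P ∣ F → P.degreeOf y ≠ 0 → HS P = ⊤ ∨ P ∣ B) := by
  refine WfDvdMonoid.induction_on_irreducible (motive := fun F => F ≠ 0 →
    ∃ A B : MvPolynomial σ ℤ, F = A * B ∧ Pi.single y (1 : ℝ) ∈ HS A ∧ (∃ s ∈ B.support, s y = 0) ∧
      (∀ P, Irreducible P → P ∣ B → P.degreeOf y ≠ 0) ∧
      (∀ P, Irreducible P → P ∣ F → P.degreeOf y ≠ 0 → HS P = ⊤ ∨ P ∣ B)) F ?_ ?_ ?_ hF
  · intro h
    exact absurd rfl h
  · intro u hu _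
    refine ⟨u, 1, (mul_one u).symm, single_mem_HS_of_degreeOf (degreeOf_unit hu y),
      ⟨0, by simp, rfl⟩, ?_, ?_⟩
    · intro P hP h
      exact absurd (isUnit_of_dvd_one h) hP.not_isUnit
    · intro P hP h
      exact absurd (isUnit_of_dvd_unit h hu) hP.not_isUnit
  · intro F' i hF' hi ih hne
    obtain ⟨A, B, hAB, hA, hB, hB1, hB2⟩ := ih hF'
    have hA0 : A ≠ 0 := by rintro rfl; rw [zero_mul] at hAB; exact hF' hAB
    by_cases hc : i.degreeOf y ≠ 0 ∧ HS i ≠ ⊤
    · refine ⟨A, i * B, by rw [hAB]; ring, hA, zero_exp_mul (exists_zero_exponent hi hc.2) hB, ?_, ?_⟩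
      · intro P hP h
        rcases hP.prime.dvd_or_dvd h with h1 | h1
        · intro h0
          have h2 : i ∣ P := (hP.associated_of_dvd hi h1).symm.dvd
          exact hc.1 (degreeOf_of_dvd hP.ne_zero h2 y h0)
        · exact hB1 P hP h1
      · intro P hP h hd
        rcases hP.prime.dvd_or_dvd h with h1 | h1
        · exact Or.inr (h1.mul_right B)
        · rcases hB2 P hP h1 hd with h2 | h2
          · exact Or.inl h2
          · exact Or.inr (h2.mul_left i)
    · refine ⟨i * A, B, by rw [hAB]; ring, ?_, hB, hB1, ?_⟩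
      · rw [HS_mul hi.ne_zero hA0]
        refine ⟨?_, hA⟩
        by_cases h0 : i.degreeOf y = 0
        · exact single_mem_HS_of_degreeOf h0
        · have h1 : HS i = ⊤ := by
            by_contra h2
            exact hc ⟨h0, h2⟩
          rw [h1]
          trivial
      · intro P hP h hd
        rcases hP.prime.dvd_or_dvd h with h1 | h1
        · left
          have h0 : i.degreeOf y ≠ 0 := fun h0 => hd (degreeOf_of_dvd hi.ne_zero h1 y h0)
          have h2 : HS i = ⊤ := by
            by_contra h2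
            exact hc ⟨h0, h2⟩
          have h3 := HS_le_of_dvd hi.ne_zero h1
          rw [h2] at h3
          exact top_le_iff.mp h3
        · exact hB2 P hP h1 hd

/-- THE RANK BOUND FOR THE FACTORS CONTAINING `y`.

PROOF. `F = A * B` as in `exists_split`, `W = HS B`. With `lam = Pi.single y (1:ℤ)`: `minw lam B = 0`, so
`face lam B` consists of the monomials without `y`: `(face lam B).degreeOf y = 0`. `IsRelPrime B (face lam B)`: if `d`
divides both and is not a unit, take an irreducible `P ∣ d` (`d ≠ 0`, `WfDvdMonoid.exists_irreducible_factor`):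
`P.degreeOf y ≠ 0`, but `P ∣ face lam B ≠ 0` gives `P.degreeOf y = 0` (`degreeOf_mul_eq`). By `card_yexp_le_mul` and
`wts_single`: `(wts lam B).card ≤ m`; `mm B ≤ mm F ≤ T` (`mm_mul`, `mm_nonneg`); so `LL_face_sparse` and
`finrank_coprime` (with `HS_le_HS_face`, `inf_eq_left`, see `finrank_sparse` in H27Mahler.Sparse) give the dimension
bound. The second claim: `P ∣ B` gives `HS B ≤ HS P` (`HS_le_of_dvd`). -/
theorem alpha {F : MvPolynomial σ ℤ} (hF : F ≠ 0) (y : σ) {m : ℕ} {T : ℝ}
    (hm : (yexp y F).card ≤ m) (hT : mm F ≤ T) :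
    ∃ W : Submodule ℝ (σ → ℝ), Fintype.card σ ≤ Module.finrank ℝ W +
        dimBound (Real.log 2 + 2 * (Real.log (m * 2 ^ m) + T)) ∧
      ∀ P, Irreducible P → P ∣ F → P.degreeOf y ≠ 0 → HS P = ⊤ ∨ W ≤ HS P := by
  classical
  obtain ⟨A, B, hAB, hA, hB, hB1, hB2⟩ := exists_split hF y
  have hA0 : A ≠ 0 := by rintro rfl; rw [zero_mul] at hAB; exact hF hAB
  have hB0 : B ≠ 0 := by rintro rfl; rw [mul_zero] at hAB; exact hF hAB
  set lam : σ → ℤ := Pi.single y (1 : ℤ) with hlam
  have hmin : minw lam B = 0 := (zero_exp_iff hB0 y).mp hB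
  have hf0 : face lam B ≠ 0 := face_ne_zero lam hB0
  have hdeg : (face lam B).degreeOf y = 0 := by
    rw [← Nat.le_zero, degreeOf_le_iff]
    intro s hs
    rw [mem_support_face, hmin, hlam, weight_single_dir] at hs
    have := hs.2
    omega
  have hrel : IsRelPrime B (face lam B) := by
    intro d hd1 hd2
    by_contra hu
    have hd0 : d ≠ 0 := by
      rintro rfl
      exact hB0 (zero_dvd_iff.mp hd1)
    obtain ⟨P, hP, hPd⟩ := WfDvdMonoid.exists_irreducible_factor hu hd0
    exact hB1 P hP (hPd.trans hd1) (degreeOf_of_dvd hf0 (hPd.trans hd2) y hdeg)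
  have hm' : (wts lam B).card ≤ m := by
    rw [hlam, wts_single]
    refine le_trans (card_yexp_le_mul hA0 hB0 hA) ?_
    rw [← hAB]
    exact hm
  have hT' : mm B ≤ T := by
    have h1 := mm_mul hA0 hB0
    rw [← hAB] at h1
    have h2 := mm_nonneg A
    linarith
  have h2 := finrank_coprime hB0 hf0 hrel
    (T := Real.log 2 + 2 * (Real.log (m * 2 ^ m) + T))
    ((LL_face_sparse lam m hB0 hm').trans (by linarith))
  rw [inf_eq_left.mpr (HS_le_HS_face lam B)] at h2
  refine ⟨HS B, h2, ?_⟩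
  intro P hP hPF hPd
  rcases hB2 P hP hPF hPd with h | h
  · exact Or.inl h
  · exact Or.inr (HS_le_of_dvd hB0 h)

end Pool.Agent.SpCl
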