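import Pool.Agent.SpCl.B01HS

/-!
# Module B04Ess: removing the inessential directions
-/

open Finsupp (weight)
open MvPolynomial MeasureTheory Pool.Agent.H27Mahler

namespace Pool.Agent.SpCl

variable {σ : Type} [Fintype σ] [DecidableEq σ]

/-- PROOF. `WfDvdMonoid.induction_on_irreducible`. Unit `u`: `face x u` divides ... (`face x u ≠ 0`, `0 ≤ mm (face x u) ≤
mm u = 0`, `mm_face_le`, `mm_nonneg`). `F = i * a`: `face x F = face x i * face x a` (`face_mul`); if `mm i ≠ 0` then
`face x i = i` (`mem_HS_iff`); if `mm i = 0` then `0 ≤ mm (face x i) ≤ mm i = 0`. -/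
theorem mm_face_eq {F : MvPolynomial σ ℤ} (hF : F ≠ 0) (x : σ → ℝ)
    (h : ∀ P, Irreducible P → P ∣ F → mm P ≠ 0 → x ∈ HS P) : mm (face x F) = mm F := by
  induction F using WfDvdMonoid.induction_on_irreducible with
  | zero => exact absurd rfl hF
  | unit u hu =>
    have h0 : mm u = 0 := mm_unit hu
    have h1 := mm_face_le x hF
    have h2 := mm_nonneg (face x u)
    rw [h0] at h1 ⊢
    exact le_antisymm h1 h2
  | mul a i ha hi ih =>
    have hi0 : i ≠ 0 := hi.ne_zero
    have hfi : face x i ≠ 0 := face_ne_zero x hi0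
    have hfa : face x a ≠ 0 := face_ne_zero x ha
    rw [face_mul, mm_mul hfi hfa, mm_mul hi0 ha,
      ih ha (fun P hP hPa hm => h P hP (hPa.mul_left i) hm)]
    congr 1
    by_cases hm : mm i = 0
    · have h1 := mm_face_le x hi0
      have h2 := mm_nonneg (face x i)
      rw [hm] at h1 ⊢
      exact le_antisymm h1 h2
    · rw [mem_HS_iff.mp (h i hi (dvd_mul_right i a) hm)]

/-- PROOF. Strong induction on `F.support.card`. If the last property fails for `F' = F`, there is `x ∉ HS F` with
`x ∈ HS P` for all essential factors; `face x F ≠ F` has fewer monomials (`support_face_subset`, `mem_HS_iff`) and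
the same measure (`mm_face_eq`): apply the induction hypothesis to `face x F`. -/
theorem exists_ess_support {F : MvPolynomial σ ℤ} (hF : F ≠ 0) :
    ∃ F' : MvPolynomial σ ℤ, F' ≠ 0 ∧ F'.support ⊆ F.support ∧ mm F' = mm F ∧
      ∀ x : σ → ℝ, (∀ P, Irreducible P → P ∣ F' → mm P ≠ 0 → x ∈ HS P) → x ∈ HS F' := by
  induction hn : F.support.card using Nat.strong_induction_on generalizing F with
  | _ n ih =>
    by_cases hc : ∀ x : σ → ℝ, (∀ P, Irreducible P → P ∣ F → mm P ≠ 0 → x ∈ HS P) → x ∈ HS F
    · exact ⟨F, hF, Finset.Subset.refl _, rfl, hc⟩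
    · push Not at hc
      obtain ⟨x, hx, hxF⟩ := hc
      have hsub : (face x F).support ⊆ F.support := support_face_subset x F
      have hne : face x F ≠ F := fun h => hxF (mem_HS_iff.mpr h)
      have hlt : (face x F).support.card < n := by
        rw [← hn]
        refine Finset.card_lt_card (Finset.ssubset_iff_subset_ne.mpr ⟨hsub, fun h => hne ?_⟩)
        ext d
        by_cases hd : d ∈ (face x F).support
        · exact coeff_face x F hd
        · rw [notMem_support_iff.mp hd]
          rw [h] at hd
          rw [notMem_support_iff.mp hd]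
      obtain ⟨F', h0, hs, hm, hp⟩ := ih _ hlt (face_ne_zero x hF) rfl
      exact ⟨F', h0, hs.trans hsub, hm.trans (mm_face_eq hF x hx), hp⟩

end Pool.Agent.SpCl
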