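import Mathlib

/-!
# Module C01Coords: linear algebra and combinatorics
-/

namespace Pool.Agent.SpCl

namespace C01CoordsAux

theorem coords_sub {σ : Type} [Fintype σ] [DecidableEq σ] (I : Finset σ) (K : ℕ) :
    ∀ V : Submodule ℝ (σ → ℝ), Module.finrank ℝ V ≤ K → ∃ E : Finset σ, E.card ≤ K ∧
      Disjoint E I ∧ ∀ v ∈ V, (∀ i ∈ E, v i = 0) → ∀ i, i ∉ I → v i = 0 := by
  induction K with
  | zero =>
    intro V hV
    refine ⟨∅, le_rfl, Finset.disjoint_empty_left _, fun v hv _ i _ => ?_⟩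
    have h1 : V = ⊥ := Submodule.finrank_eq_zero.1 (Nat.le_zero.1 hV)
    rw [h1, Submodule.mem_bot] at hv
    rw [hv]
    rfl
  | succ K ih =>
    intro V hV
    by_cases h : ∀ v ∈ V, ∀ i, i ∉ I → v i = 0
    · exact ⟨∅, Nat.zero_le _, Finset.disjoint_empty_left _, fun v hv _ => h v hv⟩
    · push Not at h
      obtain ⟨v, hv, i, hi, hvi⟩ := h
      have hlt : V ⊓ LinearMap.ker (LinearMap.proj (R := ℝ) (φ := fun _ : σ => ℝ) i) < V := by
        refine lt_of_le_of_ne inf_le_left fun he => hvi ?_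
        have h1 : v ∈ V ⊓ LinearMap.ker (LinearMap.proj (R := ℝ) (φ := fun _ : σ => ℝ) i) := by
          rw [he]
          exact hv
        exact LinearMap.mem_ker.1 (Submodule.mem_inf.1 h1).2
      have h2 := Submodule.finrank_lt_finrank_of_lt hlt
      obtain ⟨E, hE1, hE2, hE3⟩ := ih _ (by omega :
        Module.finrank ℝ ↥(V ⊓ LinearMap.ker (LinearMap.proj (R := ℝ) (φ := fun _ : σ => ℝ) i)) ≤ K)
      refine ⟨insert i E, (Finset.card_insert_le _ _).trans (Nat.succ_le_succ hE1), ?_,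
        fun w hw hw0 => ?_⟩
      · rw [Finset.disjoint_insert_left]
        exact ⟨hi, hE2⟩
      · refine hE3 w (Submodule.mem_inf.2 ⟨hw, LinearMap.mem_ker.2 ?_⟩) fun j hj =>
          hw0 j (Finset.mem_insert_of_mem hj)
        exact hw0 i (Finset.mem_insert_self _ _)

/-- the orthogonal complement for the dot product -/
def orth {σ : Type} [Fintype σ] (U : Submodule ℝ (σ → ℝ)) : Submodule ℝ (σ → ℝ) where
  carrier := {v | ∀ u ∈ U, ∑ i, u i * v i = 0}
  add_mem' := by
    intro v w hv hw u hu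
    have h1 : ∀ i, u i * (v + w) i = u i * v i + u i * w i := fun i => by
      rw [Pi.add_apply, mul_add]
    rw [Finset.sum_congr rfl fun i _ => h1 i, Finset.sum_add_distrib, hv u hu, hw u hu, add_zero]
  zero_mem' := by
    intro u _
    exact Finset.sum_eq_zero fun i _ => mul_zero _
  smul_mem' := by
    intro c v hv u hu
    have h1 : ∀ i, u i * (c • v) i = c * (u i * v i) := fun i => by
      rw [Pi.smul_apply, smul_eq_mul]
      ring
    rw [Finset.sum_congr rfl fun i _ => h1 i, ← Finset.mul_sum, hv u hu, mul_zero]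

theorem orth_finrank {σ : Type} [Fintype σ] (U : Submodule ℝ (σ → ℝ)) :
    Module.finrank ℝ U + Module.finrank ℝ (orth U) ≤ Fintype.card σ := by
  have hd : Disjoint U (orth U) := by
    rw [Submodule.disjoint_def]
    intro v hv hv'
    have h1 : ∑ i, v i * v i = 0 := hv' v hv
    have h2 := (Finset.sum_eq_zero_iff_of_nonneg fun i _ => mul_self_nonneg (v i)).1 h1
    funext i
    exact mul_self_eq_zero.1 (h2 i (Finset.mem_univ i))
  have h3 := Submodule.finrank_add_finrank_le_of_disjoint hd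
  rwa [Module.finrank_fintype_fun_eq_card] at h3

end C01CoordsAux

open C01CoordsAux in
/-- PROOF. Let `V = {v | ∀ u ∈ U, ∑ u i v i = 0}`; `finrank V = card σ - finrank U ≤ K` (dual annihilator /
orthogonal complement with respect to the dot product: `Matrix.dotProduct`, `LinearMap.BilinForm`, or
`Submodule.finrank_add_finrank_orthogonal` in `EuclideanSpace`, or `Module.Dual` and `dualAnnihilator`).
Then prove by induction on `K`: for every subspace `V` with `finrank V ≤ K` there is `E`, `E.card ≤ K`, disjoint from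
`I`, such that every `v ∈ V` vanishing on `E` vanishes outside `I`: if all `v ∈ V` vanish outside `I` take `E = ∅`;
otherwise some `v ∈ V`, `i ∉ I` with `v i ≠ 0`, the subspace `V' = {v ∈ V | v i = 0}` is smaller, `finrank V' ≤ K - 1`
(`Submodule.finrank_lt_finrank_of_lt`), `E = insert i E'`. -/
theorem exists_coords {σ : Type} [Fintype σ] [DecidableEq σ] (U : Submodule ℝ (σ → ℝ)) (K : ℕ)
    (hU : Fintype.card σ ≤ Module.finrank ℝ U + K) (I : Finset σ) :
    ∃ E : Finset σ, E.card ≤ K ∧ Disjoint E I ∧ ∀ v : σ → ℝ, (∀ u ∈ U, ∑ i, u i * v i = 0) →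
      (∀ i ∈ E, v i = 0) → ∀ i, i ∉ I → v i = 0 := by
  have h1 := orth_finrank U
  exact coords_sub I K (orth U) (by omega)

/-- INDEPENDENT SETS IN DIGRAPHS OF BOUNDED OUT-DEGREE.

PROOF. Strong induction on `𝒩.card`. `𝒩 = ∅`: `S = ∅`. Otherwise `∑_{b ∈ 𝒩} #{a ∈ 𝒩 | R a b} =
∑_{a ∈ 𝒩} #{b ∈ 𝒩 | R a b} ≤ d * 𝒩.card` (`Finset.sum_card_bipartiteAbove_eq_sum_card_bipartiteBelow`), so some
`b ∈ 𝒩` has at most `d` elements `a ∈ 𝒩` with `R a b`. Remove from `𝒩` the element `b`, these `a` and the (at most `d`)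
`c` with `R b c`: at most `2 d + 1` elements are removed; induct and add `b`. -/
theorem exists_indep {α : Type*} [DecidableEq α] (𝒩 : Finset α) (R : α → α → Prop) [DecidableRel R]
    (d : ℕ) (h : ∀ a ∈ 𝒩, (𝒩.filter (fun b => R a b)).card ≤ d) :
    ∃ S ⊆ 𝒩, 𝒩.card ≤ (2 * d + 1) * S.card ∧ ∀ a ∈ S, ∀ b ∈ S, a ≠ b → ¬ R a b := by
  induction hn : 𝒩.card using Nat.strong_induction_on generalizing 𝒩 with
  | _ n ih =>
    rcases 𝒩.eq_empty_or_nonempty with rfl | hne
    · refine ⟨∅, Finset.Subset.refl _, ?_, fun a ha => absurd ha (Finset.notMem_empty a)⟩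
      rw [← hn]
      exact Nat.zero_le _
    · obtain ⟨b, hb, hbd⟩ : ∃ b ∈ 𝒩, (𝒩.filter (fun a => R a b)).card ≤ d := by
        by_contra hcon
        push Not at hcon
        have h1 : ∑ b ∈ 𝒩, (𝒩.filter (fun a => R a b)).card
            = ∑ a ∈ 𝒩, (𝒩.filter (fun b => R a b)).card :=
          (Finset.sum_card_bipartiteAbove_eq_sum_card_bipartiteBelow R).symm
        have h2 : ∑ a ∈ 𝒩, (𝒩.filter (fun b => R a b)).card ≤ ∑ _a ∈ 𝒩, d :=
          Finset.sum_le_sum h
        have h3 : ∑ _b ∈ 𝒩, d < ∑ b ∈ 𝒩, (𝒩.filter (fun a => R a b)).card :=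
          Finset.sum_lt_sum_of_nonempty hne hcon
        omega
      set 𝒩' := 𝒩.filter (fun a => a ≠ b ∧ ¬ R a b ∧ ¬ R b a) with hN'
      have hsub : 𝒩' ⊆ 𝒩 := Finset.filter_subset _ _
      have hb' : b ∉ 𝒩' := fun h => (Finset.mem_filter.1 h).2.1 rfl
      have hlt : 𝒩'.card < n := by
        rw [← hn]
        exact Finset.card_lt_card ⟨hsub, fun h => hb' (h hb)⟩
      obtain ⟨S, hS1, hS2, hS3⟩ := ih 𝒩'.card hlt 𝒩' (fun a ha =>
        (Finset.card_le_card (Finset.filter_subset_filter _ hsub)).trans (h a (hsub ha))) rfl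
      have hbS : b ∉ S := fun h => hb' (hS1 h)
      refine ⟨insert b S, ?_, ?_, ?_⟩
      · intro a ha
        rcases Finset.mem_insert.1 ha with rfl | ha
        · exact hb
        · exact hsub (hS1 ha)
      · have h4 : 𝒩 ⊆ 𝒩' ∪ ({b} ∪ (𝒩.filter (fun a => R a b) ∪ 𝒩.filter (fun a => R b a))) := by
          intro a ha
          simp only [hN', Finset.mem_union, Finset.mem_filter, Finset.mem_singleton]
          tauto
        have h5 := Finset.card_le_card h4
        have h6 := Finset.card_union_le 𝒩'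
          ({b} ∪ (𝒩.filter (fun a => R a b) ∪ 𝒩.filter (fun a => R b a)))
        have h7 := Finset.card_union_le {b}
          (𝒩.filter (fun a => R a b) ∪ 𝒩.filter (fun a => R b a))
        have h8 := Finset.card_union_le (𝒩.filter (fun a => R a b)) (𝒩.filter (fun a => R b a))
        have h9 := h b hb
        rw [Finset.card_singleton] at h7
        rw [Finset.card_insert_of_notMem hbS, mul_add, mul_one, ← hn]
        omega
      · intro a ha c hc hac
        rcases Finset.mem_insert.1 ha with hab | ha'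
        · rcases Finset.mem_insert.1 hc with hcb | hc'
          · exact absurd (hab.trans hcb.symm) hac
          · rw [hab]
            exact (Finset.mem_filter.1 (hS1 hc')).2.2.2
        · rcases Finset.mem_insert.1 hc with hcb | hc'
          · rw [hcb]
            exact (Finset.mem_filter.1 (hS1 ha')).2.2.1
          · exact hS3 a ha' c hc' hac

/-- IRREDUNDANT FAMILIES.

PROOF. Let `ℬ ⊆ 𝒜` be minimal (for cardinality) with `⨅ a ∈ ℬ, U a = ⊥`. For `𝒞 ⊆ ℬ` induct on `𝒞`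
(`Finset.induction_on`): for `a ∉ 𝒞`, `insert a 𝒞 ⊆ ℬ`: `⨅_{𝒞 ∪ a} < ⨅_𝒞` strictly, since otherwise `⨅_𝒞 ≤ U a`, hence
`⨅_{ℬ \ a} ≤ ⨅_𝒞 ≤ U a` and `⨅_{ℬ \ a} = ⨅_ℬ = ⊥`, contradicting minimality; so the dimension drops by at least `1`.
`U a = ⊤` is impossible for `a ∈ ℬ` for the same reason. -/
theorem exists_irredundant {V : Type*} [AddCommGroup V] [Module ℝ V] [FiniteDimensional ℝ V]
    {α : Type*} [DecidableEq α] (𝒜 : Finset α) (U : α → Submodule ℝ V)
    (h : ⨅ a ∈ 𝒜, U a = ⊥) :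
    ∃ ℬ ⊆ 𝒜, ⨅ a ∈ ℬ, U a = ⊥ ∧
      (∀ 𝒞 ⊆ ℬ, Module.finrank ℝ ↥(⨅ a ∈ 𝒞, U a) + 𝒞.card ≤ Module.finrank ℝ V) ∧
      ∀ a ∈ ℬ, U a ≠ ⊤ := by
  classical
  have hne : (𝒜.powerset.filter (fun ℬ => ⨅ a ∈ ℬ, U a = ⊥)).Nonempty :=
    ⟨𝒜, Finset.mem_filter.2 ⟨Finset.mem_powerset.2 (Finset.Subset.refl _), h⟩⟩
  obtain ⟨ℬ, hℬ, hmin⟩ := Finset.exists_min_image _ Finset.card hne
  obtain ⟨hsub, hbot⟩ := Finset.mem_filter.1 hℬ
  have hsub' : ℬ ⊆ 𝒜 := Finset.mem_powerset.1 hsub
  have key : ∀ a ∈ ℬ, ¬ (⨅ b ∈ ℬ.erase a, U b) ≤ U a := by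
    intro a ha hle
    have h1 : ⨅ b ∈ ℬ.erase a, U b = ⊥ := by
      have h2 : ⨅ b ∈ ℬ, U b = U a ⊓ ⨅ b ∈ ℬ.erase a, U b := by
        rw [← Finset.iInf_insert, Finset.insert_erase ha]
      rw [hbot, inf_eq_right.2 hle] at h2
      exact h2.symm
    have h3 := hmin (ℬ.erase a) (Finset.mem_filter.2
      ⟨Finset.mem_powerset.2 ((Finset.erase_subset _ _).trans hsub'), h1⟩)
    have h4 := Finset.card_erase_lt_of_mem ha
    omega
  refine ⟨ℬ, hsub', hbot, ?_, fun a ha hta => key a ha (by rw [hta]; exact le_top)⟩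
  intro 𝒞 h𝒞
  induction 𝒞 using Finset.induction_on with
  | empty =>
    rw [Finset.card_empty, add_zero]
    exact Submodule.finrank_le _
  | insert a 𝒞 ha ih =>
    have h1 := ih fun b hb => h𝒞 (Finset.mem_insert_of_mem hb)
    have haℬ : a ∈ ℬ := h𝒞 (Finset.mem_insert_self _ _)
    rw [Finset.iInf_insert, Finset.card_insert_of_notMem ha]
    have hlt : U a ⊓ ⨅ b ∈ 𝒞, U b < ⨅ b ∈ 𝒞, U b := by
      refine lt_of_le_of_ne inf_le_right fun he => key a haℬ ?_
      have h2 : ⨅ b ∈ 𝒞, U b ≤ U a := by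
        rw [← he]
        exact inf_le_left
      refine le_trans (le_iInf₂ fun b hb => iInf₂_le b ?_) h2
      exact Finset.mem_erase.2 ⟨fun hba => ha (hba ▸ hb), h𝒞 (Finset.mem_insert_of_mem hb)⟩
    have h3 := Submodule.finrank_lt_finrank_of_lt hlt
    omega

end Pool.Agent.SpCl
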