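import Pool.Agent.SpCl.B02Yexp

/-!
# Module C04Block: independent blocks multiply the measure
-/

open Finsupp (weight)
open MvPolynomial MeasureTheory Pool.Agent.H27Mahler

namespace Pool.Agent.SpCl

variable {σ : Type} [Fintype σ] [DecidableEq σ]

namespace C04BlockAux

omit [DecidableEq σ] in
theorem weight_zero_on {lam lam₀ : σ → ℤ} {J : Finset σ} [DecidablePred (· ∉ J)]
    (h0 : ∀ i ∈ J, lam i = 0) (h1 : ∀ i, i ∉ J → lam i = lam₀ i) (s : σ →₀ ℕ) :
    weight lam s = weight lam₀ (s.filter (· ∉ J)) := by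
  rw [weight_eq_sum, weight_eq_sum]
  refine Finset.sum_congr rfl fun i _ => ?_
  by_cases hi : i ∈ J
  · rw [h0 i hi, Finsupp.filter_apply_neg (· ∉ J) s (by simpa using hi)]
    simp
  · rw [h1 i hi, Finsupp.filter_apply_pos (· ∉ J) s hi]

omit [Fintype σ] [DecidableEq σ] in
theorem degreeOf_unit {u : MvPolynomial σ ℤ} (hu : IsUnit u) (y : σ) : u.degreeOf y = 0 := by
  obtain ⟨r, -, rfl⟩ := isUnit_iff_eq_C_of_isReduced.mp hu
  exact degreeOf_C r y

omit [Fintype σ] [DecidableEq σ] in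
theorem degreeOf_assoc {P R : MvPolynomial σ ℤ} (h : Associated P R) (y : σ) :
    R.degreeOf y ≤ P.degreeOf y := by
  obtain ⟨u, rfl⟩ := h
  refine (degreeOf_mul_le y P u).trans ?_
  rw [degreeOf_unit u.isUnit, add_zero]

omit [DecidableEq σ] in
theorem face_zero_dir {P : MvPolynomial σ ℤ} {lam : σ → ℤ} (h : ∀ i ∈ P.vars, lam i = 0) :
    face lam P = P := by
  have h0 : ∀ s ∈ P.support, weight lam s = 0 := by
    intro s hs
    rw [weight_eq_sum]
    refine Finset.sum_eq_zero fun i _ => ?_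
    by_cases hi : i ∈ P.vars
    · rw [h i hi]; simp
    · have : s i = 0 := by
        by_contra hne
        exact hi ((mem_vars_iff_mem_support i).mpr ⟨s, hs, Finsupp.mem_support_iff.mpr hne⟩)
      rw [this]; simp
  rw [face_eq_self_iff]
  intro s hs s' hs'
  rw [h0 s hs, h0 s' hs']

omit [DecidableEq σ] in
theorem HS_one : HS (1 : MvPolynomial σ ℤ) = ⊤ := by
  rw [← C_1]; exact HS_C 1

omit [DecidableEq σ] in
theorem mem_HS_prod {ι : Type*} (S : Finset ι) (h : ι → MvPolynomial σ ℤ) (x : σ → ℝ)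
    (hx : ∀ Q ∈ S, x ∈ HS (h Q)) : x ∈ HS (∏ Q ∈ S, h Q) := by
  classical
  induction S using Finset.induction_on with
  | empty => rw [Finset.prod_empty, HS_one]; trivial
  | insert a S ha ih =>
    rw [Finset.prod_insert ha]
    exact HS_mul_ge _ _ ⟨hx a (Finset.mem_insert_self a S),
      ih fun Q hQ => hx Q (Finset.mem_insert_of_mem hQ)⟩

omit [DecidableEq σ] in
theorem mm_prod {ι : Type*} (S : Finset ι) (h : ι → MvPolynomial σ ℤ)
    (hx : ∀ Q ∈ S, h Q ≠ 0) : mm (∏ Q ∈ S, h Q) = ∑ Q ∈ S, mm (h Q) := by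
  classical
  induction S using Finset.induction_on with
  | empty => rw [Finset.prod_empty, Finset.sum_empty, mm_one]
  | insert a S ha ih =>
    rw [Finset.prod_insert ha, Finset.sum_insert ha, mm_mul (hx a (Finset.mem_insert_self a S)),
      ih fun Q hQ => hx Q (Finset.mem_insert_of_mem hQ)]
    exact Finset.prod_ne_zero_iff.mpr fun Q hQ => hx Q (Finset.mem_insert_of_mem hQ)

end C04BlockAux

open C04BlockAux

/-- an integer direction supported outside `J`, generic for `F`.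

PROOF. `exists_int_injective` for the finite set of the exponents `s.filter (· ∉ J)`, `s ∈ F.support`, gives `lam₀`;
`lam i = if i ∈ J then 0 else lam₀ i`, and `weight lam s = weight lam₀ (s.filter (· ∉ J))`. The face consists of
monomials of the same weight. -/
theorem exists_outer_direction (F : MvPolynomial σ ℤ) (J : Finset σ) :
    ∃ lam : σ → ℤ, (∀ i ∈ J, lam i = 0) ∧ ∀ i, i ∉ J → Pi.single i (1 : ℝ) ∈ HS (face lam F) := by
  obtain ⟨lam₀, hlam₀⟩ := exists_int_injective (F.support.image fun s => s.filter (· ∉ J))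
  let lam : σ → ℤ := fun i => if i ∈ J then 0 else lam₀ i
  have h0 : ∀ i ∈ J, lam i = 0 := fun i hi => if_pos hi
  have h1 : ∀ i, i ∉ J → lam i = lam₀ i := fun i hi => if_neg hi
  refine ⟨lam, h0, fun i hi => ?_⟩
  rw [single_mem_HS_iff]
  intro s hs s' hs'
  rw [mem_support_face] at hs hs'
  have h2 : weight lam₀ (s.filter (· ∉ J)) = weight lam₀ (s'.filter (· ∉ J)) := by
    rw [← weight_zero_on h0 h1, ← weight_zero_on h0 h1, hs.2, hs'.2]
  have h3 := hlam₀ _ (Finset.mem_image_of_mem _ hs.1) _ (Finset.mem_image_of_mem _ hs'.1) h2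
  have h4 := DFunLike.congr_fun h3 i
  rwa [Finsupp.filter_apply_pos (· ∉ J) s hi, Finsupp.filter_apply_pos (· ∉ J) s' hi] at h4

/-- the factorisation of the face of a divisor `G` of `F` along the blocks.

PROOF. `WfDvdMonoid.induction_on_irreducible` for `G` (statement: `G ≠ 0 → G ∣ F → ...`). Unit: `r = face lam G`,
`h = 1` (`face lam G ∣ ...`; `G` is a unit of `ℤ[..]`, so it is `±1`, `HS_eq_top_of_vars_empty`; an irreducible does not
divide a unit). `G = R * G'`, with `r', h'` for `G'`: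
if `R` meets no block (`∀ P ∈ 𝒮, ∀ y ∈ P.vars, R.degreeOf y = 0`) put `r = face lam R * r'`, `h = h'`:
`single_mem_HS_of_degreeOf`, `support_face_subset`; if `P ∈ 𝒮` divides `R * G'` but not `G'` then `P ∣ R`, so `P` and
`R` are associated, which is impossible since `P.vars` is nonempty and `R` does not contain these variables.
If `R.degreeOf y ≠ 0` for some `y ∈ P₀.vars`, `P₀ ∈ 𝒮`: put `h P₀ = face lam R * h' P₀`, the others and `r` unchanged:
monomials of `face lam R` agree outside all blocks (`hout` and `HS_le_of_dvd`: `face lam R ∣ face lam F`), so by `hE` they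
agree outside `P₀.vars`. For `P ∈ 𝒮` with `P ∣ R * G'`, `P ∤ G'`: `P ∣ R` is associated to `R`; if `P ≠ P₀` this
contradicts disjointness (`y ∈ P.vars`); if `P = P₀` then `face lam P₀ = P₀` (all weights zero) divides `face lam R`. -/
theorem exists_block_factors {F : MvPolynomial σ ℤ} (hF : F ≠ 0)
    (𝒮 : Finset (MvPolynomial σ ℤ)) (h1 : ∀ P ∈ 𝒮, Irreducible P ∧ P ∣ F)
    (hne : ∀ P ∈ 𝒮, P.vars.Nonempty)
    (hdisj : ∀ P ∈ 𝒮, ∀ Q ∈ 𝒮, P ≠ Q → Disjoint P.vars Q.vars)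
    (hE : ∀ P ∈ 𝒮, ∀ y ∈ P.vars, ∀ R, Irreducible R → R ∣ F → R.degreeOf y ≠ 0 →
      ∀ s ∈ R.support, ∀ s' ∈ R.support, (∀ i, (∀ Q ∈ 𝒮, i ∉ Q.vars) → s i = s' i) →
        ∀ i, i ∉ P.vars → s i = s' i)
    (lam : σ → ℤ) (hlam : ∀ P ∈ 𝒮, ∀ i ∈ P.vars, lam i = 0)
    (hout : ∀ i, (∀ Q ∈ 𝒮, i ∉ Q.vars) → Pi.single i (1 : ℝ) ∈ HS (face lam F)) :
    ∃ (h : MvPolynomial σ ℤ → MvPolynomial σ ℤ) (r : MvPolynomial σ ℤ),
      face lam F = r * ∏ P ∈ 𝒮, h P ∧ r ≠ 0 ∧ (∀ P ∈ 𝒮, h P ≠ 0) ∧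
      (∀ P ∈ 𝒮, ∀ i, i ∉ P.vars → Pi.single i (1 : ℝ) ∈ HS (h P)) ∧
      (∀ P ∈ 𝒮, ∀ i ∈ P.vars, Pi.single i (1 : ℝ) ∈ HS r) ∧
      (∀ P ∈ 𝒮, P ∣ h P) := by
  have key : ∀ G : MvPolynomial σ ℤ, G ≠ 0 → G ∣ F →
      ∃ (h : MvPolynomial σ ℤ → MvPolynomial σ ℤ) (r : MvPolynomial σ ℤ),
      face lam G = r * ∏ P ∈ 𝒮, h P ∧ r ≠ 0 ∧ (∀ P ∈ 𝒮, h P ≠ 0) ∧
      (∀ P ∈ 𝒮, ∀ i, i ∉ P.vars → Pi.single i (1 : ℝ) ∈ HS (h P)) ∧
      (∀ P ∈ 𝒮, ∀ i ∈ P.vars, Pi.single i (1 : ℝ) ∈ HS r) ∧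
      (∀ P ∈ 𝒮, P ∣ G → P ∣ h P) := by
    intro G
    induction G using WfDvdMonoid.induction_on_irreducible with
    | zero => exact fun h => absurd rfl h
    | unit u hu =>
      intro hu0 _
      have hHS : HS u = ⊤ := HS_eq_top_of_vars_empty fun i => degreeOf_unit hu i
      refine ⟨fun _ => 1, face lam u, by simp, face_ne_zero lam hu0, fun P _ => one_ne_zero,
        fun P _ i _ => ?_, fun P _ i _ => ?_, fun P hP hd => ?_⟩
      · rw [HS_one]; trivial
      · refine HS_le_HS_face lam u ?_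
        rw [hHS]; trivial
      · exact absurd (isUnit_of_dvd_unit hd hu) (h1 P hP).1.not_isUnit
    | mul G' R hG' hR ih =>
      intro hG hdvd
      obtain ⟨h', r', e1, e2, e3, e4, e5, e6⟩ := ih hG' ((dvd_mul_left G' R).trans hdvd)
      have hRF : R ∣ F := (dvd_mul_right R G').trans hdvd
      have hface : face lam R ∣ face lam F := by
        obtain ⟨K, hK⟩ := hRF
        exact ⟨face lam K, by rw [hK, face_mul]⟩
      have hfR : face lam R ≠ 0 := face_ne_zero lam hR.ne_zero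
      have hass : ∀ P ∈ 𝒮, P ∣ R → ∀ y ∈ P.vars, R.degreeOf y ≠ 0 := by
        intro P hP hd y hy h0
        have h2 := degreeOf_assoc (((h1 P hP).1.associated_of_dvd hR hd).symm) y
        rw [mem_vars_iff_degreeOf_ne_zero] at hy
        omega
      have hass' : ∀ P ∈ 𝒮, P ∣ R → ∀ y, R.degreeOf y ≠ 0 → y ∈ P.vars := by
        intro P hP hd y h0
        have h2 := degreeOf_assoc ((h1 P hP).1.associated_of_dvd hR hd) y
        rw [mem_vars_iff_degreeOf_ne_zero]
        omega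
      by_cases hmeet : ∀ P ∈ 𝒮, ∀ y ∈ P.vars, R.degreeOf y = 0
      · refine ⟨h', face lam R * r', ?_, mul_ne_zero hfR e2, e3, e4, fun P hP i hi => ?_,
          fun P hP hd => ?_⟩
        · rw [face_mul, e1, mul_assoc]
        · exact HS_mul_ge _ _ ⟨HS_le_HS_face lam R (single_mem_HS_of_degreeOf (hmeet P hP i hi)),
            e5 P hP i hi⟩
        · rcases (h1 P hP).1.prime.dvd_or_dvd hd with hd' | hd'
          · obtain ⟨y, hy⟩ := hne P hP
            exact absurd (hmeet P hP y hy) (hass P hP hd' y hy)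
          · exact e6 P hP hd'
      · push Not at hmeet
        obtain ⟨P₀, hP₀, y, hy, hdeg⟩ := hmeet
        refine ⟨fun P => (if P = P₀ then face lam R else 1) * h' P, r', ?_, e2, fun P hP => ?_,
          fun P hP i hi => ?_, e5, fun P hP hd => ?_⟩
        · rw [Finset.prod_mul_distrib, Finset.prod_ite_eq' , if_pos hP₀, face_mul, e1]
          ring
        · refine mul_ne_zero ?_ (e3 P hP)
          split_ifs
          · exact hfR
          · exact one_ne_zero
        · refine HS_mul_ge _ _ ⟨?_, e4 P hP i hi⟩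
          split_ifs with hPP
          · subst hPP
            refine single_mem_HS_iff.mpr ?_
            intro s hs s' hs'
            refine hE P hP₀ y hy R hR hRF hdeg s (support_face_subset lam R hs) s'
              (support_face_subset lam R hs') (fun j hj => ?_) i hi
            exact single_mem_HS_iff.mp (HS_le_of_dvd (face_ne_zero lam hF) hface (hout j hj))
              s hs s' hs'
          · rw [HS_one]; trivial
        · rcases (h1 P hP).1.prime.dvd_or_dvd hd with hd' | hd'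
          · have hyP : y ∈ P.vars := hass' P hP hd' y hdeg
            have hPP : P = P₀ := by
              by_contra hcon
              exact (Finset.disjoint_left.mp (hdisj P hP P₀ hP₀ hcon) hyP) hy
            show P ∣ (if P = P₀ then face lam R else 1) * h' P
            rw [if_pos hPP]
            refine Dvd.dvd.mul_right ?_ _
            obtain ⟨K, hK⟩ := hd'
            refine ⟨face lam K, ?_⟩
            rw [hK, face_mul, face_zero_dir (hlam P hP)]
          · exact Dvd.dvd.mul_left (e6 P hP hd') _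
  obtain ⟨h, r, e1, e2, e3, e4, e5, e6⟩ := key F hF dvd_rfl
  exact ⟨h, r, e1, e2, e3, e4, e5, fun P hP => e6 P hP (h1 P hP).2⟩

/-- BLOCK BOUND.

PROOF. `lam` from `exists_outer_direction` for `J = 𝒮.biUnion vars`, then `exists_block_factors`. For `P ∈ 𝒮`:
`face lam F = (r * ∏_{Q ∈ 𝒮.erase P} h Q) * h P` and for `y ∈ P.vars` the first factor is homogeneous in `y`
(`HS_mul`, `y ∉ Q.vars` for `Q ≠ P`), so `card_yexp_le_mul` gives `(yexp y (h P)).card ≤ (yexp y (face lam F)).card ≤ m`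
and `card_support_le` gives `(h P).support.card ≤ m ^ P.vars.card ≤ m ^ W` (`1 ≤ m`, since `P.vars` is nonempty and
`yexp y F` is nonempty). `P ∣ h P` and `mm P ≠ 0` give `mm (h P) ≥ mm P > 0` (`mm_mul`, `mm_nonneg`), so
`mm (h P) ≥ c` by `hc`. Finally `mm F ≥ mm (face lam F) = mm r + ∑ mm (h P) ≥ 𝒮.card * c` (`mm_face_le_int`). -/
theorem block_bound {F : MvPolynomial σ ℤ} (hF : F ≠ 0) {m W : ℕ} {c : ℝ}
    (hc : ∀ H : MvPolynomial σ ℤ, H ≠ 0 → H.support.card ≤ m ^ W → mm H = 0 ∨ c ≤ mm H)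
    (hm : ∀ y, (yexp y F).card ≤ m) (𝒮 : Finset (MvPolynomial σ ℤ))
    (h1 : ∀ P ∈ 𝒮, Irreducible P ∧ P ∣ F ∧ mm P ≠ 0) (hW : ∀ P ∈ 𝒮, P.vars.card ≤ W)
    (hne : ∀ P ∈ 𝒮, P.vars.Nonempty)
    (hdisj : ∀ P ∈ 𝒮, ∀ Q ∈ 𝒮, P ≠ Q → Disjoint P.vars Q.vars)
    (hE : ∀ P ∈ 𝒮, ∀ y ∈ P.vars, ∀ R, Irreducible R → R ∣ F → R.degreeOf y ≠ 0 →
      ∀ s ∈ R.support, ∀ s' ∈ R.support, (∀ i, (∀ Q ∈ 𝒮, i ∉ Q.vars) → s i = s' i) →
        ∀ i, i ∉ P.vars → s i = s' i) :
    (𝒮.card : ℝ) * c ≤ mm F := by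
  obtain ⟨lam, hl1, hl2⟩ := exists_outer_direction F (𝒮.biUnion fun P => P.vars)
  obtain ⟨h, r, e1, e2, e3, e4, e5, e6⟩ := exists_block_factors hF 𝒮
    (fun P hP => ⟨(h1 P hP).1, (h1 P hP).2.1⟩) hne hdisj hE lam
    (fun P hP i hi => hl1 i (Finset.mem_biUnion.mpr ⟨P, hP, hi⟩))
    (fun i hi => hl2 i fun hcon => by
      obtain ⟨P, hP, hiP⟩ := Finset.mem_biUnion.mp hcon
      exact hi P hP hiP)
  have hlow : ∀ P ∈ 𝒮, c ≤ mm (h P) := by
    intro P hP
    have hA : r * ∏ Q ∈ 𝒮.erase P, h Q ≠ 0 := mul_ne_zero e2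
      (Finset.prod_ne_zero_iff.mpr fun Q hQ => e3 Q (Finset.mem_of_mem_erase hQ))
    have hfac : face lam F = (r * ∏ Q ∈ 𝒮.erase P, h Q) * h P := by
      rw [e1, mul_assoc, Finset.prod_erase_mul _ _ hP]
    have hy : ∀ y ∈ P.vars, (yexp y (h P)).card ≤ m := by
      intro y hy
      have h2 : Pi.single y (1 : ℝ) ∈ HS (r * ∏ Q ∈ 𝒮.erase P, h Q) := by
        refine HS_mul_ge _ _ ⟨e5 P hP y hy, mem_HS_prod _ _ _ fun Q hQ => ?_⟩
        refine e4 Q (Finset.mem_of_mem_erase hQ) y fun hcon => ?_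
        exact (Finset.disjoint_left.mp (hdisj Q (Finset.mem_of_mem_erase hQ) P hP
          (Finset.ne_of_mem_erase hQ)) hcon) hy
      refine (card_yexp_le_mul hA (e3 P hP) h2).trans ?_
      rw [← hfac]
      exact (yexp_mono (support_face_subset lam F) y).trans (hm y)
    have h1m : 1 ≤ m := by
      obtain ⟨y, -⟩ := hne P hP
      refine le_trans ?_ (hm y)
      rw [Nat.one_le_iff_ne_zero, ← Nat.pos_iff_ne_zero, Finset.card_pos, yexp]
      exact (support_nonempty.mpr hF).image _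
    have hcard : (h P).support.card ≤ m ^ W :=
      (card_support_le P.vars (fun i hi => e4 P hP i hi) hy).trans
        (Nat.pow_le_pow_right h1m (hW P hP))
    obtain ⟨K, hK⟩ := e6 P hP
    have hP0 : P ≠ 0 := (h1 P hP).1.ne_zero
    have hK0 : K ≠ 0 := by
      rintro rfl
      rw [mul_zero] at hK
      exact e3 P hP hK
    have hmm : mm P ≤ mm (h P) := by
      rw [hK, mm_mul hP0 hK0]
      have := mm_nonneg K
      linarith
    have hpos : 0 < mm P := lt_of_le_of_ne (mm_nonneg P) (Ne.symm (h1 P hP).2.2)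
    rcases hc (h P) (e3 P hP) hcard with h2 | h2
    · linarith
    · exact h2
  have hsum : (𝒮.card : ℝ) * c ≤ ∑ P ∈ 𝒮, mm (h P) := by
    rw [← nsmul_eq_mul]
    exact Finset.card_nsmul_le_sum _ _ _ hlow
  have hface : mm (face lam F) = mm r + ∑ P ∈ 𝒮, mm (h P) := by
    rw [e1, mm_mul e2 (Finset.prod_ne_zero_iff.mpr e3), mm_prod _ _ e3]
  have h2 := mm_face_le_int lam hF
  have h3 := mm_nonneg r
  linarith

end Pool.Agent.SpCl
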