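import Pool.Agent.SpCl.C01Coords
import Pool.Agent.SpCl.C04Block
import Pool.Agent.SpCl.B03Alpha

/-!
# Module C05Rank: the rank bound
-/

open Finsupp (weight)
open MvPolynomial MeasureTheory Pool.Agent.H27Mahler

namespace Pool.Agent.SpCl

namespace C05RankAux

theorem mem_vars_iff {σ : Type*} {P : MvPolynomial σ ℤ} {y : σ} :
    y ∈ P.vars ↔ P.degreeOf y ≠ 0 := by
  classical
  rw [vars_def, degreeOf_def, Multiset.mem_toFinset, ← Multiset.count_ne_zero]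

theorem mm_eq_of_associated {σ : Type} [Fintype σ] {P Q : MvPolynomial σ ℤ} (h : Associated P Q)
    (hP : P ≠ 0) : mm Q = mm P := by
  obtain ⟨u, rfl⟩ := h
  rw [mm_mul hP u.ne_zero, mm_unit u.isUnit, add_zero]

end C05RankAux

open C05RankAux

/-- counting narrow sets.

PROOF. Double counting: `∑_{P ∈ ℬ} (v P).card = ∑_y #{P ∈ ℬ | y ∈ v P} ≤ K * card σ ≤ K * (K * ℬ.card)`. The `P` with
`(v P).card > 2 K^2` are at most `ℬ.card / 2` many: `#{..} * (2 K^2 + 1) ≤ K^2 * ℬ.card` (if `K = 0` the sum is `0`, so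
all `v P` are empty). -/
theorem narrow_count {σ α : Type*} [Fintype σ] [DecidableEq σ] [DecidableEq α] (ℬ : Finset α)
    (v : α → Finset σ) (K : ℕ) (hcard : Fintype.card σ ≤ K * ℬ.card)
    (hv : ∀ y, (ℬ.filter (fun P => y ∈ v P)).card ≤ K) :
    ℬ.card ≤ 2 * (ℬ.filter (fun P => (v P).card ≤ 2 * K ^ 2)).card := by
  have h1 : ∑ P ∈ ℬ, (v P).card = ∑ y : σ, (ℬ.filter (fun P => y ∈ v P)).card := by
    simp only [Finset.card_eq_sum_ones, Finset.sum_filter]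
    rw [Finset.sum_comm]
    refine Finset.sum_congr rfl fun P _ => ?_
    rw [← Finset.sum_filter]
    congr 1
    ext y
    simp
  have h2 : ∑ P ∈ ℬ, (v P).card ≤ Fintype.card σ * K := by
    rw [h1]
    refine (Finset.sum_le_card_nsmul _ _ K fun y _ => hv y).trans ?_
    simp
  have h3 : (ℬ.filter (fun P => ¬ (v P).card ≤ 2 * K ^ 2)).card * (2 * K ^ 2 + 1)
      ≤ ∑ P ∈ ℬ, (v P).card := by
    refine le_trans ?_ (Finset.sum_le_sum_of_subset
      (Finset.filter_subset (fun P => ¬ (v P).card ≤ 2 * K ^ 2) ℬ))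
    rw [← smul_eq_mul]
    refine Finset.card_nsmul_le_sum _ _ _ fun P hP => ?_
    have := (Finset.mem_filter.mp hP).2
    omega
  have h4 := Finset.card_filter_add_card_filter_not (s := ℬ) (fun P => (v P).card ≤ 2 * K ^ 2)
  set a := (ℬ.filter (fun P => (v P).card ≤ 2 * K ^ 2)).card
  set b := (ℬ.filter (fun P => ¬ (v P).card ≤ 2 * K ^ 2)).card
  have h5 : b * (2 * K ^ 2 + 1) ≤ K * ℬ.card * K :=
    h3.trans (h2.trans (Nat.mul_le_mul_right _ hcard))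
  rw [← h4] at h5 ⊢
  have h6 : b * (2 * K ^ 2 + 1) ≤ K ^ 2 * (a + b) := by
    refine h5.trans (le_of_eq ?_)
    ring
  by_contra hcon
  have h7 : a + 1 ≤ b := by omega
  nlinarith [Nat.mul_le_mul_left (K ^ 2) h7]

/-- the finite family of the essential irreducible factors.

PROOF. `UniqueFactorizationMonoid.factors F` (a multiset of irreducible factors; every irreducible divisor of `F ≠ 0` is
associated to one of them, `UniqueFactorizationMonoid.exists_mem_factors_of_dvd`), as a finset, filtered by `mm P ≠ 0`.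
If `P` and `Q` are associated then `HS P = HS Q` (`HS_le_of_dvd` twice) and `mm P = mm Q` (`mm_mul`, `mm_unit`). -/
theorem exists_ess_family {σ : Type} [Fintype σ] {F : MvPolynomial σ ℤ} (hF : F ≠ 0)
    (h : ∀ x : σ → ℝ, (∀ P, Irreducible P → P ∣ F → mm P ≠ 0 → x ∈ HS P) → x = 0) :
    ∃ 𝒜 : Finset (MvPolynomial σ ℤ), (∀ P ∈ 𝒜, Irreducible P ∧ P ∣ F ∧ mm P ≠ 0) ∧
      ⨅ P ∈ 𝒜, HS P = ⊥ := by
  classical
  refine ⟨(UniqueFactorizationMonoid.factors F).toFinset.filter (fun P => mm P ≠ 0), ?_, ?_⟩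
  · intro P hP
    rw [Finset.mem_filter, Multiset.mem_toFinset] at hP
    exact ⟨UniqueFactorizationMonoid.irreducible_of_factor P hP.1,
      UniqueFactorizationMonoid.dvd_of_mem_factors hP.1, hP.2⟩
  · rw [eq_bot_iff]
    intro x hx
    rw [Submodule.mem_bot]
    refine h x fun P hP hPF hmm => ?_
    obtain ⟨q, hq, hPq⟩ := UniqueFactorizationMonoid.exists_mem_factors_of_dvd hF hP hPF
    have hq0 : q ≠ 0 := (UniqueFactorizationMonoid.irreducible_of_factor q hq).ne_zero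
    have h1 : mm q = mm P := mm_eq_of_associated hPq hP.ne_zero
    have h2 : x ∈ HS q := by
      have h3 : (⨅ P ∈ (UniqueFactorizationMonoid.factors F).toFinset.filter
          (fun P => mm P ≠ 0), HS P) ≤ HS q := by
        refine iInf₂_le (f := fun P _ => HS P) q ?_
        rw [Finset.mem_filter, Multiset.mem_toFinset]
        exact ⟨hq, by rw [h1]; exact hmm⟩
      exact h3 hx
    exact HS_le_of_dvd hq0 hPq.dvd h2

/-- THE RANK BOUND (with an explicit `K₂ = dimBound ..` and the gap `c` for `m ^ (2 K₂^2)` monomials).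

PROOF. `K₂ = dimBound (log 2 + 2 (log (m 2^m) + T))`, `W = 2 K₂^2`, `d = (K₂ * W + W) * K₂`.
`𝒜` from `exists_ess_family`, `ℬ ⊆ 𝒜` from `exists_irredundant` (`V = σ → ℝ`, `U = HS`). For `P ∈ ℬ`: `HS P ≠ ⊤`, so
`P.vars` is nonempty (`HS_eq_top_of_vars_empty`; `mem_vars ↔ degreeOf ≠ 0`: `degreeOf_eq_zero_iff`,
`MvPolynomial.degreeOf_ne_zero...`). For every `y` let `W_y` be the subspace of `alpha`: `W_y ≤ HS P` for `P ∈ ℬ` with
`y ∈ P.vars`, `card σ ≤ finrank W_y + K₂`.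
(1) `card σ ≤ finrank (HS P) + K₂` for `P ∈ ℬ`, so `card σ ≤ K₂ * ℬ.card` by `finrank_iInf_ge` (H27Mahler.Irred).
(2) for every `y`, `𝒞 = {P ∈ ℬ | y ∈ P.vars}`: `W_y ≤ ⨅_{𝒞} HS P`, so `finrank W_y + 𝒞.card ≤ card σ ≤ finrank W_y + K₂`,
`𝒞.card ≤ K₂`.
(3) `narrow_count`: `ℬ.card ≤ 2 * 𝒩.card`, `𝒩 = {P ∈ ℬ | P.vars.card ≤ W}`.
(4) for `P ∈ 𝒩`, `y ∈ P.vars` let `E_{P,y}` be the set of `exists_coords` for `W_y`, `K₂`, `I = P.vars`;
`Z_P = P.vars ∪ ⋃_{y ∈ P.vars} E_{P,y}`, `Z_P.card ≤ W + W K₂`.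
(5) `R P Q := ¬ Disjoint Z_P Q.vars`; for `P ∈ 𝒩`: `#{Q ∈ 𝒩 | R P Q} ≤ ∑_{z ∈ Z_P} #{Q | z ∈ Q.vars} ≤ d`. `exists_indep`:
`S ⊆ 𝒩`, `𝒩.card ≤ (2 d + 1) S.card`, and `Z_P` is disjoint from `Q.vars` for `P ≠ Q` in `S`.
(6) hypotheses of `block_bound`: disjointness since `P.vars ⊆ Z_P`. `hE`: `P ∈ S`, `y ∈ P.vars`, `R` irreducible,
`R ∣ F`, `R.degreeOf y ≠ 0`, `s, s' ∈ R.support` with `s i = s' i` for all `i` outside all `Q.vars`, `Q ∈ S`. By `alpha`
`HS R = ⊤` (then `s = s'` by `single_mem_HS_iff`) or `W_y ≤ HS R`; then `v i = s i - s' i` satisfies `∑ u i * v i = 0` for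
`u ∈ W_y` (`mem_HS`, `weight_eq_sum`) and `v i = 0` for `i ∈ E_{P,y}` (such `i` is in no `Q.vars`: for `Q = P` by
`Disjoint E I`, for `Q ≠ P` by disjointness of `Z_P`), so `v i = 0` for `i ∉ P.vars`.
(7) `S.card * c ≤ mm F ≤ T`, so `S.card ≤ ⌊T/c⌋` and
`card σ ≤ K₂ ℬ.card ≤ 2 K₂ 𝒩.card ≤ 2 K₂ (2 d + 1) S.card ≤ 2 K₂ (2 d + 1) ⌊T/c⌋₊`. -/
theorem rank_bound_aux {σ : Type} [Fintype σ] [DecidableEq σ] {F : MvPolynomial σ ℤ} (hF : F ≠ 0)
    {m K₂ : ℕ} {T c : ℝ} (hK₂ : K₂ = dimBound (Real.log 2 + 2 * (Real.log (m * 2 ^ m) + T)))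
    (hc0 : 0 < c) (hc : ∀ H : MvPolynomial σ ℤ, H ≠ 0 → H.support.card ≤ m ^ (2 * K₂ ^ 2) →
      mm H = 0 ∨ c ≤ mm H) (hm : ∀ y, (yexp y F).card ≤ m) (hT : mm F ≤ T)
    (hess : ∀ x : σ → ℝ, (∀ P, Irreducible P → P ∣ F → mm P ≠ 0 → x ∈ HS P) → x = 0) :
    Fintype.card σ ≤ 2 * K₂ * (2 * ((K₂ * (2 * K₂ ^ 2) + 2 * K₂ ^ 2) * K₂) + 1) * ⌊T / c⌋₊ := by
  classical
  obtain ⟨𝒜, h𝒜, h𝒜bot⟩ := exists_ess_family hF hess
  obtain ⟨ℬ, hℬ𝒜, hℬbot, hℬdim, hℬtop⟩ := exists_irredundant 𝒜 (fun P => HS P) h𝒜bot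
  have hℬ : ∀ P ∈ ℬ, Irreducible P ∧ P ∣ F ∧ mm P ≠ 0 := fun P hP => h𝒜 P (hℬ𝒜 hP)
  have hfin : Module.finrank ℝ (σ → ℝ) = Fintype.card σ := Module.finrank_pi ℝ
  have hne : ∀ P ∈ ℬ, P.vars.Nonempty := by
    intro P hP
    by_contra hcon
    rw [Finset.not_nonempty_iff_eq_empty] at hcon
    refine hℬtop P hP (HS_eq_top_of_vars_empty fun i => ?_)
    by_contra h
    have h1 : i ∈ P.vars := mem_vars_iff.mpr h
    rw [hcon] at h1
    simp at h1
  choose Wy hWdim hWle using fun y => alpha hF y (hm y) hT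
  simp only [← hK₂] at hWdim
  have hWP : ∀ P ∈ ℬ, ∀ y ∈ P.vars, Wy y ≤ HS P := by
    intro P hP y hy
    rcases hWle y P (hℬ P hP).1 (hℬ P hP).2.1 (mem_vars_iff.mp hy) with h | h
    · exact absurd h (hℬtop P hP)
    · exact h
  -- (1)
  have hcard1 : Fintype.card σ ≤ K₂ * ℬ.card := by
    have h1 := finrank_iInf_ge ℬ (fun P => HS P) K₂ (fun P hP => by
      obtain ⟨y, hy⟩ := hne P hP
      have h2 := Submodule.finrank_mono (hWP P hP y hy)
      have h3 := hWdim y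
      rw [hfin]
      omega)
    rw [hℬbot, finrank_bot, hfin] at h1
    rw [mul_comm]
    omega
  -- (2)
  have hcard2 : ∀ y, (ℬ.filter (fun P => y ∈ P.vars)).card ≤ K₂ := by
    intro y
    have h1 := hℬdim (ℬ.filter (fun P => y ∈ P.vars)) (Finset.filter_subset _ _)
    have h2 : Wy y ≤ ⨅ a ∈ ℬ.filter (fun P => y ∈ P.vars), HS a := by
      refine le_iInf₂ fun P hP => ?_
      rw [Finset.mem_filter] at hP
      exact hWP P hP.1 y hP.2
    have h3 := Submodule.finrank_mono h2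
    have h4 := hWdim y
    rw [hfin] at h1
    omega
  -- (3)
  have hcard3 := narrow_count ℬ (fun P => P.vars) K₂ hcard1 hcard2
  set 𝒩 := ℬ.filter (fun P => P.vars.card ≤ 2 * K₂ ^ 2) with h𝒩
  -- (4)
  choose E hEcard hEdisj hE using
    fun (P : MvPolynomial σ ℤ) (y : σ) => exists_coords (Wy y) K₂ (hWdim y) P.vars
  set Z : MvPolynomial σ ℤ → Finset σ := fun P => P.vars ∪ P.vars.biUnion (E P) with hZ
  have hZcard : ∀ P ∈ 𝒩, (Z P).card ≤ 2 * K₂ ^ 2 + 2 * K₂ ^ 2 * K₂ := by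
    intro P hP
    have h1 : P.vars.card ≤ 2 * K₂ ^ 2 := (Finset.mem_filter.mp hP).2
    refine (Finset.card_union_le _ _).trans (Nat.add_le_add h1 ?_)
    refine (Finset.card_biUnion_le_card_mul _ _ K₂ fun y _ => hEcard P y).trans ?_
    exact Nat.mul_le_mul_right _ h1
  -- (5)
  have hdeg : ∀ P ∈ 𝒩, (𝒩.filter (fun Q => ¬ Disjoint (Z P) Q.vars)).card ≤
      (K₂ * (2 * K₂ ^ 2) + 2 * K₂ ^ 2) * K₂ := by
    intro P hP
    have h1 : 𝒩.filter (fun Q => ¬ Disjoint (Z P) Q.vars) ⊆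
        (Z P).biUnion (fun z => ℬ.filter (fun Q => z ∈ Q.vars)) := by
      intro Q hQ
      rw [Finset.mem_filter, Finset.not_disjoint_iff] at hQ
      obtain ⟨hQ1, z, hz1, hz2⟩ := hQ
      rw [Finset.mem_biUnion]
      exact ⟨z, hz1, Finset.mem_filter.mpr ⟨(Finset.mem_filter.mp hQ1).1, hz2⟩⟩
    refine (Finset.card_le_card h1).trans ?_
    refine (Finset.card_biUnion_le_card_mul _ _ K₂ fun z _ => hcard2 z).trans ?_
    refine Nat.mul_le_mul_right _ ((hZcard P hP).trans (le_of_eq ?_))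
    ring
  obtain ⟨S, hS𝒩, hScard, hSdisj⟩ := exists_indep 𝒩 (fun P Q => ¬ Disjoint (Z P) Q.vars) _ hdeg
  have hSℬ : ∀ P ∈ S, P ∈ ℬ := fun P hP => (Finset.mem_filter.mp (hS𝒩 hP)).1
  have hdj : ∀ P ∈ S, ∀ Q ∈ S, P ≠ Q → Disjoint (Z P) Q.vars :=
    fun P hP Q hQ hPQ => not_not.mp (hSdisj P hP Q hQ hPQ)
  -- (6)
  have hblock : (S.card : ℝ) * c ≤ mm F := by
    refine block_bound hF hc hm S (fun P hP => hℬ P (hSℬ P hP))
      (fun P hP => (Finset.mem_filter.mp (hS𝒩 hP)).2) (fun P hP => hne P (hSℬ P hP))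
      (fun P hP Q hQ hPQ => (hdj P hP Q hQ hPQ).mono_left Finset.subset_union_left) ?_
    intro P hP y hy R hR hRF hRy s hs s' hs' hss i hi
    rcases hWle y R hR hRF hRy with h | h
    · have h1 : Pi.single i (1 : ℝ) ∈ HS R := by rw [h]; trivial
      exact single_mem_HS_iff.mp h1 s hs s' hs'
    · have h1 := hE P y (fun i => (s i : ℝ) - s' i) (fun u hu => by
        have h2 := mem_HS.mp (h hu) s hs s' hs'
        rw [weight_eq_sum, weight_eq_sum] at h2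
        rw [← sub_eq_zero, ← Finset.sum_sub_distrib] at h2
        rw [← h2]
        refine Finset.sum_congr rfl fun i _ => ?_
        ring) (fun j hj => by
        have h3 : s j = s' j := by
          refine hss j fun Q hQ => ?_
          by_cases hPQ : P = Q
          · subst hPQ
            exact Finset.disjoint_left.mp (hEdisj P y) hj
          · refine Finset.disjoint_left.mp (hdj P hP Q hQ hPQ) ?_
            exact Finset.mem_union_right _ (Finset.mem_biUnion.mpr ⟨y, hy, hj⟩)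
        simp [h3]) i hi
      have h2 : (s i : ℝ) = s' i := by
        simpa [sub_eq_zero] using h1
      exact_mod_cast h2
  -- (7)
  have hSle : S.card ≤ ⌊T / c⌋₊ := by
    refine Nat.le_floor ?_
    rw [le_div_iff₀ hc0]
    exact hblock.trans hT
  set d := (K₂ * (2 * K₂ ^ 2) + 2 * K₂ ^ 2) * K₂ with hd
  calc Fintype.card σ ≤ K₂ * ℬ.card := hcard1
    _ ≤ K₂ * (2 * 𝒩.card) := Nat.mul_le_mul_left _ hcard3
    _ ≤ K₂ * (2 * ((2 * d + 1) * S.card)) :=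
        Nat.mul_le_mul_left _ (Nat.mul_le_mul_left _ hScard)
    _ ≤ K₂ * (2 * ((2 * d + 1) * ⌊T / c⌋₊)) :=
        Nat.mul_le_mul_left _ (Nat.mul_le_mul_left _ (Nat.mul_le_mul_left _ hSle))
    _ = 2 * K₂ * (2 * d + 1) * ⌊T / c⌋₊ := by ring

end Pool.Agent.SpCl
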