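import Mathlib
import Pool.Agent.H27Mahler.SparseFinal

/-!
# Closedness for polynomials that are sparse in every variable: basic definitions

`pl a s = ∑ a_i z^{s_i}`.
-/

open Finsupp (weight)
open MvPolynomial MeasureTheory Pool.Agent.H27Mahler

namespace Pool.Agent.SpCl

/-- the polynomial `∑ a_i z^{s_i}` -/
noncomputable def pl {σ ι : Type*} [Fintype ι] (a : ι → ℤ) (s : ι → (σ →₀ ℕ)) :
    MvPolynomial σ ℤ := ∑ i, monomial (s i) (a i)

section

variable {σ ι : Type*} [Fintype ι] {a : ι → ℤ} {s : ι → (σ →₀ ℕ)}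

theorem coeff_pl (hs : Function.Injective s) (i : ι) : coeff (s i) (pl a s) = a i := by
  classical
  rw [pl, coeff_sum, Finset.sum_eq_single i]
  · rw [coeff_monomial, if_pos rfl]
  · intro j _ hj
    rw [coeff_monomial, if_neg (fun h => hj (hs h))]
  · intro h; exact absurd (Finset.mem_univ i) h

theorem coeff_pl_of_notMem {d : σ →₀ ℕ} (h : ∀ i, s i ≠ d) : coeff d (pl a s) = 0 := by
  classical
  rw [pl, coeff_sum]
  refine Finset.sum_eq_zero fun i _ => ?_
  rw [coeff_monomial, if_neg (h i)]

theorem support_pl [DecidableEq σ] (hs : Function.Injective s) (ha : ∀ i, a i ≠ 0) :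
    (pl a s).support = Finset.univ.image s := by
  ext d
  rw [mem_support_iff, Finset.mem_image]
  constructor
  · intro h
    by_contra hcon
    push Not at hcon
    exact h (coeff_pl_of_notMem fun i => hcon i (Finset.mem_univ i))
  · rintro ⟨i, -, rfl⟩
    rw [coeff_pl hs]
    exact ha i

theorem mem_support_pl (hs : Function.Injective s) (ha : ∀ i, a i ≠ 0) (i : ι) :
    s i ∈ (pl a s).support := by
  rw [mem_support_iff, coeff_pl hs]
  exact ha i

theorem pl_ne_zero [Nonempty ι] (hs : Function.Injective s) (ha : ∀ i, a i ≠ 0) : pl a s ≠ 0 := by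
  intro h
  have i : ι := Classical.arbitrary ι
  have := coeff_pl (a := a) hs i
  rw [h, coeff_zero] at this
  exact ha i this.symm

theorem card_support_pl (hs : Function.Injective s) (ha : ∀ i, a i ≠ 0) :
    (pl a s).support.card = Fintype.card ι := by
  classical
  rw [support_pl hs ha, Finset.card_image_of_injective _ hs, Finset.card_univ]

theorem yexp_pl (hs : Function.Injective s) (ha : ∀ i, a i ≠ 0) (y : σ) :
    yexp y (pl a s) = Finset.univ.image (fun i => s i y) := by
  classical
  rw [yexp, support_pl hs ha, Finset.image_image]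
  rfl

/-- every polynomial is of this form -/
theorem exists_pl (F : MvPolynomial σ ℤ) : ∃ (a : Fin F.support.card → ℤ)
    (s : Fin F.support.card → (σ →₀ ℕ)), Function.Injective s ∧ (∀ i, a i ≠ 0) ∧ F = pl a s := by
  classical
  let e : Fin F.support.card ≃ F.support := F.support.equivFin.symm
  refine ⟨fun i => coeff (e i : σ →₀ ℕ) F, fun i => (e i : σ →₀ ℕ), ?_, ?_, ?_⟩
  · exact fun i j h => e.injective (Subtype.ext h)
  · exact fun i => mem_support_iff.mp (e i).2
  · rw [pl]
    conv_lhs => rw [F.as_sum]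
    rw [← Finset.sum_coe_sort F.support (fun v => monomial v (coeff v F))]
    exact (Equiv.sum_comp e (fun d : F.support => monomial (d : σ →₀ ℕ) (coeff (d : σ →₀ ℕ) F))).symm

end

theorem ev_pl {σ ι : Type*} [Fintype σ] [Fintype ι] (a : ι → ℤ) (s : ι → (σ →₀ ℕ)) (t : Tor σ) :
    ev t (pl a s) = ∑ i, (a i : ℂ) * mon t (s i) := by
  rw [pl, map_sum]
  refine Finset.sum_congr rfl fun i _ => ?_
  simp only [ev, coe_eval₂Hom, eval₂_monomial, eq_intCast, mon]
  congr 1
  exact Finsupp.prod_fintype _ _ (by simp)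

theorem mon_add {σ : Type*} [Fintype σ] (t : Tor σ) (s s' : σ →₀ ℕ) :
    mon t (s + s') = mon t s * mon t s' := by
  simp [mon, pow_add, Finset.prod_mul_distrib]

theorem mon_add_pt {σ : Type*} [Fintype σ] (t τ : Tor σ) (s : σ →₀ ℕ) :
    mon (t + τ) s = mon t s * mon τ s := by
  simp [mon, AddCircle.toCircle_add, mul_pow, Finset.prod_mul_distrib]

theorem mon_zero {σ : Type*} [Fintype σ] (t : Tor σ) : mon t 0 = 1 := by
  simp [mon]

theorem mon_sum {σ κ : Type*} [Fintype σ] (t : Tor σ) (u : Finset κ) (s : κ → (σ →₀ ℕ)) :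
    mon t (∑ r ∈ u, s r) = ∏ r ∈ u, mon t (s r) := by
  classical
  induction u using Finset.induction_on with
  | empty => simp [mon_zero]
  | insert b u hb ih => rw [Finset.sum_insert hb, Finset.prod_insert hb, mon_add, ih]

theorem continuous_mon {σ : Type*} [Fintype σ] (s : σ →₀ ℕ) : Continuous fun t : Tor σ => mon t s := by
  simp only [mon]
  have := AddCircle.continuous_toCircle (T := (1:ℝ))
  fun_prop

end Pool.Agent.SpCl
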