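import Pool.Agent.SpCl.A15Gap
import Pool.Agent.SpCl.C05Rank

/-!
# Module E01Bounded: bounded number of variables
-/

open MvPolynomial MeasureTheory Pool.Agent.H27Mahler

namespace Pool.Agent.SpCl

namespace E01BoundedAux

theorem embed {σ : Type} [Fintype σ] {K m : ℕ} (hm : 1 ≤ m) (hK : Fintype.card σ ≤ K)
    {F : MvPolynomial σ ℤ} (hF : F ≠ 0) (hy : ∀ y, (yexp y F).card ≤ m) :
    ∃ G : MvPolynomial (Fin K) ℤ, G ≠ 0 ∧ (∀ y, (yexp y G).card ≤ m) ∧ mm G = mm F := by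
  classical
  have : Nonempty (σ ↪ Fin K) := by
    rw [Function.Embedding.nonempty_iff_card_le, Fintype.card_fin]
    exact hK
  obtain ⟨f⟩ := this
  refine ⟨rename f F, ?_, ?_, mm_rename f f.injective F⟩
  · rw [Ne, ← map_zero (rename f), (rename_injective _ f.injective).eq_iff]
    exact hF
  · intro i
    unfold yexp
    rw [support_rename_of_injective f.injective, Finset.image_image]
    by_cases hi : ∃ i0, f i0 = i
    · obtain ⟨i0, rfl⟩ := hi
      refine le_trans (le_of_eq ?_) (hy i0)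
      unfold yexp
      congr 1
      refine Finset.image_congr fun s _ => ?_
      simp [Finsupp.mapDomain_apply f.injective]
    · refine le_trans (Finset.card_le_card (t := {0}) ?_) (by simpa using hm)
      intro n hn
      obtain ⟨s, _, rfl⟩ := Finset.mem_image.1 hn
      rw [Finset.mem_singleton]
      simp only [Function.comp_apply]
      exact Finsupp.mapDomain_of_notMem_range _ _ (by simpa using hi)

end E01BoundedAux

/-- PROOF. `exists_ess`, `rank_bound_aux` with the `c` of `gap (m ^ (2 K₂^2))`; then `rename` along an embedding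
`τ ↪ Fin K` (`mm_rename`, `support_rename_of_injective`; the exponents of a new variable are `{0}`, one element, and
`1 ≤ m`; those of an old variable are the same, see `reduce_vars` in H27Mahler.Elim for the argument). -/
theorem bounded_variables (m : ℕ) (hm : 1 ≤ m) (T : ℝ) : ∃ K : ℕ, ∀ (σ : Type) [Fintype σ]
    (F : MvPolynomial σ ℤ), F ≠ 0 → (∀ y, (yexp y F).card ≤ m) → mm F ≤ T →
    ∃ G : MvPolynomial (Fin K) ℤ, G ≠ 0 ∧ (∀ y, (yexp y G).card ≤ m) ∧ mm G = mm F := by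
  classical
  obtain ⟨K₂, hK₂⟩ : ∃ K₂, K₂ = dimBound (Real.log 2 + 2 * (Real.log (m * 2 ^ m) + T)) := ⟨_, rfl⟩
  obtain ⟨c, hc0, hc⟩ := gap (m ^ (2 * K₂ ^ 2))
  refine ⟨2 * K₂ * (2 * ((K₂ * (2 * K₂ ^ 2) + 2 * K₂ ^ 2) * K₂) + 1) * ⌊T / c⌋₊,
    fun σ _ F hF hy hT => ?_⟩
  obtain ⟨τ, hτ, G, hG0, hGm, hGy, hess⟩ := exists_ess hF hy
  obtain ⟨G', h1, h2, h3⟩ := E01BoundedAux.embed hm
    (rank_bound_aux hG0 hK₂ hc0 (fun H hH0 hH => hc τ H hH0 hH) hGy (hGm.le.trans hT) hess)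
    hG0 hGy
  exact ⟨G', h1, h2, h3.trans hGm⟩

/-- PROOF. `card_support_le` with `I = univ`. -/
theorem card_support_le_pow {K m : ℕ} {G : MvPolynomial (Fin K) ℤ}
    (h : ∀ y, (yexp y G).card ≤ m) : G.support.card ≤ m ^ K := by
  have := card_support_le (H := G) Finset.univ (m := m)
    (fun i hi => absurd (Finset.mem_univ i) hi) (fun i _ => h i)
  simpa using this

/-- 1 is isolated.

PROOF. `bounded_variables m hm 1`, `card_support_le_pow`, `gap (m ^ K)` with constant `c`: take `min c 1`. -/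
theorem gap_sparse (m : ℕ) (hm : 1 ≤ m) : ∃ c : ℝ, 0 < c ∧ ∀ (σ : Type) [Fintype σ]
    (F : MvPolynomial σ ℤ), F ≠ 0 → (∀ y, (yexp y F).card ≤ m) → mm F = 0 ∨ c ≤ mm F := by
  obtain ⟨K, hK⟩ := bounded_variables m hm 1
  obtain ⟨c, hc0, hc⟩ := gap (m ^ K)
  refine ⟨min c 1, lt_min hc0 one_pos, fun σ _ F hF hy => ?_⟩
  by_cases h1 : mm F ≤ 1
  · obtain ⟨G, hG0, hGy, hGm⟩ := hK σ F hF hy h1
    rcases hc (Fin K) G hG0 (card_support_le_pow hGy) with h | h
    · left; rw [← hGm]; exact h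
    · right; rw [← hGm]; exact (min_le_left _ _).trans h
  · right
    exact (min_le_right _ _).trans (not_le.1 h1).le

/-- PROOF. Let `x` be in the closure; `v n → x` with `v n = mm (F n)`, `v n ≤ x + 1` (for all `n`, by passing to the
tail). `bounded_variables` with `T = x + 1` gives `G n : MvPolynomial (Fin K) ℤ`, `card_support_le_pow`; `ultra_limit`
with `l = Filter.hyperfilter ℕ` gives `G` in a type `τ` with `mm G = lim = x` (uniqueness of limits); rename to
`Fin (Fintype.card τ)` (`yexp_rename`, `mm_rename`). -/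
theorem isClosed_mm (m : ℕ) (hm : 1 ≤ m) : IsClosed {v : ℝ | ∃ (k : ℕ)
    (F : MvPolynomial (Fin k) ℤ), F ≠ 0 ∧ (∀ y, (yexp y F).card ≤ m) ∧ mm F = v} := by
  apply IsSeqClosed.isClosed
  intro v x hv hx
  obtain ⟨T, hT⟩ := hx.bddAbove_range
  obtain ⟨K, hK⟩ := bounded_variables m hm T
  have hG : ∀ n, ∃ G : MvPolynomial (Fin K) ℤ, G ≠ 0 ∧ (∀ y, (yexp y G).card ≤ m) ∧
      mm G = v n := by
    intro n
    obtain ⟨k, F, h1, h2, h3⟩ := hv n
    obtain ⟨G, h4, h5, h6⟩ := hK (Fin k) F h1 h2 (h3.le.trans (hT ⟨n, rfl⟩))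
    exact ⟨G, h4, h5, h6.trans h3⟩
  choose G hG0 hGy hGm using hG
  obtain ⟨τ, hτ, H, hH0, hHy, hHt, -⟩ := ultra_limit (Filter.hyperfilter ℕ) G hG0
    (fun n => card_support_le_pow (hGy n)) (fun n => (hGm n).le.trans (hT ⟨n, rfl⟩))
  have h1 : Filter.Tendsto (fun n => mm (G n)) (Filter.hyperfilter ℕ : Filter ℕ) (nhds x) := by
    have h2 : (fun n => mm (G n)) = v := funext hGm
    rw [h2]
    exact hx.mono_left Nat.hyperfilter_le_atTop
  have h2 : mm H = x := tendsto_nhds_unique hHt h1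
  obtain ⟨H', h3, h4, h5⟩ := E01BoundedAux.embed hm (le_refl (Fintype.card τ)) hH0
    (hHy m hGy)
  exact ⟨Fintype.card τ, H', h3, h4, h5.trans h2⟩

end Pool.Agent.SpCl
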